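import Pool.Agent.Lib.MP_1d35f7_co.ExF

/-! The iterated exchange: one column, and one set of columns. -/

namespace Pool.Agent.Lib.MP_1d35f7_co.Ex

open Finset

variable {α β : Type} [DecidableEq α] [DecidableEq β] {r : α → β → Prop} [DecidableRel r]

/-- A sharper form of `ratio_ge`. -/
theorem ratio_ge' {d D t K : ℕ} {σ : ℝ} (h0 : 0 ≤ σ) (h1 : σ ≤ 1)
    (h : σ * ((D : ℝ) - t - K) ≤ (d : ℝ) - t - K) (k : ℕ) (hk : k ≤ K) :
    σ ^ k * ((d.choose t : ℕ) * (D.choose (t + k) : ℕ)) ≤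
      ((d.choose (t + k) : ℕ) : ℝ) * (D.choose t : ℕ) := by
  induction k with
  | zero => simp
  | succ k ih =>
    have ih := ih (by omega)
    have hkK : (k : ℝ) + 1 ≤ K := by exact_mod_cast hk
    have hs : (0 : ℝ) < ((t + k : ℕ) : ℝ) + 1 := by positivity
    have e1 := ch_succ d (t + k)
    have e2 := ch_succ D (t + k)
    rcases lt_or_ge D (t + k + 1) with hlt | hge
    · rw [← add_assoc, Nat.choose_eq_zero_of_lt hlt]
      simp only [Nat.cast_zero, mul_zero]
      positivity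
    · have hge' : ((t + k : ℕ) : ℝ) + 1 ≤ D := by exact_mod_cast hge
      have hstep : σ * ((D : ℝ) - (t + k : ℕ)) ≤ (d : ℝ) - (t + k : ℕ) := by
        push_cast
        nlinarith
      have hpos : (0 : ℝ) ≤ σ * ((D : ℝ) - (t + k : ℕ)) := mul_nonneg h0 (by linarith)
      refine le_of_mul_le_mul_right ?_ hs
      rw [← add_assoc]
      calc σ ^ (k + 1) * (((d.choose t : ℕ) : ℝ) * (D.choose (t + k + 1) : ℕ)) *
            (((t + k : ℕ) : ℝ) + 1)
          = (σ ^ k * ((d.choose t : ℕ) * (D.choose (t + k) : ℕ))) *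
              (σ * ((D : ℝ) - (t + k : ℕ))) := by
            linear_combination (σ ^ (k + 1) * ((d.choose t : ℕ) : ℝ)) * e2
        _ ≤ (((d.choose (t + k) : ℕ) : ℝ) * (D.choose t : ℕ)) * ((d : ℝ) - (t + k : ℕ)) :=
            mul_le_mul ih hstep hpos (by positivity)
        _ = _ := by
            linear_combination (-((D.choose t : ℕ) : ℝ)) * e1

theorem choose_ge {b f : ℕ} (h : f ≤ b) (hf : 0 < f) :
    (b : ℝ) ^ f ≤ ((b.choose f : ℕ) : ℝ) * (f : ℝ) ^ f := by
  have hb : (0 : ℝ) < b := by exact_mod_cast (by omega : 0 < b)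
  have k := ratio_le (d := f) (D := b) (t := 0) (τ := f / b) h (by positivity)
    ((div_le_one hb).2 (by exact_mod_cast h)) (by
      rw [Nat.cast_zero, sub_zero, sub_zero, div_mul_cancel₀ _ hb.ne']) f
  simp only [zero_add, Nat.choose_self, Nat.choose_zero_right, Nat.cast_one, one_mul] at k
  rw [div_pow, div_mul_eq_mul_div, le_div_iff₀ (by positivity)] at k
  linarith

/-- A column with very few non-neighbours. -/
theorem col_B {n R b d t e Z : ℕ} (ht : t + e = n) (hd : b + d = n + R) (hZ : 0 < Z) (he : e ≤ Z)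
    (hR : 2 * Z ≤ R) (hb : b * (8 * Z) ≤ R) :
    ((d.choose t : ℕ) : ℝ) * ((n + R).choose (n + Z) : ℕ) ≤
      2 * ((d.choose (n + Z) : ℕ) * ((n + R).choose t : ℕ)) := by
  have hZ' : (1 : ℝ) ≤ Z := by exact_mod_cast hZ
  have he' : (e : ℝ) ≤ Z := by exact_mod_cast he
  have hR' : 2 * (Z : ℝ) ≤ R := by exact_mod_cast hR
  have hb' : (b : ℝ) * (8 * Z) ≤ R := by exact_mod_cast hb
  have ht' : (t : ℝ) + e = n := by exact_mod_cast ht
  have hd' : (b : ℝ) + d = n + R := by exact_mod_cast hd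
  have h0 : 1 / (4 * (Z : ℝ)) ≤ 1 := by
    rw [div_le_one (by positivity)]
    linarith
  have h1 := pw_half h0 (k := e + Z) (by
    rw [mul_one_div, div_mul_eq_mul_div, div_le_one (by positivity)]
    push_cast
    linarith)
  have h2 := ratio_ge' (d := d) (D := n + R) (t := t) (K := e + Z) (σ := 1 - 1 / (4 * (Z : ℝ)))
    (by linarith) (by
      have : 0 ≤ 1 / (4 * (Z : ℝ)) := by positivity
      linarith) (by
      have k : (b : ℝ) ≤ 1 / (4 * Z) * (R - Z) := by
        rw [one_div_mul_eq_div, le_div_iff₀ (by positivity)]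
        linarith
      have e1 : ((n + R : ℕ) : ℝ) - t - (e + Z : ℕ) = R - Z := by push_cast; linarith
      have e2 : (d : ℝ) - t - (e + Z : ℕ) = R - Z - b := by push_cast; linarith
      rw [e1, e2]
      linarith) (e + Z) le_rfl
  rw [← add_assoc, ht] at h2
  have h3 := mul_le_mul_of_nonneg_right h1
    (show (0 : ℝ) ≤ (d.choose t : ℕ) * ((n + R).choose (n + Z) : ℕ) by positivity)
  linarith

/-- A column in the middle range. -/
theorem col_C {n R b d t e f z K : ℕ} (ht : t + e = n) (hf : 0 < f) (hz : 0 < z) (he : e ≤ f)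
    (hK : K + f = e + 2 * z * f) (hfb : f ≤ b) (hR : 0 < R) (hb : R ≤ b * (8 * (2 * z * f)))
    (hn : 8 * (2 * z * f) * f * 16 ^ z ≤ n)
    (hs : 1 / 4 * (((n + R : ℕ) : ℝ) - t) ≤ (d : ℝ) - t - K) :
    ((d.choose t : ℕ) : ℝ) * ((n + R).choose (t + K + f) : ℕ) ≤
      ((b.choose f : ℕ) * (d.choose (t + K) : ℕ)) * ((n + R).choose t : ℕ) := by
  have hfZ : f ≤ 2 * z * f := Nat.le_mul_of_pos_left f (by omega)
  have hR' : (0 : ℝ) < R := by exact_mod_cast hR
  have hf' : (0 : ℝ) < f := by exact_mod_cast hf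
  have hz' : (0 : ℝ) < z := by exact_mod_cast hz
  have h1 := ratio_ge (by norm_num) hs K le_rfl
  have h2 := grow_le (D := n + R) (s := t + K) (A := n) (B := R) (Nat.cast_nonneg _) hR'.le
    (by exact_mod_cast (by omega : n ≤ t + K + 1))
    (by
      have : ((n + R : ℕ) : ℝ) ≤ R + (t + K : ℕ) := by
        exact_mod_cast (by omega : n + R ≤ R + (t + K))
      linarith) f
  have h3 := choose_ge hfb hf
  have h4 : (R : ℝ) ^ f * (f : ℝ) ^ f ≤ (b : ℝ) ^ f * ((n : ℝ) ^ f * (1 / 4) ^ K) := by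
    have a1 : (1 / 16 ^ z : ℝ) ^ f ≤ (1 / 4) ^ K := by
      calc (1 / 16 ^ z : ℝ) ^ f = (1 / 4) ^ (2 * z * f) := by
            rw [pow_mul, pow_mul, ← one_div_pow]
            norm_num
        _ ≤ _ := pow_le_pow_of_le_one (by norm_num) (by norm_num) (by omega)
    have a2 : (R : ℝ) * f ≤ b * (n * (1 / 16 ^ z)) := by
      have b1 : R * f * 16 ^ z ≤ b * n :=
        calc R * f * 16 ^ z ≤ b * (8 * (2 * z * f)) * f * 16 ^ z := by gcongr
          _ = b * (8 * (2 * z * f) * f * 16 ^ z) := by ring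
          _ ≤ _ := Nat.mul_le_mul_left _ hn
      have b2 : (R : ℝ) * f * 16 ^ z ≤ b * n := by exact_mod_cast b1
      rw [mul_one_div, ← mul_div_assoc, le_div_iff₀ (by positivity)]
      exact b2
    calc _ = ((R : ℝ) * f) ^ f := (mul_pow _ _ _).symm
      _ ≤ (b * (n * (1 / 16 ^ z))) ^ f := pow_le_pow_left₀ (by positivity) a2 f
      _ = (b : ℝ) ^ f * ((n : ℝ) ^ f * (1 / 16 ^ z) ^ f) := by rw [mul_pow, mul_pow]
      _ ≤ _ := by gcongr
  have hp : (0 : ℝ) < (R : ℝ) ^ f * (f : ℝ) ^ f := by positivity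
  refine le_of_mul_le_mul_right ?_ hp
  calc _ ≤ ((d.choose t : ℕ) : ℝ) * ((n + R).choose (t + K + f) : ℕ) *
        ((b : ℝ) ^ f * ((n : ℝ) ^ f * (1 / 4) ^ K)) := by gcongr
    _ = (b : ℝ) ^ f * ((1 / 4) ^ K * ((d.choose t : ℕ) *
        (((n + R).choose (t + K + f) : ℕ) * (n : ℝ) ^ f))) := by ring
    _ ≤ ((b.choose f : ℕ) * (f : ℝ) ^ f) * ((1 / 4) ^ K * ((d.choose t : ℕ) *
        (((n + R).choose (t + K) : ℕ) * (R : ℝ) ^ f))) := by gcongr
    _ = ((b.choose f : ℕ) * (f : ℝ) ^ f * (R : ℝ) ^ f) * ((1 / 4) ^ K * ((d.choose t : ℕ) *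
        ((n + R).choose (t + K) : ℕ))) := by ring
    _ ≤ ((b.choose f : ℕ) * (f : ℝ) ^ f * (R : ℝ) ^ f) *
        ((d.choose (t + K) : ℕ) * ((n + R).choose t : ℕ)) := by gcongr
    _ = _ := by ring

omit [DecidableEq β] in
/-- A column without too many non-neighbours has at most `f` of them in many sets of rows. -/
theorem col_one {X0 : Finset α} {u : β} {n R t e f z κ : ℕ} (hD : X0.card = n + R)
    (ht : t + κ + e = n) (hf : 0 < f) (hz : 0 < z) (he : e ≤ f) (hκ : κ ≤ 2 * z * f)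
    (hR : 32 * (2 * z * f) ≤ R) (hn : 8 * (2 * z * f) * f * 16 ^ z ≤ n)
    (hs : 3 / 8 * ((X0.card : ℝ) - t) ≤ ((rd r X0 u).card : ℝ) - t) :
    (((rd r X0 u).card.choose (t + κ) : ℕ) : ℝ) * ((n + R).choose (n + 2 * z * f) : ℕ) ≤
      2 * ((((powersetCard (n + 2 * z * f) X0).filter
        fun W => (W \ rd r W u).card ≤ f).card : ℝ) * ((n + R).choose (t + κ) : ℕ)) := by
  have hfZ : f ≤ 2 * z * f := Nat.le_mul_of_pos_left f (by omega)
  have hsp := card_split (r := r) X0 u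
  rw [hD] at hsp
  have hN : (0 : ℝ) ≤ (((powersetCard (n + 2 * z * f) X0).filter
      fun W => (W \ rd r W u).card ≤ f).card : ℝ) * ((n + R).choose (t + κ) : ℕ) := by positivity
  by_cases hA : (X0 \ rd r X0 u).card ≤ f
  · rw [filter_true_of_mem fun W hW => le_trans (card_le_card fun i hi => by
      simp only [rd, mem_sdiff, mem_filter] at hi ⊢
      exact ⟨(mem_powersetCard.1 hW).1 hi.1, fun k => hi.2 ⟨hi.1, k.2⟩⟩) hA, card_powersetCard,
      hD] at hN ⊢
    have k : (((rd r X0 u).card.choose (t + κ) : ℕ) : ℝ) ≤ ((n + R).choose (t + κ) : ℕ) := by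
      exact_mod_cast Nat.choose_le_choose _ (by omega)
    have := mul_le_mul_of_nonneg_right k (Nat.cast_nonneg (α := ℝ) ((n + R).choose (n + 2 * z * f)))
    linarith
  by_cases hB : (X0 \ rd r X0 u).card * (8 * (2 * z * f)) ≤ R
  · refine (col_B ht hsp (by omega) (by omega) (by omega) hB).trans ?_
    have k := count_W (r := r) X0 u 0 (n + 2 * z * f)
    rw [Nat.choose_zero_right, one_mul, add_zero] at k
    have k2 : (rd r X0 u).card.choose (n + 2 * z * f) ≤ ((powersetCard (n + 2 * z * f) X0).filter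
        fun W => (W \ rd r W u).card ≤ f).card := k.trans (card_le_card fun W hW =>
      mem_filter.2 ⟨(mem_filter.1 hW).1, (mem_filter.1 hW).2.trans (Nat.zero_le f)⟩)
    gcongr
  obtain ⟨K, hK⟩ : ∃ K, K + f = e + 2 * z * f := ⟨e + 2 * z * f - f, by omega⟩
  have k := col_C (d := (rd r X0 u).card) ht hf hz he hK (not_le.1 hA).le (by omega)
    (not_le.1 hB).le hn (by
      have a1 : 8 * (κ + K) ≤ R := by omega
      have a2 : 8 * ((κ : ℝ) + K) ≤ R := by exact_mod_cast a1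
      have a3 : (t : ℝ) + κ + e = n := by exact_mod_cast ht
      have a4 : (0 : ℝ) ≤ κ := Nat.cast_nonneg _
      have a5 : (0 : ℝ) ≤ e := Nat.cast_nonneg _
      rw [hD] at hs
      push_cast at hs ⊢
      linarith)
  have k2 := count_W (r := r) X0 u f (t + κ + K)
  rw [show t + κ + K + f = n + 2 * z * f by omega] at k k2
  have k3 : (((X0 \ rd r X0 u).card.choose f : ℕ) : ℝ) * ((rd r X0 u).card.choose (t + κ + K) : ℕ) ≤
      (((powersetCard (n + 2 * z * f) X0).filter fun W => (W \ rd r W u).card ≤ f).card : ℝ) := by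
    exact_mod_cast k2
  have k4 := mul_le_mul_of_nonneg_right k3 (Nat.cast_nonneg (α := ℝ) ((n + R).choose (t + κ)))
  linarith

end Pool.Agent.Lib.MP_1d35f7_co.Ex
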