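import Pool.Agent.Lib.MP_1d35f7_co.ChA

/-! The iterated exchange: a set of columns with normal load has many good extensions. -/

namespace Pool.Agent.Lib.MP_1d35f7_co.Ex

open Finset

variable {α β : Type} [DecidableEq α] [DecidableEq β] {r : α → β → Prop} [DecidableRel r]

variable (r) in
/-- The number of `s`-sets of common neighbours of `U`, if `U` has at least `m` of them. -/
def ph (X : Finset α) (m s : ℕ) (U : Finset β) : ℝ :=
  if m ≤ (nb r X U).card then ((nb r X U).card.choose s : ℕ) else 0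

omit [DecidableEq α] [DecidableEq β] in
theorem ph_nonneg (X : Finset α) (m s : ℕ) (U : Finset β) : 0 ≤ ph r X m s U := by
  unfold ph
  split_ifs
  exacts [Nat.cast_nonneg _, le_rfl]

theorem card_super {X0 T : Finset α} (hT : T ⊆ X0) (w : ℕ) :
    ((powersetCard w X0).filter fun W => T ⊆ W).card ≤ (X0.card - T.card).choose (w - T.card) := by
  rw [← card_sdiff_of_subset hT, ← card_powersetCard]
  refine card_le_card_of_injOn (fun W => W \ T) (fun W hW => ?_) fun W hW W' hW' e => ?_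
  · rw [mem_coe, mem_filter, mem_powersetCard] at hW
    rw [mem_coe, mem_powersetCard, card_sdiff_of_subset hW.2, hW.1.2]
    exact ⟨sdiff_subset_sdiff hW.1.1 (Subset.refl T), rfl⟩
  · rw [mem_coe, mem_filter] at hW hW'
    have e : W \ T = W' \ T := e
    rw [← sdiff_union_of_subset hW.2, e, sdiff_union_of_subset hW'.2]

/-- The sets of rows in which all columns of `V` have few non-neighbours. -/
theorem card_V {X : Finset α} {U V : Finset β} {m s w z f : ℕ} (hV : V.card = z)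
    (hw : m + z * f ≤ w) (hs : s ≤ m) :
    (((powersetCard w (nb r X U)).filter fun W => ∀ u ∈ V, (W \ rd r W u).card ≤ f).card : ℝ) ≤
      ph r X m s (U ∪ V) * (((nb r X U).card - s).choose (w - s) : ℕ) := by
  have key : ∀ W ∈ (powersetCard w (nb r X U)).filter fun W => ∀ u ∈ V, (W \ rd r W u).card ≤ f,
      ∃ W' ⊆ W, W' ⊆ nb r X (U ∪ V) ∧ m ≤ W'.card := fun W hW => by
    obtain ⟨h1, h2⟩ := mem_filter.1 hW
    obtain ⟨h1, h3⟩ := mem_powersetCard.1 h1
    have hb : (V.biUnion fun u => W \ rd r W u).card ≤ z * f := by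
      refine card_biUnion_le.trans ?_
      rw [← hV, ← smul_eq_mul]
      exact sum_le_card_nsmul _ _ _ h2
    have hS := le_card_sdiff (V.biUnion fun u => W \ rd r W u) W
    refine ⟨W \ V.biUnion fun u => W \ rd r W u, sdiff_subset, fun i hi => ?_, by omega⟩
    rw [mem_sdiff] at hi
    have k := mem_filter.1 (h1 hi.1)
    refine mem_filter.2 ⟨k.1, fun u hu => ?_⟩
    rcases mem_union.1 hu with hu | hu
    · exact k.2 u hu
    · by_contra hr
      exact hi.2 (mem_biUnion.2 ⟨u, hu, mem_sdiff.2 ⟨hi.1, fun k => hr (mem_filter.1 k).2⟩⟩)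
  unfold ph
  split_ifs with hm
  · have h1 : ((powersetCard w (nb r X U)).filter
        fun W => ∀ u ∈ V, (W \ rd r W u).card ≤ f) ⊆ (powersetCard s (nb r X (U ∪ V))).biUnion
          fun T => (powersetCard w (nb r X U)).filter fun W => T ⊆ W := fun W hW => by
      obtain ⟨W', a1, a2, a3⟩ := key W hW
      obtain ⟨T, b1, b2⟩ := exists_subset_card_eq (hs.trans a3)
      exact mem_biUnion.2 ⟨T, mem_powersetCard.2 ⟨b1.trans a2, b2⟩,
        mem_filter.2 ⟨(mem_filter.1 hW).1, b1.trans a1⟩⟩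
    have h2 := (card_le_card h1).trans (card_biUnion_le.trans (sum_le_card_nsmul _ _
      (((nb r X U).card - s).choose (w - s)) fun T hT => by
        obtain ⟨b1, rfl⟩ := mem_powersetCard.1 hT
        exact card_super (fun i hi => mem_filter.2 ⟨(mem_filter.1 (b1 hi)).1,
          fun u hu => (mem_filter.1 (b1 hi)).2 u (mem_union_left V hu)⟩) w))
    rw [card_powersetCard, smul_eq_mul] at h2
    exact_mod_cast h2
  · rw [zero_mul, card_eq_zero.2 (eq_empty_of_forall_notMem fun W hW => ?_), Nat.cast_zero]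
    obtain ⟨W', -, a2, a3⟩ := key W hW
    exact hm (a3.trans (card_le_card a2))

/-- The local step. -/
theorem good_U {X : Finset α} {Y U : Finset β} {n R t e f z κ : ℕ} {μ B : ℝ}
    (hD : (nb r X U).card = n + R)
    (ht : t + κ + e = n) (hf : 0 < f) (hz : 0 < z) (he : e ≤ f) (hκ : κ ≤ 2 * z * f)
    (hR : 32 * (2 * z * f) ≤ R) (hn : 8 * (2 * z * f) * f * 16 ^ z ≤ n)
    (hB : ∀ T ⊆ X, T.card = t → ((ld r Y T).card : ℝ) ≤ B) (c1 : (3 / 8) ^ κ * B ≤ μ / 32)
    (c2 : 64 * (z : ℝ) ≤ μ)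
    (hg : μ / 16 * ((n + R).choose (t + κ) : ℕ) ≤
      ∑ u ∈ Y \ U, (((rd r (nb r X U) u).card.choose (t + κ) : ℕ) : ℝ)) :
    (((n + R).choose (t + κ) : ℕ) : ℝ) ≤ ((n + 2 * z * f).choose (t + κ) : ℕ) *
      ∑ V ∈ powersetCard z (Y \ U), ph r X (n + z * f) (t + κ) (U ∪ V) := by
  classical
  obtain ⟨S1, S2, hsum, u1, u2, m1, m2⟩ : ∃ S1 S2 : Finset β,
      (∀ F : β → ℝ, ∑ u ∈ Y \ U, F u = ∑ u ∈ S1, F u + ∑ u ∈ S2, F u) ∧ S1 ⊆ Y \ U ∧ S2 ⊆ Y \ U ∧
      (∀ u ∈ S1, ((rd r (nb r X U) u).card : ℝ) - t ≤ 3 / 8 * (((nb r X U).card : ℝ) - t)) ∧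
      ∀ u ∈ S2, 3 / 8 * (((nb r X U).card : ℝ) - t) ≤ ((rd r (nb r X U) u).card : ℝ) - t :=
    ⟨(Y \ U).filter fun u =>
        ((rd r (nb r X U) u).card : ℝ) - t ≤ 3 / 8 * (((nb r X U).card : ℝ) - t),
      (Y \ U).filter fun u =>
        ¬ ((rd r (nb r X U) u).card : ℝ) - t ≤ 3 / 8 * (((nb r X U).card : ℝ) - t),
      fun F => (sum_filter_add_sum_filter_not _ _ _).symm, filter_subset _ _, filter_subset _ _,
      fun u hu => (mem_filter.1 hu).2, fun u hu => (not_le.1 (mem_filter.1 hu).2).le⟩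
  have s1 := loc_large (r := r) (X0 := nb r X U) (t := t) (τ := 3 / 8) (κ := κ) (B := B)
    (u1.trans sdiff_subset) (by omega) (by norm_num) (by norm_num)
    (fun T hT hTc => hB T (hT.trans (filter_subset _ _)) hTc) m1
  rw [hD] at s1
  rw [hsum] at hg
  have p1 : (0 : ℝ) < ((n + R).choose (t + κ) : ℕ) := by exact_mod_cast Nat.choose_pos (by omega)
  have p2 : (0 : ℝ) ≤ ((n + R).choose (n + 2 * z * f) : ℕ) := Nat.cast_nonneg _
  have s2 : 2 * z * (((n + R).choose (t + κ) : ℕ) : ℝ) ≤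
      ∑ u ∈ S2, (((rd r (nb r X U) u).card.choose (t + κ) : ℕ) : ℝ) := by
    have := mul_le_mul_of_nonneg_right c1 p1.le
    have := mul_le_mul_of_nonneg_right c2 p1.le
    linarith
  have s3 := sum_le_sum (s := S2) fun u hu => col_one hD ht hf hz he hκ hR hn (m2 u hu)
  rw [← sum_mul, ← mul_sum, ← sum_mul] at s3
  have s4 : z * (((n + R).choose (n + 2 * z * f) : ℕ) : ℝ) ≤
      ∑ W ∈ powersetCard (n + 2 * z * f) (nb r X U),
        (((Y \ U).filter fun u => (W \ rd r W u).card ≤ f).card : ℝ) := by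
    have e1 : ∑ u ∈ Y \ U, ((powersetCard (n + 2 * z * f) (nb r X U)).filter
        fun W => (W \ rd r W u).card ≤ f).card = ∑ W ∈ powersetCard (n + 2 * z * f) (nb r X U),
        ((Y \ U).filter fun u => (W \ rd r W u).card ≤ f).card := by
      simp only [card_filter]
      exact sum_comm
    have e2 : ∑ u ∈ S2, (((powersetCard (n + 2 * z * f) (nb r X U)).filter
        fun W => (W \ rd r W u).card ≤ f).card : ℝ) ≤
        ∑ W ∈ powersetCard (n + 2 * z * f) (nb r X U),
        (((Y \ U).filter fun u => (W \ rd r W u).card ≤ f).card : ℝ) := by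
      exact_mod_cast (sum_le_sum_of_subset u2).trans e1.le
    refine le_trans (le_of_mul_le_mul_right ?_ p1) e2
    have := mul_le_mul_of_nonneg_right s2 p2
    linarith
  obtain ⟨y, rfl⟩ : ∃ y, z = y + 1 := ⟨z - 1, by omega⟩
  have s5 : (((n + R).choose (n + 2 * (y + 1) * f) : ℕ) : ℝ) ≤
      ∑ W ∈ powersetCard (n + 2 * (y + 1) * f) (nb r X U),
        ((((Y \ U).filter fun u => (W \ rd r W u).card ≤ f).card.choose (y + 1) : ℕ) : ℝ) := by
    refine le_trans ?_ (sum_le_sum fun W _ => tangent _ (y + 1) y)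
    rw [sum_add_distrib, ← sum_mul, sum_sub_distrib, sum_const, sum_const, card_powersetCard, hD,
      nsmul_eq_mul, nsmul_eq_mul, Nat.choose_self, Nat.cast_one, mul_one, le_add_iff_nonneg_right]
    exact mul_nonneg (by linarith) (Nat.cast_nonneg _)
  have s6 := s5.trans ((dc_one (fun u W => (W \ rd r W u).card ≤ f) (Y \ U)
    (powersetCard (n + 2 * (y + 1) * f) (nb r X U)) (y + 1)).le.trans
    (sum_le_sum fun V hV => card_V (m := n + (y + 1) * f) (s := t + κ) (mem_powersetCard.1 hV).2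
      (by nlinarith) (by omega)))
  rw [← sum_mul, hD] at s6
  have p3 : (0 : ℝ) < ((n + R - (t + κ)).choose (n + 2 * (y + 1) * f - (t + κ)) : ℕ) := by
    exact_mod_cast Nat.choose_pos (by omega)
  have e3 : (((n + R).choose (n + 2 * (y + 1) * f) : ℕ) : ℝ) *
      ((n + 2 * (y + 1) * f).choose (t + κ) : ℕ) = ((n + R).choose (t + κ) : ℕ) *
        ((n + R - (t + κ)).choose (n + 2 * (y + 1) * f - (t + κ)) : ℕ) := by
    exact_mod_cast Nat.choose_mul (by omega)
  refine le_of_mul_le_mul_right ?_ p3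
  rw [← e3]
  have := mul_le_mul_of_nonneg_right s6
    (Nat.cast_nonneg (α := ℝ) ((n + 2 * (y + 1) * f).choose (t + κ)))
  linarith

end Pool.Agent.Lib.MP_1d35f7_co.Ex
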