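import Pool.Agent.Lib.MP_1d35f7_co.ChB

/-! The iterated exchange: the global recursion. -/

namespace Pool.Agent.Lib.MP_1d35f7_co.Ex

open Finset

variable {α β : Type} [DecidableEq α] [DecidableEq β] {r : α → β → Prop} [DecidableRel r]

theorem sum_ext (Y : Finset β) (k z : ℕ) {F : Finset β → ℝ} (hF : ∀ U, 0 ≤ F U) :
    ∑ U ∈ powersetCard k Y, ∑ V ∈ powersetCard z (Y \ U), F (U ∪ V) ≤
      ((k + z).choose k : ℕ) * ∑ U' ∈ powersetCard (k + z) Y, F U' := by
  have h1 : ∀ U ∈ powersetCard k Y, ∑ V ∈ powersetCard z (Y \ U), F (U ∪ V) ≤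
      ∑ U' ∈ powersetCard (k + z) Y, if U ⊆ U' then F U' else 0 := fun U hU => by
    obtain ⟨a1, a2⟩ := mem_powersetCard.1 hU
    have hd : ∀ V ∈ powersetCard z (Y \ U), Disjoint U V := fun V hV =>
      disjoint_sdiff.mono_right (mem_powersetCard.1 hV).1
    rw [← sum_filter, ← sum_image (g := fun V => U ∪ V) fun V hV V' hV' e => by
      have e : U ∪ V = U ∪ V' := e
      rw [← union_sdiff_cancel_left (hd V hV), e, union_sdiff_cancel_left (hd V' hV')]]
    refine sum_le_sum_of_subset_of_nonneg (fun U' hU' => ?_) fun _ _ _ => hF _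
    obtain ⟨V, hV, rfl⟩ := mem_image.1 hU'
    refine mem_filter.2 ⟨mem_powersetCard.2 ⟨union_subset a1
      ((mem_powersetCard.1 hV).1.trans sdiff_subset), ?_⟩, subset_union_left⟩
    rw [card_union_of_disjoint (hd V hV), a2, (mem_powersetCard.1 hV).2]
  refine (sum_le_sum h1).trans ?_
  rw [sum_comm, mul_sum]
  refine sum_le_sum fun U' hU' => ?_
  rw [← sum_filter, sum_const, nsmul_eq_mul]
  refine mul_le_mul_of_nonneg_right ?_ (hF U')
  rw [← (mem_powersetCard.1 hU').2, ← card_powersetCard]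
  exact_mod_cast card_le_card fun U hU =>
    mem_powersetCard.2 ⟨(mem_filter.1 hU).2, (mem_powersetCard.1 (mem_filter.1 hU).1).2⟩

omit [DecidableEq α] in
/-- A set of columns with low load. -/
theorem bad_U {X : Finset α} {Y U : Finset β} (hU : U ⊆ Y) {s : ℕ} {μ : ℝ} (hμ : 0 < μ)
    (hk : 8 * (U.card : ℝ) ≤ μ)
    (hg : ∑ u ∈ Y \ U, (((rd r (nb r X U) u).card.choose s : ℕ) : ℝ) ≤
      μ / 16 * ((nb r X U).card.choose s : ℕ)) :
    (((nb r X U).card.choose s : ℕ) : ℝ) ≤ 2 * ∑ T ∈ powersetCard s (nb r X U),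
      if ((ld r Y T).card : ℝ) ≤ μ / 4 then (1 : ℝ) else 0 := by
  rw [dc_one] at hg
  have h1 : ∑ T ∈ powersetCard s (nb r X U),
      μ / 8 * (1 - if ((ld r Y T).card : ℝ) ≤ μ / 4 then (1 : ℝ) else 0) ≤
      ∑ T ∈ powersetCard s (nb r X U), ((ld r (Y \ U) T).card : ℝ) := by
    refine sum_le_sum fun T hT => ?_
    have k : ((ld r (Y \ U) T).card : ℝ) + U.card = (ld r Y T).card := by
      exact_mod_cast ld_sdiff hU (mem_powersetCard.1 hT).1
    split_ifs with e
    · rw [sub_self, mul_zero]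
      exact Nat.cast_nonneg _
    · linarith [not_le.1 e]
  rw [← mul_sum, sum_sub_distrib, sum_const, card_powersetCard, nsmul_eq_mul, mul_one] at h1
  refine le_of_mul_le_mul_left ?_ hμ
  linarith

/-- One step of the recursion. -/
theorem step {X : Finset α} {Y : Finset β} {n R t e f z κ k : ℕ} {μ B A : ℝ}
    (ht : t + κ + e = n) (hf : 0 < f) (hz : 0 < z) (he : e ≤ f) (hκ : κ ≤ 2 * z * f)
    (hR : 32 * (2 * z * f) ≤ R) (hn : 8 * (2 * z * f) * f * 16 ^ z ≤ n)
    (hB : ∀ T ⊆ X, T.card = t → ((ld r Y T).card : ℝ) ≤ B) (c1 : (3 / 8) ^ κ * B ≤ μ / 32)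
    (c2 : 64 * (z : ℝ) ≤ μ) (c3 : 8 * (k : ℝ) ≤ μ)
    (hA : (((n + 2 * z * f).choose (t + κ) : ℕ) : ℝ) * ((k + z).choose k : ℕ) ≤ A) :
    ∑ U ∈ powersetCard k Y, ph r X (n + R) (t + κ) U ≤
      A * ∑ U ∈ powersetCard (k + z) Y, ph r X (n + z * f) (t + κ) U +
        2 * ((X.card.choose (t + κ) : ℕ) * (μ / 4) ^ k / (k.factorial : ℕ)) := by
  have hz' : (0 : ℝ) < z := by exact_mod_cast hz
  have hμ : 0 < μ := by linarith
  have h1 : ∀ U ∈ powersetCard k Y, ph r X (n + R) (t + κ) U ≤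
      ((n + 2 * z * f).choose (t + κ) : ℕ) *
        ∑ V ∈ powersetCard z (Y \ U), ph r X (n + z * f) (t + κ) (U ∪ V) +
      2 * ∑ T ∈ powersetCard (t + κ) (nb r X U),
        if ((ld r Y T).card : ℝ) ≤ μ / 4 then (1 : ℝ) else 0 := fun U hU => by
    obtain ⟨a1, a2⟩ := mem_powersetCard.1 hU
    have p1 : (0 : ℝ) ≤ ((n + 2 * z * f).choose (t + κ) : ℕ) *
        ∑ V ∈ powersetCard z (Y \ U), ph r X (n + z * f) (t + κ) (U ∪ V) :=
      mul_nonneg (Nat.cast_nonneg _) (sum_nonneg fun _ _ => ph_nonneg _ _ _ _)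
    have p2 : (0 : ℝ) ≤ ∑ T ∈ powersetCard (t + κ) (nb r X U),
        if ((ld r Y T).card : ℝ) ≤ μ / 4 then (1 : ℝ) else 0 :=
      sum_nonneg fun _ _ => by split_ifs <;> norm_num
    rw [ph]
    split_ifs with hD
    · rcases le_total (μ / 16 * ((nb r X U).card.choose (t + κ) : ℕ))
        (∑ u ∈ Y \ U, (((rd r (nb r X U) u).card.choose (t + κ) : ℕ) : ℝ)) with hg | hg
      · obtain ⟨R', hR'⟩ := Nat.exists_eq_add_of_le ((Nat.le_add_right n R).trans hD)
        rw [hR'] at hg ⊢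
        linarith [good_U hR' ht hf hz he hκ (by omega) hn hB c1 c2 hg]
      · linarith [bad_U a1 hμ (a2 ▸ c3) hg]
    · linarith
  refine (sum_le_sum h1).trans ?_
  rw [sum_add_distrib, ← mul_sum, ← mul_sum, dc_wt]
  refine add_le_add ?_ (mul_le_mul_of_nonneg_left ?_ (by norm_num))
  · refine (mul_le_mul_of_nonneg_left (sum_ext Y k z fun U => ph_nonneg _ _ _ U)
      (Nat.cast_nonneg _)).trans ?_
    rw [← mul_assoc]
    exact mul_le_mul_of_nonneg_right hA (sum_nonneg fun _ _ => ph_nonneg _ _ _ _)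
  · rw [le_div_iff₀ (by exact_mod_cast k.factorial_pos), sum_mul, ← card_powersetCard,
      ← nsmul_eq_mul]
    refine sum_le_card_nsmul _ _ _ fun T _ => ?_
    split_ifs with e
    · rw [mul_one]
      exact choose_fac_le e
    · rw [mul_zero, zero_mul]
      positivity

/-- The recursion, run from the end. -/
theorem iter {X : Finset α} {Y : Finset β} {n L h t e E z κ N : ℕ} {μ B : ℝ}
    (hf : Free r X Y n L) (hL : h + N * z = L)
    (ht : t + κ + e = n) (hE : 0 < E) (hz : 0 < z) (he : e ≤ E) (hκ : κ ≤ 2 * z * E)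
    (hn : 8 * (2 * z * (E * 64 ^ N)) * (E * 64 ^ N) * 16 ^ z ≤ n)
    (hB : ∀ T ⊆ X, T.card = t → ((ld r Y T).card : ℝ) ≤ B) (c1 : (3 / 8) ^ κ * B ≤ μ / 32)
    (c2 : 64 * (z : ℝ) ≤ μ) (c3 : 8 * (L : ℝ) ≤ μ) (j : ℕ) :
    ∀ k, j ≤ N → k + j * z = L → ∑ U ∈ powersetCard k Y, ph r X (n + z * (E * 64 ^ j)) (t + κ) U ≤
      2 * ((X.card.choose (t + κ) : ℕ) * (μ / 4) ^ h / (h.factorial : ℕ) * μ ^ (N * z)) *
        (2 * (((2 * n) ^ (2 * (2 * z * (E * 64 ^ N))) * L ^ z : ℕ) : ℝ)) ^ j := by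
  have hz' : (1 : ℝ) ≤ z := by exact_mod_cast hz
  have hμ : 1 ≤ μ := by linarith
  induction j with
  | zero =>
    intro k _ hk
    rw [sum_eq_zero fun U hU => ?_]
    · positivity
    · rw [ph, if_neg]
      intro hD
      exact hf.ge (filter_subset _ _) (mem_powersetCard.1 hU).1 ((Nat.le_add_right _ _).trans hD)
        (by rw [(mem_powersetCard.1 hU).2]; omega) fun i hi => (mem_filter.1 hi).2
  | succ j ih =>
    intro k hj hk
    have ih := ih (k + z) (by omega) (by rw [← hk]; ring)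
    have f1 : E * 64 ^ j ≤ E * 64 ^ N :=
      Nat.mul_le_mul_left _ (Nat.pow_le_pow_right (by norm_num) (by omega))
    have f2 : E ≤ E * 64 ^ j := Nat.le_mul_of_pos_right _ (by positivity)
    have f3 : 2 * z * (E * 64 ^ j) ≤ 2 * z * (E * 64 ^ N) := Nat.mul_le_mul_left _ f1
    have f4 : E * 64 ^ j ≤ 2 * z * (E * 64 ^ j) := Nat.le_mul_of_pos_left _ (by omega)
    have f5 : 2 * z * (E * 64 ^ N) ≤ n := by
      refine le_trans ?_ hn
      calc _ = 1 * (2 * z * (E * 64 ^ N)) * 1 * 1 := by ring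
        _ ≤ _ := by
          gcongr
          · norm_num
          · omega
          · exact Nat.one_le_pow _ _ (by norm_num)
    have f6 : (j + 1) * z ≤ N * z := Nat.mul_le_mul_right _ hj
    have f7 : k + z ≤ L := by
      rw [← hk, add_mul]
      omega
    have hA : (n + 2 * z * (E * 64 ^ j)).choose (t + κ) * (k + z).choose k ≤
        (2 * n) ^ (2 * (2 * z * (E * 64 ^ N))) * L ^ z := by
      refine Nat.mul_le_mul ?_ ?_
      · rw [← Nat.choose_symm (by omega)]
        exact (Nat.choose_le_pow _ _).trans ((Nat.pow_le_pow_left (by omega) _).trans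
          (Nat.pow_le_pow_right (by omega) (by omega)))
      · rw [Nat.choose_symm_add]
        exact (Nat.choose_le_pow _ _).trans (Nat.pow_le_pow_left f7 _)
    have h1 := step (r := r) (Y := Y) (R := z * (E * 64 ^ (j + 1))) (k := k)
      (A := (((2 * n) ^ (2 * (2 * z * (E * 64 ^ N))) * L ^ z : ℕ) : ℝ)) ht (by omega) hz
      (he.trans f2) (hκ.trans (Nat.mul_le_mul_left _ f2)) (le_of_eq (by ring))
      (le_trans (by gcongr) hn) hB c1 c2
      (le_trans (by exact_mod_cast (by omega : 8 * k ≤ 8 * L)) c3) (by exact_mod_cast hA)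
    have h2 : (X.card.choose (t + κ) : ℕ) * (μ / 4) ^ k / (k.factorial : ℕ) ≤
        (X.card.choose (t + κ) : ℕ) * (μ / 4) ^ h / (h.factorial : ℕ) * μ ^ (N * z) := by
      obtain ⟨i, rfl⟩ : ∃ i, k = h + i := ⟨k - h, by omega⟩
      have a1 : (μ / 4) ^ i ≤ μ ^ (N * z) := (pow_le_pow_left₀ (by positivity) (by linarith) i).trans
        (pow_le_pow_right₀ hμ (by omega))
      have a2 : ((h.factorial : ℕ) : ℝ) ≤ ((h + i).factorial : ℕ) := by
        exact_mod_cast Nat.factorial_le (Nat.le_add_right h i)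
      have a3 : (0 : ℝ) < (h.factorial : ℕ) := by exact_mod_cast h.factorial_pos
      rw [pow_add, div_mul_eq_mul_div, ← mul_assoc]
      gcongr
    have hA1 : (1 : ℝ) ≤ (((2 * n) ^ (2 * (2 * z * (E * 64 ^ N))) * L ^ z : ℕ) : ℝ) := by
      exact_mod_cast Nat.mul_pos (Nat.pow_pos (by omega)) (Nat.pow_pos (by omega))
    have hB0 : 0 ≤ (X.card.choose (t + κ) : ℕ) * (μ / 4) ^ h / (h.factorial : ℕ) * μ ^ (N * z) := by
      positivity
    generalize (((2 * n) ^ (2 * (2 * z * (E * 64 ^ N))) * L ^ z : ℕ) : ℝ) = A at *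
    generalize (X.card.choose (t + κ) : ℕ) * (μ / 4) ^ h / (h.factorial : ℕ) * μ ^ (N * z) = B0 at *
    have a1 : 1 ≤ A * (2 * A) ^ j := one_le_mul_of_one_le_of_one_le hA1 (one_le_pow₀ (by linarith))
    have a2 := mul_le_mul_of_nonneg_left ih (show 0 ≤ A by linarith)
    rw [pow_succ (2 * A)]
    linarith [mul_le_mul_of_nonneg_left a1 hB0]

omit [DecidableEq α] [DecidableEq β] in
/-- At the start most complete pairs have many spare rows. -/
theorem start {X : Finset α} {Y : Finset β} {n h g₀ t e M : ℕ} {μ B τ : ℝ}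
    (ht : t + M + e = n) (hnx : n ≤ X.card)
    (mean : μ * (powersetCard (t + M) X).card ≤
      ∑ T ∈ powersetCard (t + M) X, ((ld r Y T).card : ℝ)) (hμ : 0 ≤ μ) (c0 : 2 * (h : ℝ) ≤ μ)
    (hB : ∀ T ⊆ X, T.card = t → ((ld r Y T).card : ℝ) ≤ B)
    (h0 : 0 ≤ τ) (h1 : τ ≤ 1) (hτ : (g₀ : ℝ) + e + M ≤ τ * ((X.card : ℝ) - n))
    (c4 : 2 * (τ ^ M * B ^ h) ≤ (μ / 2) ^ h) :
    (X.card.choose (t + M) : ℕ) * (μ / 2) ^ h / (h.factorial : ℕ) ≤
      2 * ∑ U ∈ powersetCard h Y, ph r X (n + g₀) (t + M) U := by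
  have a2 := cheb_pow (fun T => (ld r Y T).card) mean (h := h) (by linarith) h le_rfl
  rw [card_powersetCard, ← dc_two] at a2
  have a3 := sum_le_sum (s := powersetCard h Y) fun U _ =>
    show (((nb r X U).card.choose (t + M) : ℕ) : ℝ) * (X.card.choose t : ℕ) ≤
      ph r X (n + g₀) (t + M) U * (X.card.choose t : ℕ) +
        τ ^ M * (X.card.choose (t + M) : ℕ) * ((nb r X U).card.choose t : ℕ) by
    rw [ph]
    split_ifs with hD
    · exact le_add_of_nonneg_right (by positivity)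
    · have e2 := ratio_le (d := (nb r X U).card) (D := X.card) (t := t)
        (card_le_card (filter_subset _ _)) h0 h1 (by
          have a1 : ((nb r X U).card : ℝ) ≤ n + g₀ := by exact_mod_cast (not_le.1 hD).le
          have a2 : (t : ℝ) + M + e = n := by exact_mod_cast ht
          have a3 : (0 : ℝ) ≤ (M : ℝ) + e := by positivity
          nlinarith [mul_nonneg h0 a3]) M
      linarith
  rw [← sum_mul, sum_add_distrib, ← sum_mul, ← mul_sum, dc_two r X Y t h] at a3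
  have a4 : (∑ T ∈ powersetCard t X, (((ld r Y T).card.choose h : ℕ) : ℝ)) * (h.factorial : ℕ) ≤
      (X.card.choose t : ℕ) * B ^ h := by
    rw [sum_mul, ← card_powersetCard, ← nsmul_eq_mul]
    exact sum_le_card_nsmul _ _ _ fun T hT => choose_fac_le
      (hB T (mem_powersetCard.1 hT).1 (mem_powersetCard.1 hT).2)
  have p1 : (0 : ℝ) < (X.card.choose t : ℕ) := by exact_mod_cast Nat.choose_pos (by omega)
  have p2 : (0 : ℝ) ≤ (X.card.choose (t + M) : ℕ) := Nat.cast_nonneg _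
  have p3 : (0 : ℝ) < (h.factorial : ℕ) := by exact_mod_cast h.factorial_pos
  have a5 : (μ / 2) ^ h ≤ (μ - h) ^ h := pow_le_pow_left₀ (by positivity) (by linarith) h
  have p5 : 0 ≤ τ ^ M := by positivity
  rw [div_le_iff₀ p3]
  refine le_of_mul_le_mul_right ?_ p1
  have b1 := mul_le_mul_of_nonneg_right ((mul_le_mul_of_nonneg_left a5 p2).trans a2) p1.le
  have b2 := mul_le_mul_of_nonneg_right a3 p3.le
  have b3 := mul_le_mul_of_nonneg_left a4 (mul_nonneg p5 p2)
  have b4 := mul_le_mul_of_nonneg_left c4 (mul_nonneg p2 p1.le)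
  linarith

end Pool.Agent.Lib.MP_1d35f7_co.Ex
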