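import Pool.Agent.Lib.MP_1d35f7_co.ChC

/-! The iterated exchange: the contradiction, and the choice of the parameters. -/

namespace Pool.Agent.Lib.MP_1d35f7_co.Ex

open Finset

variable {α β : Type} [DecidableEq α] [DecidableEq β] {r : α → β → Prop} [DecidableRel r]

theorem glob3 {X : Finset α} {Y : Finset β} {n L h z E e κ M N : ℕ} {ρ c q τ : ℝ}
    (hq : ∀ u ∈ Y, q ≤ (rd r X u).card) (hn : (n : ℝ) < q) (hx : (X.card : ℝ) ≤ ρ * (q - n))
    (hY : c * ρ ^ n ≤ Y.card) (hnx : n ≤ X.card) (hL : h + N * z = L)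
    (hκn : e + κ ≤ n) (hM : e + M ≤ n) (hE : 0 < E) (hz : 0 < z) (he : e ≤ E) (hκ : κ ≤ 2 * z * E)
    (hn' : 8 * (2 * z * (E * 64 ^ N)) * (E * 64 ^ N) * 16 ^ z ≤ n) (hρ : 1 ≤ ρ)
    (hρ' : ρ ≤ 32 / 15) (hc : 0 < c) (c1 : 32 * (L : ℝ) * (4 / 5) ^ κ ≤ c)
    (c2 : 64 * (z : ℝ) ≤ c * ρ ^ e) (c3 : 8 * (L : ℝ) ≤ c * ρ ^ e)
    (h0 : 0 ≤ τ) (h1 : τ ≤ 1)
    (hτ : ((z * (E * 64 ^ N) : ℕ) : ℝ) + e + M ≤ τ * ((X.card : ℝ) - n))
    (c4 : 2 * ((τ * ρ ^ h) ^ M * (2 * L) ^ h) ≤ c ^ h)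
    (c5 : 4 * ((c * ρ ^ e) ^ z *
      (2 * (((2 * n) ^ (2 * (2 * z * (E * 64 ^ N))) * L ^ z : ℕ) : ℝ))) ^ N < 2 ^ h) :
    ¬ Free r X Y n L := by
  intro hf
  have hρ0 : 0 < ρ := by linarith
  have hld := load_le hf hq hn hx
  obtain ⟨t, ht⟩ : ∃ t, t + M + e = n := ⟨n - e - M, by omega⟩
  obtain ⟨t', ht'⟩ : ∃ t, t + κ + e = n := ⟨n - e - κ, by omega⟩
  have hμ : 0 < c * ρ ^ e := by positivity
  have mean : c * ρ ^ e * (powersetCard (t + M) X).card ≤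
      ∑ T ∈ powersetCard (t + M) X, ((ld r Y T).card : ℝ) := by
    refine le_trans ?_ (mean_ge hρ0 hq hx (show t + M ≤ n by omega))
    rw [card_powersetCard]
    refine mul_le_mul_of_nonneg_right ?_ (Nat.cast_nonneg _)
    rw [inv_pow, ← div_eq_mul_inv, le_div_iff₀ (by positivity), mul_assoc, ← pow_add,
      show e + (t + M) = n by omega]
    exact hY
  have hh : (h : ℝ) ≤ L := by exact_mod_cast (by omega : h ≤ L)
  have a1 := start (r := r) (Y := Y) (h := h) (B := L * ρ ^ (e + M)) ht hnx mean hμ.le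
    (by linarith [Nat.cast_nonneg (α := ℝ) L]) (fun T hT hTc => hld _ T hT (by omega)) h0 h1 hτ (by
      have k := mul_le_mul_of_nonneg_right c4 (show 0 ≤ (ρ ^ e) ^ h / 2 ^ h by positivity)
      calc _ = 2 * ((τ * ρ ^ h) ^ M * (2 * L) ^ h) * ((ρ ^ e) ^ h / 2 ^ h) := by
            rw [pow_add, mul_pow, mul_pow, mul_pow, mul_pow, ← pow_mul ρ M h, ← pow_mul ρ h M,
              mul_comm h M]
            field_simp
        _ ≤ _ := k
        _ = _ := by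
            rw [div_pow, mul_pow]
            field_simp)
  have a2 := iter (B := L * ρ ^ (e + κ)) (μ := c * ρ ^ e) hf hL ht' hE hz he hκ hn'
    (fun T hT hTc => hld _ T hT (by omega)) (by
      have k1 : (3 / 8 * ρ) ^ κ ≤ (4 / 5) ^ κ := pow_le_pow_left₀ (by positivity) (by linarith) κ
      have k2 := mul_le_mul_of_nonneg_left k1 (show (0 : ℝ) ≤ 32 * L by positivity)
      have k3 := mul_le_mul_of_nonneg_right (k2.trans c1) (show 0 ≤ ρ ^ e by positivity)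
      rw [mul_pow] at k3
      rw [pow_add]
      linarith) c2 c3 N h le_rfl hL
  rw [show t' + κ = t + M by omega] at a2
  have p1 : 0 < ((X.card.choose (t + M) : ℕ) : ℝ) * (c * ρ ^ e / 4) ^ h / (h.factorial : ℕ) :=
    div_pos (mul_pos (by exact_mod_cast Nat.choose_pos (by omega)) (by positivity))
      (by exact_mod_cast h.factorial_pos)
  have e1 : ((X.card.choose (t + M) : ℕ) : ℝ) * (c * ρ ^ e / 2) ^ h / (h.factorial : ℕ) =
      ((X.card.choose (t + M) : ℕ) : ℝ) * (c * ρ ^ e / 4) ^ h / (h.factorial : ℕ) * 2 ^ h := by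
    rw [show c * ρ ^ e / 2 = c * ρ ^ e / 4 * 2 by ring, mul_pow]
    ring
  rw [e1] at a1
  rw [mul_pow, ← pow_mul, mul_comm z N] at c5
  have a3 := mul_lt_mul_of_pos_left c5 p1
  linarith

theorem pow5_le {γ : ℕ} (h : 16 ≤ γ) : 1024 * γ ^ 5 ≤ (2 ^ γ) ^ 2 := by
  induction γ, h using Nat.le_induction with
  | base => norm_num
  | succ γ hγ ih =>
    have k := Nat.pow_le_pow_left (show 4 * (γ + 1) ≤ 5 * γ by omega) 5
    rw [mul_pow, mul_pow] at k
    rw [pow_succ 2 γ, mul_pow]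
    omega

end Pool.Agent.Lib.MP_1d35f7_co.Ex
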