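import Pool.Agent.Lib.MP_1d35f7_co.ChD

/-! The iterated exchange: explicit parameters. -/

namespace Pool.Agent.Lib.MP_1d35f7_co.Ex

open Finset

variable {α β : Type} [DecidableEq α] [DecidableEq β] {r : α → β → Prop} [DecidableRel r]

theorem nums {γ n : ℕ} (hγ : 50 ≤ γ) (h1 : 2 ^ (24 * γ) ≤ n) (h2 : n ≤ 2 ^ (24 * γ + 24)) :
    ∃ h L, h + γ * (2 * γ) = L ∧ 15 * γ ^ 2 ≤ n ∧ 3 * γ ^ 2 + 3 * γ ^ 2 * h ≤ n ∧
      8 * (2 * (2 * γ) * (3 * γ ^ 2 * 64 ^ γ)) * (3 * γ ^ 2 * 64 ^ γ) * 16 ^ (2 * γ) ≤ n ∧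
      32 * L ≤ 2 ^ γ ^ 2 ∧ 128 * γ ≤ 2 ^ γ ^ 2 ∧ 2 * n ^ 2 ≤ 2 ^ γ ^ 2 ∧
      24 * (2 * γ * (3 * γ ^ 2 * 64 ^ γ) + 3 * γ ^ 2 + 3 * γ ^ 2 * h) ≤ 2 ^ γ ^ 2 ∧
      2 * ((2 * L) ^ h * (2 ^ (2 * γ ^ 2)) ^ h) ≤ 2 ^ (3 * γ ^ 2 * h) ∧
      4 * (2 ^ (12 * γ ^ 3) * (2 * ((2 * n) ^ (2 * (2 * (2 * γ) * (3 * γ ^ 2 * 64 ^ γ))) *
        L ^ (2 * γ)))) ^ γ < 2 ^ h ∧ 8 * L ≤ n ∧ 1 ≤ h ∧ 6561 ≤ n := by
  have f0 := pow5_le (γ := γ) (by omega)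
  have e6 : 64 ^ γ = (2 ^ γ) ^ 6 := by rw [← pow_mul, mul_comm, pow_mul]; norm_num
  have e8 : 16 ^ (2 * γ) = (2 ^ γ) ^ 8 := by
    rw [← pow_mul, show (16 : ℕ) = 2 ^ 4 by norm_num, ← pow_mul]
    congr 1
    ring
  have e24 : 2 ^ (24 * γ) = (2 ^ γ) ^ 24 := by rw [← pow_mul, mul_comm]
  have e8' : 2 ^ (8 * γ) = (2 ^ γ) ^ 8 := by rw [← pow_mul, mul_comm]
  have eS : (2 ^ γ) ^ 24 ≤ 2 ^ γ ^ 2 := by
    rw [← pow_mul]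
    exact Nat.pow_le_pow_right (by norm_num) (by nlinarith)
  have g2 : 50 * γ ≤ γ ^ 2 := by nlinarith
  have g3 : 50 * γ ^ 2 ≤ γ ^ 3 := by nlinarith
  have g4 : 50 * γ ^ 3 ≤ γ ^ 4 := by nlinarith
  have g5 : 50 * γ ^ 4 ≤ γ ^ 5 := by nlinarith
  have n2 : 2 * n ^ 2 ≤ 2 ^ γ ^ 2 :=
    calc 2 * n ^ 2 ≤ 2 * (2 ^ (24 * γ + 24)) ^ 2 := by gcongr
      _ = 2 ^ (48 * γ + 49) := by ring
      _ ≤ _ := Nat.pow_le_pow_right (by norm_num) (by omega)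
  have n3 : 2 * n ≤ 2 ^ (26 * γ) :=
    calc 2 * n ≤ 2 * 2 ^ (24 * γ + 24) := by gcongr
      _ = 2 ^ (24 * γ + 25) := by ring
      _ ≤ _ := Nat.pow_le_pow_right (by norm_num) (by omega)
  obtain ⟨Z, hZ⟩ : ∃ Z, Z = 2 * (2 * γ) * (3 * γ ^ 2 * 64 ^ γ) := ⟨_, rfl⟩
  obtain ⟨h, hh⟩ : ∃ h, h = γ * (60 * γ * Z) + 3 := ⟨_, rfl⟩
  obtain ⟨L, hL⟩ : ∃ L, L = h + γ * (2 * γ) := ⟨_, rfl⟩
  rw [e24] at h1
  generalize hP : 2 ^ γ = P at *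
  have P1 : 1 ≤ P := hP ▸ Nat.one_le_two_pow
  have P6 : 1 ≤ P ^ 6 := Nat.one_le_pow _ _ P1
  have pm : ∀ {a b : ℕ}, a ≤ b → P ^ a ≤ P ^ b := fun k => Nat.pow_le_pow_right P1 k
  have hZ' : Z = 12 * γ ^ 3 * P ^ 6 := by rw [hZ, e6]; ring
  have z1 : 12 * γ ^ 3 ≤ Z := hZ' ▸ Nat.le_mul_of_pos_right _ P6
  have l1 : L ≤ P ^ 8 := by
    have a1 : γ ^ 5 ≤ γ ^ 5 * P ^ 6 := Nat.le_mul_of_pos_right _ P6
    have a2 : L = 720 * (γ ^ 5 * P ^ 6) + 3 + 2 * γ ^ 2 := by rw [hL, hh, hZ']; ring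
    calc L ≤ 1024 * (γ ^ 5 * P ^ 6) := by omega
      _ = 1024 * γ ^ 5 * P ^ 6 := by ring
      _ ≤ P ^ 2 * P ^ 6 := Nat.mul_le_mul_right _ f0
      _ = _ := by ring
  have l2 : ∀ a : ℕ, a ≤ P ^ 2 → a * L ≤ P ^ 10 := fun a ha =>
    calc a * L ≤ P ^ 2 * P ^ 8 := Nat.mul_le_mul ha l1
      _ = _ := by ring
  have l3 : 72 * γ ^ 2 * h ≤ P ^ 10 :=
    (Nat.mul_le_mul_left _ (by omega)).trans (l2 (72 * γ ^ 2) (by omega))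
  have l4 : 3 * P ^ 10 ≤ P ^ 24 :=
    calc 3 * P ^ 10 ≤ P ^ 2 * P ^ 10 := Nat.mul_le_mul_right _ (by omega)
      _ = P ^ 12 := by ring
      _ ≤ _ := pm (by norm_num)
  have l5 := pm (show 2 ≤ 10 by norm_num)
  have l6 := l2 32 (by omega)
  refine ⟨h, L, hL.symm, by omega, ?_, ?_, by omega, by omega, n2, ?_, ?_, ?_, by omega, by omega,
    by omega⟩
  · have : 72 * γ ^ 2 * h = 24 * (3 * γ ^ 2 * h) := by ring
    omega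
  · rw [e6, e8]
    calc _ = 288 * γ ^ 5 * P ^ 20 := by ring
      _ ≤ P ^ 2 * P ^ 20 := Nat.mul_le_mul_right _ (by omega)
      _ = P ^ 22 := by ring
      _ ≤ _ := (pm (by norm_num)).trans h1
  · have a1 : 144 * γ ^ 3 * P ^ 6 ≤ P ^ 10 :=
      calc 144 * γ ^ 3 * P ^ 6 ≤ P ^ 2 * P ^ 6 := Nat.mul_le_mul_right _ (by omega)
        _ = P ^ 8 := by ring
        _ ≤ _ := pm (by norm_num)
    rw [e6]
    calc _ = 144 * γ ^ 3 * P ^ 6 + 72 * γ ^ 2 + 72 * γ ^ 2 * h := by ring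
      _ ≤ _ := by omega
  · have a1 : 2 * L ≤ 2 ^ (8 * γ + 1) := by
      rw [pow_succ, e8']
      omega
    have a2 : (8 * γ + 2) * h ≤ γ ^ 2 * h := Nat.mul_le_mul_right _ (by omega)
    calc _ ≤ 2 * ((2 ^ (8 * γ + 1)) ^ h * (2 ^ (2 * γ ^ 2)) ^ h) := by gcongr
      _ = 2 ^ (1 + (8 * γ + 1) * h + 2 * γ ^ 2 * h) := by
          rw [← pow_mul, ← pow_mul, pow_add 2 (1 + _), pow_add 2 1, pow_one, mul_assoc 2 (2 ^ _)]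
      _ ≤ _ := Nat.pow_le_pow_right (by norm_num) (by
          have b1 : (8 * γ + 2) * h = (8 * γ + 1) * h + h := by ring
          have b2 : 3 * γ ^ 2 * h = γ ^ 2 * h + 2 * γ ^ 2 * h := by ring
          omega)
  · rw [← hZ]
    have a1 : L ≤ 2 ^ (8 * γ) := e8' ▸ l1
    have a2 : 2 ^ (12 * γ ^ 3) * (2 * ((2 * n) ^ (2 * Z) * L ^ (2 * γ))) ≤ 2 ^ (60 * γ * Z) :=
      calc _ ≤ 2 ^ (12 * γ ^ 3) * (2 * ((2 ^ (26 * γ)) ^ (2 * Z) * (2 ^ (8 * γ)) ^ (2 * γ))) := by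
            gcongr
        _ = 2 ^ (12 * γ ^ 3 + (1 + (26 * γ * (2 * Z) + 8 * γ * (2 * γ)))) := by
            rw [← pow_mul, ← pow_mul, pow_add, pow_add, pow_add, pow_one]
        _ ≤ _ := Nat.pow_le_pow_right (by norm_num) (by
            have b1 : 26 * γ * (2 * Z) = 52 * (γ * Z) := by ring
            have b2 : 60 * γ * Z = 60 * (γ * Z) := by ring
            have b3 : 8 * γ * (2 * γ) = 16 * γ ^ 2 := by ring
            have b4 : Z ≤ γ * Z := Nat.le_mul_of_pos_left _ (by omega)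
            omega)
    calc _ ≤ 4 * (2 ^ (60 * γ * Z)) ^ γ := by gcongr
      _ = 2 ^ (γ * (60 * γ * Z) + 2) := by rw [← pow_mul, pow_add, mul_comm γ, mul_comm 4]; norm_num
      _ < _ := Nat.pow_lt_pow_right (by norm_num) (by omega)

theorem numx {n x h S G : ℕ} (hS : 0 < S) (f6 : 2 * n ^ 2 ≤ S) (f7 : 24 * G ≤ S) (f11 : 1 ≤ h)
    (hx : 2 ^ h * (S * S) ≤ 2 * S * x) : 2 * n ^ 2 ≤ x ∧ n ≤ x ∧ 6 * G * 2 ^ h + n ≤ x := by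
  have x0 : 2 ^ h * S ≤ 2 * x := Nat.le_of_mul_le_mul_right (by linarith) hS
  have k0 : 2 ^ 1 * S ≤ 2 ^ h * S :=
    Nat.mul_le_mul_right _ (Nat.pow_le_pow_right (by norm_num) f11)
  have x2 : n ≤ n ^ 2 := Nat.le_self_pow (by norm_num) n
  have k := Nat.mul_le_mul_left (2 ^ h) f7
  have e : 2 ^ h * (24 * G) = 4 * (6 * G * 2 ^ h) := by ring
  omega

theorem reA {n x : ℝ} (hn : 6561 ≤ n) (hx : 2 * n ^ 2 ≤ x) :
    n < (1 / 2 - 2 / n) * x ∧ x ≤ 2 * (1 + 8 / n) * ((1 / 2 - 2 / n) * x - n) ∧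
      1 ≤ 2 * (1 + 8 / n) ∧ 2 ≤ 2 * (1 + 8 / n) ∧ 2 * (1 + 8 / n) ≤ 32 / 15 := by
  have hn0 : 0 < n := by linarith
  have hε0 : 0 ≤ 8 / n := by positivity
  have hε1 : 8 / n ≤ 1 / 15 := by rw [div_le_iff₀ hn0]; linarith
  refine ⟨?_, ?_, by linarith, by linarith, by linarith⟩
  · have k : 1 / 4 ≤ 1 / 2 - 2 / n := by
      have : 2 / n = 8 / n / 4 := by ring
      linarith
    have := mul_le_mul_of_nonneg_right k (show 0 ≤ x by nlinarith)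
    nlinarith
  · have e : 2 * (1 + 8 / n) * ((1 / 2 - 2 / n) * x - n) =
        x + ((4 * n - 32) * x - 2 * n ^ 3 - 16 * n ^ 2) / n ^ 2 := by
      field_simp
      ring
    rw [e, le_add_iff_nonneg_right]
    refine div_nonneg ?_ (by positivity)
    have := mul_le_mul_of_nonneg_left hx (show 0 ≤ 4 * n - 32 by linarith)
    nlinarith [mul_nonneg (sq_nonneg n) (show 0 ≤ 6 * n - 80 by linarith)]

theorem reB {n y g : ℕ} (hn : 6561 ≤ n) (hy : 2 ^ n * n ≤ 2 ^ g * y) :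
    (1 / 2 : ℝ) ^ g * (2 * (1 + 8 / (n : ℝ))) ^ n ≤ y := by
  have hn : (6561 : ℝ) ≤ n := by exact_mod_cast hn
  have hn0 : (0 : ℝ) < n := by linarith
  have k := pw_le (x := 8 / n) (k := n) (m := 8) (by positivity)
    (by rw [div_mul_cancel₀ _ hn0.ne']; norm_num)
  have k1 : (2 : ℝ) ^ n * n ≤ 2 ^ g * y := by exact_mod_cast hy
  rw [mul_pow, one_div, inv_pow, inv_mul_le_iff₀ (by positivity)]
  refine le_trans (mul_le_mul_of_nonneg_left (k.trans ?_) (by positivity)) k1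
  linarith

theorem reC {L a : ℕ} (h : 32 * L ≤ 2 ^ a) :
    32 * (L : ℝ) * (4 / 5) ^ (4 * (3 * a)) ≤ (1 / 2) ^ (2 * a) := by
  have h : 32 * (L : ℝ) ≤ 2 ^ a := by exact_mod_cast h
  have k : ((4 : ℝ) / 5) ^ (4 * (3 * a)) ≤ (1 / 2) ^ (3 * a) := by
    rw [pow_mul]
    exact pow_le_pow_left₀ (by positivity) (by norm_num) _
  refine (mul_le_mul h k (by positivity) (by positivity)).trans (le_of_eq ?_)
  rw [show 3 * a = a + 2 * a by ring, pow_add, ← mul_assoc, ← mul_pow]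
  norm_num

theorem reD {a b k : ℕ} {ρ : ℝ} (hρ : 2 ≤ ρ) (h : b * k ≤ 2 ^ a) :
    (b : ℝ) * k ≤ (1 / 2) ^ (2 * a) * ρ ^ (3 * a) := by
  have h : (b : ℝ) * k ≤ 2 ^ a := by exact_mod_cast h
  have : (2 : ℝ) ^ (3 * a) ≤ ρ ^ (3 * a) := pow_le_pow_left₀ (by norm_num) hρ _
  refine h.trans (le_trans (le_of_eq ?_) (mul_le_mul_of_nonneg_left this (by positivity)))
  rw [show 3 * a = 2 * a + a by ring, pow_add, ← mul_assoc, ← mul_pow]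
  norm_num

theorem reE {n x h G e M : ℕ} (hn : 0 < n) (hh : 8 * h ≤ n)
    (hx : 6 * (G + e + M) * 2 ^ h + n ≤ x) :
    (G : ℝ) + e + M ≤ 1 / (2 * (2 * (1 + 8 / (n : ℝ))) ^ h) * ((x : ℝ) - n) := by
  have hn0 : (0 : ℝ) < n := by exact_mod_cast hn
  have k1 : (8 : ℝ) * h ≤ n := by exact_mod_cast hh
  have k2 := pw_le (x := 8 / n) (k := h) (m := 1) (by positivity) (by
    rw [div_mul_eq_mul_div, div_le_iff₀ hn0]
    simpa using k1)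
  have k3 : 6 * ((G : ℝ) + e + M) * 2 ^ h + n ≤ x := by exact_mod_cast hx
  rw [one_div_mul_eq_div, le_div_iff₀ (by positivity), mul_pow]
  have k4 := mul_le_mul_of_nonneg_left k2 (show 0 ≤ ((G : ℝ) + e + M) * 2 ^ h by positivity)
  linarith

theorem reF {L h g M : ℕ} {ρ : ℝ} (hρ : 1 ≤ ρ) (f : 2 * ((2 * L) ^ h * (2 ^ g) ^ h) ≤ 2 ^ M) :
    0 ≤ 1 / (2 * ρ ^ h) ∧ 1 / (2 * ρ ^ h) ≤ 1 ∧
      2 * ((1 / (2 * ρ ^ h) * ρ ^ h) ^ M * (2 * (L : ℝ)) ^ h) ≤ ((1 / 2) ^ g) ^ h := by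
  have hρ0 : 0 < ρ := by linarith
  refine ⟨by positivity, ?_, ?_⟩
  · rw [div_le_one (by positivity)]
    linarith [one_le_pow₀ (n := h) hρ]
  have e1 : 1 / (2 * ρ ^ h) * ρ ^ h = 1 / 2 := by field_simp
  have a1 : 2 * ((2 * (L : ℝ)) ^ h * (2 ^ g) ^ h) ≤ 2 ^ M := by exact_mod_cast f
  rw [e1, one_div_pow, one_div_pow, one_div_pow, le_div_iff₀ (by positivity)]
  refine le_of_mul_le_mul_right ?_ (show (0 : ℝ) < 2 ^ M by positivity)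
  rw [one_mul]
  refine le_trans (le_of_eq ?_) a1
  field_simp

theorem reG {g e z N h A T : ℕ} {ρ : ℝ} (h0 : 1 ≤ ρ) (h1 : ρ ≤ 32 / 15) (hT : 2 * e * z = T)
    (f : 4 * (2 ^ T * (2 * A)) ^ N < 2 ^ h) :
    4 * (((1 / 2) ^ g * ρ ^ e) ^ z * (2 * (A : ℝ))) ^ N < 2 ^ h := by
  have b1 : (1 / 2) ^ g * ρ ^ e ≤ 1 * (2 ^ 2) ^ e :=
    mul_le_mul (pow_le_one₀ (by norm_num) (by norm_num))
      (pow_le_pow_left₀ (by linarith) (by linarith) _) (by positivity) (by norm_num)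
  have b2 := pow_le_pow_left₀ (by positivity) b1 z
  rw [one_mul, ← pow_mul, ← pow_mul, ← mul_assoc, hT] at b2
  have a2 : 4 * ((2 : ℝ) ^ T * (2 * A)) ^ N < 2 ^ h := by exact_mod_cast f
  refine lt_of_le_of_lt ?_ a2
  gcongr

/-- The recursion with explicit parameters. -/
theorem glob4 {γ n : ℕ} (hγ : 50 ≤ γ) (h1 : 2 ^ (24 * γ) ≤ n) (h2 : n ≤ 2 ^ (24 * γ + 24)) :
    ∃ L, 1 ≤ L ∧ 2 * L ≤ n ∧ ∀ (X : Finset α) (Y : Finset β),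
      (∀ u ∈ Y, (1 / 2 - 2 / (n : ℝ)) * X.card ≤ (rd r X u).card) →
      2 ^ L ≤ 2 * 2 ^ γ ^ 2 * X.card → 2 ^ n ≤ 2 ^ γ ^ 2 * (2 * n * Y.card) →
      ¬ Free r X Y n L := by
  obtain ⟨h, L, hL, f1, f2, f3, f4, f5, f6, f7, f8, f9, f10, f11, f12⟩ := nums hγ h1 h2
  have hhL : h ≤ L := hL ▸ Nat.le_add_right _ _
  have g0 : 0 < γ := lt_of_lt_of_le (by norm_num) hγ
  refine ⟨L, f11.trans hhL, (Nat.mul_le_mul_right L (by norm_num)).trans f10,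
    fun X Y hq hx hY => ?_⟩
  have e2 : 2 ^ (2 * γ ^ 2) = 2 ^ γ ^ 2 * 2 ^ γ ^ 2 := by rw [two_mul, pow_add]
  obtain ⟨x1, x2, x3⟩ := numx (x := X.card) (by positivity) f6 f7 f11 (by
    rw [← e2, ← pow_add, show 2 * γ ^ 2 = γ * (2 * γ) by ring, hL]
    exact hx)
  have y1 : 2 ^ n * n ≤ 2 ^ (2 * γ ^ 2) * Y.card :=
    calc 2 ^ n * n ≤ 2 ^ γ ^ 2 * (2 * n * Y.card) * n := Nat.mul_le_mul_right _ hY
      _ = 2 ^ γ ^ 2 * (2 * n ^ 2) * Y.card := by ring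
      _ ≤ 2 ^ γ ^ 2 * 2 ^ γ ^ 2 * Y.card := Nat.mul_le_mul_right _ (Nat.mul_le_mul_left _ f6)
      _ = _ := by rw [e2]
  obtain ⟨r1, r2, r3, r4, r5⟩ := reA (n := n) (x := X.card) (by exact_mod_cast f12)
    (by exact_mod_cast x1)
  obtain ⟨s1, s2, s3⟩ := reF r3 f8
  exact glob3 (h := h) (z := 2 * γ) (E := 3 * γ ^ 2) (e := 3 * γ ^ 2) (κ := 4 * (3 * γ ^ 2))
    (M := 3 * γ ^ 2 * h) (N := γ) (c := (1 / 2) ^ (2 * γ ^ 2)) hq r1 r2 (reB f12 y1) x2 hL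
    (le_trans (le_of_eq (by ring)) f1) f2 (by positivity) (by positivity) le_rfl
    (Nat.mul_le_mul_right _ (Nat.mul_le_mul_left 2 (Nat.mul_le_mul_left 2 g0))) f3 r3 r5
    (by positivity) (reC f4) (reD (b := 64) r4 (le_trans (le_of_eq (by ring)) f5))
    (reD (b := 8) r4 ((Nat.mul_le_mul_right L (by norm_num)).trans f4)) s1 s2
    (reE (lt_of_lt_of_le (by norm_num) f12) ((Nat.mul_le_mul_left 8 hhL).trans f10) x3) s3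
    (reG r3 r5 (by ring) f9)

end Pool.Agent.Lib.MP_1d35f7_co.Ex
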