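import Pool.Agent.Lib.MP_1d35f7_co.ChE

/-! The iterated exchange: the theorem for bipartite graphs of density one half. -/

namespace Pool.Agent.Lib.MP_1d35f7_co.Ex

open Finset

variable {α β : Type} [DecidableEq α] [DecidableEq β] {r : α → β → Prop} [DecidableRel r]

omit [DecidableEq α] in
/-- The first `n - L` columns are chosen by averaging. -/
theorem reduce (A : Finset α) (B : Finset β) {n L : ℕ} (hL1 : 1 ≤ L) (hL2 : 2 * L ≤ n)
    (h16 : 16 ≤ n) (b1 : 4 * n ^ 2 ≤ B.card) (hA : 0 < A.card)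
    (hd : A.card * B.card ≤ 2 * ∑ i ∈ A, (B.filter fun u => r i u).card)
    (hfin : ∀ (X : Finset α) (Y : Finset β),
      (∀ u ∈ Y, (1 / 2 - 2 / (n : ℝ)) * X.card ≤ (rd r X u).card) →
      A.card * 2 ^ L ≤ 2 * 2 ^ n * X.card → B.card ≤ 2 * n * Y.card → ¬ Free r X Y n L) :
    ∃ S ⊆ A, ∃ T ⊆ B, S.card = n ∧ T.card = n ∧ ∀ i ∈ S, ∀ u ∈ T, r i u := by
  obtain ⟨j, hj⟩ : ∃ j, j + 1 + L = n := ⟨n - L - 1, by omega⟩
  have b2 : n ≤ n ^ 2 := Nat.le_self_pow (by norm_num) n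
  obtain ⟨d₀, d1, d2⟩ : ∃ d₀, 2 * d₀ ≤ B.card ∧ B.card ≤ 2 * d₀ + 1 := ⟨B.card / 2, by omega⟩
  obtain ⟨U, hU, X, hX, hUc, hc, hdeg, hx⟩ := stage0 (r := r) A B (j := j) (d₀ := d₀) (by omega)
    (by nlinarith [Nat.mul_le_mul_left A.card d1])
  have x1 : A.card ≤ X.card * 2 ^ (j + 1 + 1) := by
    have k := half_ratio (b := B.card) (d₀ := d₀) (j := j + 1) (by omega)
      (le_trans (Nat.mul_le_mul_left 4 (Nat.pow_le_pow_left (by omega) 2)) b1) d2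
    have hp : (0 : ℝ) < (B.card.choose (j + 1) : ℕ) := by
      exact_mod_cast Nat.choose_pos (by omega)
    have k2 : (A.card : ℝ) ≤ X.card * 2 ^ (j + 1 + 1) := by
      refine le_of_mul_le_mul_right ?_ hp
      have k3 := mul_le_mul_of_nonneg_left k (Nat.cast_nonneg (α := ℝ) A.card)
      have k4 := mul_le_mul_of_nonneg_left hx (show (0 : ℝ) ≤ 2 ^ (j + 1 + 1) by positivity)
      linarith
    exact_mod_cast k2
  have x2 : A.card * 2 ^ L ≤ 2 * 2 ^ n * X.card :=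
    calc A.card * 2 ^ L ≤ X.card * 2 ^ (j + 1 + 1) * 2 ^ L := Nat.mul_le_mul_right _ x1
      _ = _ := by rw [← hj]; ring
  have x3 : 0 < X.card := by
    refine Nat.pos_of_ne_zero fun e => ?_
    rw [e, zero_mul] at x1
    omega
  have hn : (16 : ℝ) ≤ n := by exact_mod_cast h16
  have hn0 : (0 : ℝ) < n := by linarith
  have hd1 : 2 * (d₀ : ℝ) ≤ B.card := by exact_mod_cast d1
  have hd2 : (B.card : ℝ) ≤ 2 * d₀ + 1 := by exact_mod_cast d2
  have hjn : (n : ℝ) ≤ 2 * (j + 1) := by exact_mod_cast (by omega : n ≤ 2 * (j + 1))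
  have hB0 : (0 : ℝ) ≤ B.card := Nat.cast_nonneg _
  obtain ⟨Y, hY, hq, hy⟩ := stage1 (r := r) (B := B) (U := U) x3 (d := d₀ - B.card / n)
    (q := 1 / 2 - 2 / n) (by
      rw [sub_nonneg, div_le_iff₀ hn0]
      linarith) fun i hi => by
      have k : (d₀ : ℝ) * j ≤ (B.filter fun u => r i u).card * (j + 1) := by
        exact_mod_cast hdeg i hi
      have k2 : (d₀ : ℝ) ≤ B.card / n * (j + 1) := by
        rw [div_mul_eq_mul_div, le_div_iff₀ hn0]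
        nlinarith [mul_le_mul hd1 hjn hn0.le hB0]
      refine le_of_mul_le_mul_right ?_ (show (0 : ℝ) < j + 1 by positivity)
      linarith
  have y1 : B.card ≤ 2 * n * Y.card := by
    have k1 : (U.card : ℝ) + 1 ≤ n := by exact_mod_cast (by omega : U.card + 1 ≤ n)
    have k2 : 4 * (n : ℝ) ^ 2 ≤ B.card := by exact_mod_cast b1
    have k3 : (B.card : ℝ) / n ≤ Y.card + n := by
      have e : (B.card : ℝ) * (1 / 2 - 2 / n) = B.card / 2 - 2 * (B.card / n) := by ring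
      rw [e] at hy
      linarith
    rw [div_le_iff₀ hn0] at k3
    have k4 : (B.card : ℝ) ≤ 2 * n * Y.card := by nlinarith
    exact_mod_cast k4
  have key := hfin X Y hq x2 y1
  obtain ⟨S, hS, V, hV, c1, c2, hr⟩ : ∃ S ⊆ X, ∃ V ⊆ Y, S.card = n ∧ V.card = L ∧
      ∀ i ∈ S, ∀ u ∈ V, r i u := by
    by_contra k
    exact key fun S hS V hV c1 c2 hr => k ⟨S, hS, V, hV, c1, c2, hr⟩
  have hV' : ∀ u ∈ V, u ∈ B ∧ u ∉ U := fun u hu => mem_sdiff.1 (hY (hV hu))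
  refine ⟨S, hS.trans hX, U ∪ V, union_subset hU fun u hu => (hV' u hu).1, c1, ?_,
    fun i hi u hu => ?_⟩
  · rw [card_union_of_disjoint (disjoint_right.2 fun u hu => (hV' u hu).2)]
    omega
  · rcases mem_union.1 hu with hu | hu
    exacts [hc i (hS hi) u hu, hr i hi u hu]

theorem numb {γ n b : ℕ} (hγ : 50 ≤ γ) (h1 : 2 ^ (24 * γ) ≤ n) (h2 : n ≤ 2 ^ (24 * γ + 24))
    (hb : 2 ^ n ≤ 2 ^ γ ^ 2 * b) : 16 ≤ n ∧ 4 * n ^ 2 ≤ b := by
  have f0 := (pow5_le (γ := γ) (by omega)).trans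
    ((show (2 ^ γ) ^ 2 ≤ 2 ^ (24 * γ) by
      rw [← pow_mul]
      exact Nat.pow_le_pow_right (by norm_num) (by omega)).trans h1)
  have g2 : 50 * γ ≤ γ ^ 2 := by nlinarith
  have g5 : γ ^ 2 ≤ γ ^ 5 := Nat.pow_le_pow_right (by omega) (by norm_num)
  have k : γ ^ 2 + (48 * γ + 50) ≤ n := by
    clear hb h1 h2
    omega
  refine ⟨by clear hb h1 h2; omega, Nat.le_of_mul_le_mul_left ?_ (show 0 < 2 ^ γ ^ 2 by positivity)⟩
  calc 2 ^ γ ^ 2 * (4 * n ^ 2) ≤ 2 ^ γ ^ 2 * (4 * (2 ^ (24 * γ + 24)) ^ 2) := by gcongr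
    _ = 2 ^ (γ ^ 2 + (48 * γ + 50)) := by ring
    _ ≤ 2 ^ n := Nat.pow_le_pow_right (by norm_num) k
    _ ≤ _ := hb

/-- A bipartite graph of density at least one half with both sides of size at least
`2 ^ (n - γ ^ 2)` contains `K_{n,n}`. -/
theorem main2 (A : Finset α) (B : Finset β) {n γ : ℕ} (hγ : 50 ≤ γ) (h1 : 2 ^ (24 * γ) ≤ n)
    (ha : 2 ^ n ≤ 2 ^ γ ^ 2 * A.card) (hb : 2 ^ n ≤ 2 ^ γ ^ 2 * B.card)
    (hd : A.card * B.card ≤ 2 * ∑ i ∈ A, (B.filter fun u => r i u).card) :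
    ∃ S ⊆ A, ∃ T ⊆ B, S.card = n ∧ T.card = n ∧ ∀ i ∈ S, ∀ u ∈ T, r i u := by
  have n0 : n ≠ 0 := (lt_of_lt_of_le (by positivity) h1).ne'
  obtain ⟨δ, g1, g2, g3⟩ : ∃ δ, γ ≤ δ ∧ 2 ^ (24 * δ) ≤ n ∧ n ≤ 2 ^ (24 * δ + 24) := by
    have k := Nat.le_log_of_pow_le (show 1 < 2 by norm_num) h1
    refine ⟨Nat.log 2 n / 24, by clear ha hb hd h1; omega,
      (Nat.pow_le_pow_right (by norm_num) (Nat.mul_div_le _ 24)).trans (Nat.pow_log_le_self 2 n0),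
      (Nat.lt_pow_succ_log_self (show 1 < 2 by norm_num) n).le.trans
        (Nat.pow_le_pow_right (by norm_num) (by clear ha hb hd h1; omega))⟩
  have m : 2 ^ γ ^ 2 ≤ 2 ^ δ ^ 2 := Nat.pow_le_pow_right (by norm_num) (Nat.pow_le_pow_left g1 2)
  have ha' := ha.trans (Nat.mul_le_mul_right _ m)
  have hb' := hb.trans (Nat.mul_le_mul_right _ m)
  obtain ⟨L, l1, l2, key⟩ := glob4 (r := r) (hγ.trans g1) g2 g3
  obtain ⟨c1, c2⟩ := numb (hγ.trans g1) g2 g3 hb'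
  refine reduce A B l1 l2 c1 c2 (Nat.pos_of_ne_zero fun e => ?_) hd fun X Y hq hx hy =>
    key X Y hq ?_ (hb'.trans (Nat.mul_le_mul_left _ hy))
  · rw [e, mul_zero] at ha
    exact absurd ha (not_le.2 (by positivity))
  · refine Nat.le_of_mul_le_mul_left ?_ (show 0 < 2 ^ n by positivity)
    calc 2 ^ n * 2 ^ L ≤ 2 ^ δ ^ 2 * A.card * 2 ^ L := Nat.mul_le_mul_right _ ha'
      _ = 2 ^ δ ^ 2 * (A.card * 2 ^ L) := mul_assoc _ _ _
      _ ≤ 2 ^ δ ^ 2 * (2 * 2 ^ n * X.card) := Nat.mul_le_mul_left _ hx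
      _ = _ := by ring

end Pool.Agent.Lib.MP_1d35f7_co.Ex
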