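import Mathlib

set_option autoImplicit false

namespace Pool.Agent.Lib.MP_1d35f7_co

/-- `K_{a,b} → K_{n,n}`: every 2-colouring of the edges of `K_{a,b}` contains a monochromatic
`K_{n,n}` (the wording of the frozen statements). -/
def Arrows (a b n : ℕ) : Prop :=
  ∀ c : Fin a → Fin b → Bool, ∃ S : Finset (Fin a), ∃ T : Finset (Fin b), ∃ col : Bool,
    S.card = n ∧ T.card = n ∧ ∀ i ∈ S, ∀ j ∈ T, c i j = col

end Pool.Agent.Lib.MP_1d35f7_co
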