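import Mathlib

/-! Inequalities between binomial coefficients, over the reals. -/

namespace Pool.Agent.Lib.MP_1d35f7_co.Ex

theorem ch_succ (m s : ℕ) :
    ((m.choose (s + 1) : ℕ) : ℝ) * ((s : ℝ) + 1) = (m.choose s : ℕ) * ((m : ℝ) - s) := by
  rcases le_or_gt s m with h | h
  · have h1 := Nat.choose_succ_right_eq m s
    have h2 : ((m.choose (s + 1) * (s + 1) : ℕ) : ℝ) = ((m.choose s * (m - s) : ℕ) : ℝ) := by
      rw [h1]
    push_cast [Nat.cast_sub h] at h2
    exact h2
  · rw [Nat.choose_eq_zero_of_lt h, Nat.choose_eq_zero_of_lt (by omega)]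
    simp

/-- The ratio of `C(d,s)` to `C(D,s)` drops at least by the factor `τ` in each step. -/
theorem ratio_le {d D t : ℕ} {τ : ℝ} (hd : d ≤ D) (h0 : 0 ≤ τ) (h1 : τ ≤ 1)
    (h : (d : ℝ) - t ≤ τ * ((D : ℝ) - t)) (k : ℕ) :
    ((d.choose (t + k) : ℕ) : ℝ) * (D.choose t : ℕ) ≤
      τ ^ k * ((d.choose t : ℕ) * (D.choose (t + k) : ℕ)) := by
  induction k with
  | zero => simp
  | succ k ih =>
    have hs : (0 : ℝ) < ((t + k : ℕ) : ℝ) + 1 := by positivity
    have e1 := ch_succ d (t + k)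
    have e2 := ch_succ D (t + k)
    rcases lt_or_ge d (t + k + 1) with hlt | hge
    · rw [← add_assoc, Nat.choose_eq_zero_of_lt hlt]
      simp only [Nat.cast_zero, zero_mul]
      positivity
    · have hdD : (d : ℝ) ≤ D := by exact_mod_cast hd
      have hge' : ((t + k : ℕ) : ℝ) + 1 ≤ d := by exact_mod_cast hge
      have hk : (0 : ℝ) ≤ k := Nat.cast_nonneg k
      have hstep : (d : ℝ) - (t + k : ℕ) ≤ τ * ((D : ℝ) - (t + k : ℕ)) := by
        push_cast
        nlinarith
      have hpos : (0 : ℝ) ≤ (d : ℝ) - (t + k : ℕ) := by linarith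
      refine le_of_mul_le_mul_right ?_ hs
      rw [← add_assoc]
      calc ((d.choose (t + k + 1) : ℕ) : ℝ) * (D.choose t : ℕ) * (((t + k : ℕ) : ℝ) + 1)
          = (((d.choose (t + k) : ℕ) : ℝ) * (D.choose t : ℕ)) * ((d : ℝ) - (t + k : ℕ)) := by
            linear_combination ((D.choose t : ℕ) : ℝ) * e1
        _ ≤ (τ ^ k * ((d.choose t : ℕ) * (D.choose (t + k) : ℕ))) *
              (τ * ((D : ℝ) - (t + k : ℕ))) :=
            mul_le_mul ih hstep hpos (by positivity)
        _ = _ := by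
            linear_combination (-(τ ^ (k + 1) * ((d.choose t : ℕ) : ℝ))) * e2

/-- The ratio of `C(d,s)` to `C(D,s)` drops at most by the factor `σ` in each step. -/
theorem ratio_ge {d D t K : ℕ} {σ : ℝ} (h0 : 0 ≤ σ)
    (h : σ * ((D : ℝ) - t) ≤ (d : ℝ) - t - K) (k : ℕ) (hk : k ≤ K) :
    σ ^ k * ((d.choose t : ℕ) * (D.choose (t + k) : ℕ)) ≤
      ((d.choose (t + k) : ℕ) : ℝ) * (D.choose t : ℕ) := by
  induction k with
  | zero => simp
  | succ k ih =>
    have ih := ih (by omega)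
    have hs : (0 : ℝ) < ((t + k : ℕ) : ℝ) + 1 := by positivity
    have e1 := ch_succ d (t + k)
    have e2 := ch_succ D (t + k)
    rcases lt_or_ge D (t + k + 1) with hlt | hge
    · rw [← add_assoc, Nat.choose_eq_zero_of_lt hlt]
      simp only [Nat.cast_zero, mul_zero]
      positivity
    · have hge' : ((t + k : ℕ) : ℝ) + 1 ≤ D := by exact_mod_cast hge
      have hk0 : (0 : ℝ) ≤ k := Nat.cast_nonneg k
      have hkK : (k : ℝ) + 1 ≤ K := by exact_mod_cast hk
      have hstep : σ * ((D : ℝ) - (t + k : ℕ)) ≤ (d : ℝ) - (t + k : ℕ) := by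
        push_cast
        nlinarith
      have hpos : (0 : ℝ) ≤ σ * ((D : ℝ) - (t + k : ℕ)) := mul_nonneg h0 (by linarith)
      refine le_of_mul_le_mul_right ?_ hs
      rw [← add_assoc]
      calc σ ^ (k + 1) * (((d.choose t : ℕ) : ℝ) * (D.choose (t + k + 1) : ℕ)) *
            (((t + k : ℕ) : ℝ) + 1)
          = (σ ^ k * ((d.choose t : ℕ) * (D.choose (t + k) : ℕ))) *
              (σ * ((D : ℝ) - (t + k : ℕ))) := by
            linear_combination (σ ^ (k + 1) * ((d.choose t : ℕ) : ℝ)) * e2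
        _ ≤ (((d.choose (t + k) : ℕ) : ℝ) * (D.choose t : ℕ)) * ((d : ℝ) - (t + k : ℕ)) :=
            mul_le_mul ih hstep hpos (by positivity)
        _ = _ := by
            linear_combination (-((D.choose t : ℕ) : ℝ)) * e1

theorem grow_le {D s : ℕ} {A B : ℝ} (hA0 : 0 ≤ A) (hB0 : 0 ≤ B) (hA : A ≤ (s : ℝ) + 1)
    (hB : (D : ℝ) - s ≤ B) (k : ℕ) :
    ((D.choose (s + k) : ℕ) : ℝ) * A ^ k ≤ (D.choose s : ℕ) * B ^ k := by
  induction k with
  | zero => simp
  | succ k ih =>
    have e := ch_succ D (s + k)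
    have hk0 : (0 : ℝ) ≤ k := Nat.cast_nonneg k
    have h1 : ((D.choose (s + k + 1) : ℕ) : ℝ) * A ≤ (D.choose (s + k) : ℕ) * B := by
      calc ((D.choose (s + k + 1) : ℕ) : ℝ) * A
          ≤ ((D.choose (s + k + 1) : ℕ) : ℝ) * (((s + k : ℕ) : ℝ) + 1) :=
            mul_le_mul_of_nonneg_left (by push_cast; linarith) (by positivity)
        _ = (D.choose (s + k) : ℕ) * ((D : ℝ) - (s + k : ℕ)) := e
        _ ≤ _ := mul_le_mul_of_nonneg_left (by push_cast; linarith) (by positivity)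
    rw [← add_assoc]
    calc ((D.choose (s + k + 1) : ℕ) : ℝ) * A ^ (k + 1)
        = (((D.choose (s + k + 1) : ℕ) : ℝ) * A) * A ^ k := by ring
      _ ≤ ((D.choose (s + k) : ℕ) * B) * A ^ k := mul_le_mul_of_nonneg_right h1 (by positivity)
      _ = (((D.choose (s + k) : ℕ) : ℝ) * A ^ k) * B := by ring
      _ ≤ ((D.choose s : ℕ) * B ^ k) * B := mul_le_mul_of_nonneg_right ih hB0
      _ = _ := by ring

theorem grow_ge {D K : ℕ} {A : ℝ} (hA0 : 0 ≤ A) (hA : A ≤ (D : ℝ) - K) (k : ℕ) (hk : k ≤ K) :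
    A ^ k ≤ ((D.choose k : ℕ) : ℝ) * (K : ℝ) ^ k := by
  induction k with
  | zero => simp
  | succ k ih =>
    have ih := ih (by omega)
    have e := ch_succ D k
    have hkK : (k : ℝ) + 1 ≤ K := by exact_mod_cast hk
    have h1 : ((D.choose k : ℕ) : ℝ) * A ≤ (D.choose (k + 1) : ℕ) * (K : ℝ) := by
      calc ((D.choose k : ℕ) : ℝ) * A ≤ (D.choose k : ℕ) * ((D : ℝ) - k) :=
            mul_le_mul_of_nonneg_left (by linarith) (by positivity)
        _ = ((D.choose (k + 1) : ℕ) : ℝ) * ((k : ℝ) + 1) := e.symm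
        _ ≤ _ := mul_le_mul_of_nonneg_left hkK (by positivity)
    calc A ^ (k + 1) = A ^ k * A := by ring
      _ ≤ (((D.choose k : ℕ) : ℝ) * (K : ℝ) ^ k) * A := mul_le_mul_of_nonneg_right ih hA0
      _ = (((D.choose k : ℕ) : ℝ) * A) * (K : ℝ) ^ k := by ring
      _ ≤ ((D.choose (k + 1) : ℕ) * (K : ℝ)) * (K : ℝ) ^ k :=
          mul_le_mul_of_nonneg_right h1 (by positivity)
      _ = _ := by ring

/-- Tangent line of the convex function `d ↦ C(d, j+1)` at `d₀`. -/
theorem tangent (d d₀ j : ℕ) :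
    ((d₀.choose (j + 1) : ℕ) : ℝ) + ((d : ℝ) - d₀) * (d₀.choose j : ℕ) ≤ (d.choose (j + 1) : ℕ) := by
  rcases le_total d₀ d with h | h
  · obtain ⟨k, rfl⟩ := Nat.exists_eq_add_of_le h
    induction k with
    | zero => simp
    | succ k ih =>
      have ih := ih (by omega)
      have e : (d₀ + (k + 1)).choose (j + 1) = (d₀ + k).choose j + (d₀ + k).choose (j + 1) :=
        Nat.choose_succ_succ (d₀ + k) j
      have m : ((d₀.choose j : ℕ) : ℝ) ≤ ((d₀ + k).choose j : ℕ) := by
        exact_mod_cast Nat.choose_le_choose j (Nat.le_add_right d₀ k)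
      rw [e]
      push_cast at ih ⊢
      linarith
  · obtain ⟨k, rfl⟩ := Nat.exists_eq_add_of_le h
    have key : ∀ i : ℕ, i ≤ k → (((d + i).choose (j + 1) : ℕ) : ℝ) ≤
        (d.choose (j + 1) : ℕ) + (i : ℝ) * ((d + k).choose j : ℕ) := by
      intro i
      induction i with
      | zero => simp
      | succ i ih =>
        intro hi
        have ih := ih (by omega)
        have e : (d + (i + 1)).choose (j + 1) = (d + i).choose j + (d + i).choose (j + 1) :=
          Nat.choose_succ_succ (d + i) j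
        have m : (((d + i).choose j : ℕ) : ℝ) ≤ ((d + k).choose j : ℕ) := by
          exact_mod_cast Nat.choose_le_choose j (by omega)
        rw [e]
        push_cast at ih ⊢
        linarith
    have := key k le_rfl
    push_cast at this ⊢
    linarith

end Pool.Agent.Lib.MP_1d35f7_co.Ex
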