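import Pool.Agent.Lib.MP_1d35f7_co.ExA

/-! Double counting for complete bipartite subgraphs. -/

namespace Pool.Agent.Lib.MP_1d35f7_co.Ex

open Finset

variable {α β : Type} [DecidableEq α] [DecidableEq β] (r : α → β → Prop) [DecidableRel r]

/-- The rows in `X` that are adjacent to all columns in `U`. -/
def nb (X : Finset α) (U : Finset β) : Finset α := X.filter fun i => ∀ u ∈ U, r i u

/-- The columns in `Y` that are adjacent to all rows in `T`. -/
def ld (Y : Finset β) (T : Finset α) : Finset β := Y.filter fun u => ∀ i ∈ T, r i u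

/-- The rows in `X` that are adjacent to the column `u`. -/
def rd (X : Finset α) (u : β) : Finset α := X.filter fun i => r i u

/-- There is no complete bipartite subgraph with `n` rows and `L` columns. -/
def Free (X : Finset α) (Y : Finset β) (n L : ℕ) : Prop :=
  ∀ S ⊆ X, ∀ V ⊆ Y, S.card = n → V.card = L → ¬ ∀ i ∈ S, ∀ u ∈ V, r i u

variable {r}

omit [DecidableEq α] [DecidableEq β] [DecidableRel r] in
theorem Free.ge {X : Finset α} {Y : Finset β} {n L : ℕ} (h : Free r X Y n L) {S : Finset α}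
    {V : Finset β} (hS : S ⊆ X) (hV : V ⊆ Y) (hn : n ≤ S.card) (hL : L ≤ V.card)
    (hc : ∀ i ∈ S, ∀ u ∈ V, r i u) : False := by
  obtain ⟨S', h1, h2⟩ := exists_subset_card_eq hn
  obtain ⟨V', h3, h4⟩ := exists_subset_card_eq hL
  exact h S' (h1.trans hS) V' (h3.trans hV) h2 h4 fun i hi u hu => hc i (h1 hi) u (h3 hu)

omit [DecidableEq α] in
theorem pc_filter (X : Finset α) (p : α → Prop) [DecidablePred p] (t : ℕ) :
    powersetCard t (X.filter p) = (powersetCard t X).filter fun T => ∀ i ∈ T, p i := by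
  ext T
  simp only [mem_powersetCard, mem_filter, subset_iff]
  constructor
  · rintro ⟨h1, h2⟩
    exact ⟨⟨fun i hi => (h1 hi).1, h2⟩, fun i hi => (h1 hi).2⟩
  · rintro ⟨⟨h1, h2⟩, h3⟩
    exact ⟨fun i hi => ⟨h1 hi, h3 i hi⟩, h2⟩

variable (r)

omit [DecidableEq α] [DecidableEq β] in
/-- Pairs of a column and a set of `t` rows adjacent to it. -/
theorem dc_one (X : Finset α) (Y : Finset β) (t : ℕ) :
    ∑ u ∈ Y, (((rd r X u).card.choose t : ℕ) : ℝ) =
      ∑ T ∈ powersetCard t X, ((ld r Y T).card : ℝ) := by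
  have h : ∀ u, (((rd r X u).card.choose t : ℕ) : ℝ) =
      ∑ T ∈ powersetCard t X, if ∀ i ∈ T, r i u then (1 : ℝ) else 0 := fun u => by
    rw [← card_powersetCard, rd, pc_filter, card_filter]
    push_cast
    rfl
  simp only [h]
  rw [sum_comm]
  refine sum_congr rfl fun T _ => ?_
  rw [ld, card_filter]
  push_cast
  rfl

omit [DecidableEq α] [DecidableEq β] in
/-- Complete pairs, with a weight on the set of rows. -/
theorem dc_wt (X : Finset α) (Y : Finset β) (t h : ℕ) (φ : Finset α → ℝ) :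
    ∑ U ∈ powersetCard h Y, ∑ T ∈ powersetCard t (nb r X U), φ T =
      ∑ T ∈ powersetCard t X, (((ld r Y T).card.choose h : ℕ) : ℝ) * φ T := by
  have h1 : ∀ U, ∑ T ∈ powersetCard t (nb r X U), φ T =
      ∑ T ∈ powersetCard t X, if ∀ i ∈ T, ∀ u ∈ U, r i u then φ T else 0 := fun U => by
    rw [nb, pc_filter, sum_filter]
  simp only [h1]
  rw [sum_comm]
  refine sum_congr rfl fun T _ => ?_
  rw [← card_powersetCard, ld, pc_filter, card_filter]
  push_cast
  rw [sum_mul]
  refine sum_congr rfl fun U _ => ?_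
  by_cases hc : ∀ i ∈ T, ∀ u ∈ U, r i u
  · rw [if_pos hc, if_pos fun u hu i hi => hc i hi u hu, one_mul]
  · rw [if_neg hc, if_neg fun k => hc fun i hi u hu => k u hu i hi, zero_mul]

omit [DecidableEq α] [DecidableEq β] in
theorem dc_two (X : Finset α) (Y : Finset β) (t h : ℕ) :
    ∑ U ∈ powersetCard h Y, (((nb r X U).card.choose t : ℕ) : ℝ) =
      ∑ T ∈ powersetCard t X, (((ld r Y T).card.choose h : ℕ) : ℝ) := by
  have := dc_wt r X Y t h fun _ => 1
  simpa using this

variable {r}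

omit [DecidableEq β] in
/-- The number of common neighbours of `n - s` rows is bounded. -/
theorem load_le {X : Finset α} {Y : Finset β} {n L : ℕ} (hf : Free r X Y n L) {q ρ : ℝ}
    (hq : ∀ u ∈ Y, q ≤ (rd r X u).card) (hn : (n : ℝ) < q) (hρ : (X.card : ℝ) ≤ ρ * (q - n))
    (s : ℕ) : ∀ T ⊆ X, T.card + s = n → ((ld r Y T).card : ℝ) ≤ L * ρ ^ s := by
  have hρ0 : 0 ≤ ρ := by
    by_contra hneg
    have : ρ * (q - n) < 0 := mul_neg_of_neg_of_pos (not_le.1 hneg) (by linarith)
    have : (0 : ℝ) ≤ X.card := Nat.cast_nonneg _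
    linarith
  induction s with
  | zero =>
    intro T hT hc
    rw [pow_zero, mul_one]
    by_contra hlt
    have hlt : L < (ld r Y T).card := by exact_mod_cast not_le.1 hlt
    exact hf.ge hT (filter_subset _ _) (by omega) hlt.le fun i hi u hu =>
      (mem_filter.1 hu).2 i hi
  | succ s ih =>
    intro T hT hc
    have e : ∑ u ∈ ld r Y T, ((rd r (X \ T) u).card : ℝ) =
        ∑ i ∈ X \ T, ((ld r Y (insert i T)).card : ℝ) := by
      have h1 : ∀ u, ((rd r (X \ T) u).card : ℝ) = ∑ i ∈ X \ T, if r i u then (1 : ℝ) else 0 :=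
        fun u => by
          rw [rd, card_filter]
          push_cast
          rfl
      simp only [h1]
      rw [sum_comm]
      refine sum_congr rfl fun i _ => ?_
      have h2 : ld r Y (insert i T) = (ld r Y T).filter fun u => r i u := by
        ext u
        simp only [ld, mem_filter, forall_mem_insert]
        tauto
      rw [h2, card_filter]
      push_cast
      rfl
    have lo : ((ld r Y T).card : ℝ) * (q - n) ≤ ∑ u ∈ ld r Y T, ((rd r (X \ T) u).card : ℝ) := by
      rw [← nsmul_eq_mul]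
      refine card_nsmul_le_sum _ _ _ fun u hu => ?_
      have h1 := hq u (filter_subset _ _ hu)
      have h2 : (rd r X u).card ≤ (rd r (X \ T) u).card + T.card := by
        refine (card_le_card ?_).trans (card_union_le _ _)
        intro i hi
        simp only [rd, mem_filter, mem_union, mem_sdiff] at hi ⊢
        tauto
      have h3 : ((rd r X u).card : ℝ) ≤ (rd r (X \ T) u).card + n := by
        exact_mod_cast h2.trans (by omega)
      linarith
    have up : ∑ i ∈ X \ T, ((ld r Y (insert i T)).card : ℝ) ≤ X.card * (L * ρ ^ s) := by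
      refine (sum_le_card_nsmul _ _ (L * ρ ^ s) fun i hi => ?_).trans ?_
      · rw [mem_sdiff] at hi
        exact ih _ (insert_subset hi.1 hT) (by rw [card_insert_of_notMem hi.2]; omega)
      · rw [nsmul_eq_mul]
        refine mul_le_mul_of_nonneg_right ?_ (by positivity)
        exact_mod_cast card_le_card sdiff_subset
    refine le_of_mul_le_mul_right ?_ (sub_pos.2 hn)
    calc _ ≤ (X.card : ℝ) * (L * ρ ^ s) := lo.trans (e ▸ up)
      _ ≤ (ρ * (q - n)) * (L * ρ ^ s) := mul_le_mul_of_nonneg_right hρ (by positivity)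
      _ = _ := by ring

omit [DecidableEq α] [DecidableEq β] in
/-- The mean number of common neighbours of `t` rows. -/
theorem mean_ge {X : Finset α} {Y : Finset β} {n t : ℕ} {q ρ : ℝ} (hρ0 : 0 < ρ)
    (hq : ∀ u ∈ Y, q ≤ (rd r X u).card) (hρ : (X.card : ℝ) ≤ ρ * (q - n)) (ht : t ≤ n) :
    (Y.card : ℝ) * ρ⁻¹ ^ t * (X.card.choose t : ℕ) ≤
      ∑ T ∈ powersetCard t X, ((ld r Y T).card : ℝ) := by
  rw [← dc_one, mul_assoc, ← nsmul_eq_mul]
  refine card_nsmul_le_sum _ _ _ fun u hu => ?_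
  have h1 := hq u hu
  have ht' : (t : ℝ) ≤ n := by exact_mod_cast ht
  have h2 : ρ⁻¹ * ((X.card : ℝ) - (0 : ℕ)) ≤ ((rd r X u).card : ℝ) - (0 : ℕ) - t := by
    rw [Nat.cast_zero, sub_zero, sub_zero, inv_mul_le_iff₀ hρ0]
    nlinarith
  simpa using ratio_ge (inv_nonneg.2 hρ0.le) h2 t le_rfl

omit [DecidableEq α] in
/-- One more element of the common neighbourhood. -/
theorem cheb {S : Finset α} (l : α → ℕ) {μ : ℝ} (hμ : μ * S.card ≤ ∑ T ∈ S, (l T : ℝ)) (j : ℕ) :
    (μ - j) * ∑ T ∈ S, (((l T).choose j : ℕ) : ℝ) ≤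
      ∑ T ∈ S, (((l T).choose j : ℕ) : ℝ) * ((l T : ℝ) - j) := by
  rcases S.eq_empty_or_nonempty with rfl | hS
  · simp
  have hc : (0 : ℝ) < S.card := by exact_mod_cast hS.card_pos
  have mono : MonovaryOn (fun T => (((l T).choose j : ℕ) : ℝ)) (fun T => (l T : ℝ)) S := by
    intro a _ b _ hab
    have hab : l a < l b := Nat.cast_lt.1 hab
    exact Nat.cast_le.2 (Nat.choose_le_choose j hab.le)
  have h := mono.sum_mul_sum_le_card_mul_sum
  have h0 : 0 ≤ ∑ T ∈ S, (((l T).choose j : ℕ) : ℝ) := sum_nonneg fun _ _ => Nat.cast_nonneg _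
  have h1 : μ * ∑ T ∈ S, (((l T).choose j : ℕ) : ℝ) ≤
      ∑ T ∈ S, (((l T).choose j : ℕ) : ℝ) * (l T : ℝ) := by
    refine le_of_mul_le_mul_left ?_ hc
    nlinarith [mul_le_mul_of_nonneg_left hμ h0]
  simp only [mul_sub, sum_sub_distrib, ← sum_mul]
  linarith

omit [DecidableEq α] in
theorem cheb_pow {S : Finset α} (l : α → ℕ) {μ : ℝ} (hμ : μ * S.card ≤ ∑ T ∈ S, (l T : ℝ))
    {h : ℕ} (hh : (h : ℝ) ≤ μ) (j : ℕ) (hj : j ≤ h) :
    (S.card : ℝ) * (μ - h) ^ j ≤ (∑ T ∈ S, (((l T).choose j : ℕ) : ℝ)) * (j.factorial : ℕ) := by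
  induction j with
  | zero => simp
  | succ j ih =>
    have ih := ih (by omega)
    have hj' : (j : ℝ) + 1 ≤ h := by exact_mod_cast hj
    have h1 := cheb l hμ j
    simp only [← ch_succ, ← sum_mul] at h1
    have h0 : 0 ≤ ∑ T ∈ S, (((l T).choose j : ℕ) : ℝ) := sum_nonneg fun _ _ => Nat.cast_nonneg _
    have hf : (0 : ℝ) ≤ (j.factorial : ℕ) := Nat.cast_nonneg _
    rw [Nat.factorial_succ]
    push_cast
    calc (S.card : ℝ) * (μ - h) ^ (j + 1) = (S.card * (μ - h) ^ j) * (μ - h) := by ring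
      _ ≤ ((∑ T ∈ S, (((l T).choose j : ℕ) : ℝ)) * (j.factorial : ℕ)) * (μ - j) :=
          mul_le_mul ih (by linarith) (by linarith) (by positivity)
      _ = ((μ - j) * ∑ T ∈ S, (((l T).choose j : ℕ) : ℝ)) * (j.factorial : ℕ) := by ring
      _ ≤ _ := by
          have := mul_le_mul_of_nonneg_right h1 hf
          linarith

/-- The exchange step: columns with few non-neighbours in `W` can be added if the
non-neighbours are dropped. -/
theorem drop_lt {X : Finset α} {Y : Finset β} {n L h z e : ℕ} (hf : Free r X Y n L)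
    (hL : h + z = L) {U : Finset β} (hU : U ⊆ Y) (hUc : U.card = h) {W : Finset α}
    (hW : W ⊆ nb r X U) (hWc : n + z * e ≤ W.card) :
    ((Y \ U).filter fun u => (W \ rd r W u).card ≤ e).card < z := by
  by_contra hge
  obtain ⟨V, hV, hVc⟩ := exists_subset_card_eq (not_lt.1 hge)
  have hVY : ∀ u ∈ V, u ∈ Y ∧ u ∉ U := fun u hu => mem_sdiff.1 (mem_filter.1 (hV hu)).1
  have hb : (V.biUnion fun u => W \ rd r W u).card ≤ z * e := by
    refine card_biUnion_le.trans ?_
    rw [← hVc, ← smul_eq_mul]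
    exact sum_le_card_nsmul _ _ _ fun u hu => (mem_filter.1 (hV hu)).2
  have hS := le_card_sdiff (V.biUnion fun u => W \ rd r W u) W
  refine hf.ge (S := W \ V.biUnion fun u => W \ rd r W u) (V := U ∪ V)
    (sdiff_subset.trans (hW.trans (filter_subset _ _)))
    (union_subset hU fun u hu => (hVY u hu).1) (by omega) ?_ fun i hi u hu => ?_
  · rw [card_union_of_disjoint (disjoint_right.2 fun u hu => (hVY u hu).2)]
    omega
  · rw [mem_sdiff] at hi
    rcases mem_union.1 hu with hu | hu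
    · exact (mem_filter.1 (hW hi.1)).2 u hu
    · by_contra hr
      exact hi.2 (mem_biUnion.2 ⟨u, hu, mem_sdiff.2 ⟨hi.1, fun k => hr (mem_filter.1 k).2⟩⟩)

omit [DecidableEq β] in
/-- Sets of rows with exactly `e` non-neighbours of `u`. -/
theorem count_W (X : Finset α) (u : β) (e m : ℕ) :
    (X \ rd r X u).card.choose e * (rd r X u).card.choose m ≤
      ((powersetCard (m + e) X).filter fun W => (W \ rd r W u).card ≤ e).card := by
  rw [← card_powersetCard, ← card_powersetCard, ← card_product]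
  have key : ∀ A B : Finset α, A ⊆ X \ rd r X u → B ⊆ rd r X u →
      (A ∪ B) \ rd r (A ∪ B) u = A ∧ rd r (A ∪ B) u = B := fun A B hA hB => by
    have h1 : ∀ i ∈ A, ¬ r i u := fun i hi k =>
      (mem_sdiff.1 (hA hi)).2 (mem_filter.2 ⟨(mem_sdiff.1 (hA hi)).1, k⟩)
    have h2 : ∀ i ∈ B, r i u := fun i hi => (mem_filter.1 (hB hi)).2
    constructor
    · ext i
      simp only [rd, mem_sdiff, mem_union, mem_filter]
      have := h1 i
      have := h2 i
      tauto
    · ext i
      simp only [rd, mem_union, mem_filter]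
      have := h1 i
      have := h2 i
      tauto
  refine card_le_card_of_injOn (fun p => p.1 ∪ p.2) (fun p hp => ?_) fun p hp p' hp' hpp => ?_
  · rw [mem_coe, mem_product, mem_powersetCard, mem_powersetCard] at hp
    obtain ⟨⟨a1, a2⟩, b1, b2⟩ := hp
    rw [mem_coe, mem_filter, mem_powersetCard, (key _ _ a1 b1).1]
    refine ⟨⟨union_subset (a1.trans sdiff_subset) (b1.trans (filter_subset _ _)), ?_⟩, a2.le⟩
    rw [card_union_of_disjoint (disjoint_left.2 fun i hi k => (mem_sdiff.1 (a1 hi)).2 (b1 k))]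
    omega
  · rw [mem_coe, mem_product, mem_powersetCard, mem_powersetCard] at hp hp'
    have k := key _ _ hp.1.1 hp.2.1
    have k' := key _ _ hp'.1.1 hp'.2.1
    have hpp : p.1 ∪ p.2 = p'.1 ∪ p'.2 := hpp
    rw [hpp] at k
    exact Prod.ext (k.1.symm.trans k'.1) (k.2.symm.trans k'.2)

end Pool.Agent.Lib.MP_1d35f7_co.Ex
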