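import Pool.Agent.Lib.MP_1d35f7_co.ExB

/-! The local estimate: extensions of a set of columns with many common neighbours. -/

namespace Pool.Agent.Lib.MP_1d35f7_co.Ex

open Finset

variable {α β : Type} [DecidableEq α] [DecidableEq β] {r : α → β → Prop} [DecidableRel r]

omit [DecidableEq β] in
theorem card_split (X : Finset α) (u : β) : (X \ rd r X u).card + (rd r X u).card = X.card :=
  card_sdiff_add_card_eq_card (filter_subset _ _)

/-- Columns with few non-neighbours. -/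
theorem loc_small {X : Finset α} {Y : Finset β} {n L h z g t : ℕ} (hf : Free r X Y n L)
    (hL : h + z = L) (hz : 0 < z) {U : Finset β} (hU : U ⊆ Y) (hUc : U.card = h)
    (hD : (nb r X U).card = n + g) {S : Finset β} (hS : S ⊆ Y \ U)
    (hb : ∀ u ∈ S, (nb r X U \ rd r (nb r X U) u).card * z ≤ g) :
    ∑ u ∈ S, (((rd r (nb r X U) u).card.choose t : ℕ) : ℝ) ≤ z * ((n + g).choose t : ℕ) := by
  have h1 := drop_lt (e := g / z) hf hL hU hUc (Subset.refl (nb r X U))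
    (by have := Nat.mul_div_le g z; omega)
  refine (sum_le_card_nsmul _ _ (((n + g).choose t : ℕ) : ℝ) fun u _ => ?_).trans ?_
  · have k : (rd r (nb r X U) u).card ≤ n + g := by
      rw [← hD]
      exact card_le_card (filter_subset _ _)
    exact_mod_cast Nat.choose_le_choose t k
  · rw [nsmul_eq_mul]
    refine mul_le_mul_of_nonneg_right ?_ (by positivity)
    have : S.card ≤ z := le_trans (card_le_card fun u hu =>
      mem_filter.2 ⟨hS hu, (Nat.le_div_iff_mul_le hz).2 (hb u hu)⟩) h1.le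
    exact_mod_cast this

omit [DecidableEq α] [DecidableEq β] in
/-- Columns with many non-neighbours. -/
theorem loc_large {X0 : Finset α} {Y S : Finset β} {t κ : ℕ} {τ B : ℝ} (hS : S ⊆ Y)
    (ht : t ≤ X0.card) (h0 : 0 ≤ τ) (h1 : τ ≤ 1)
    (hB : ∀ T ⊆ X0, T.card = t → ((ld r Y T).card : ℝ) ≤ B)
    (hd : ∀ u ∈ S, ((rd r X0 u).card : ℝ) - t ≤ τ * ((X0.card : ℝ) - t)) :
    ∑ u ∈ S, (((rd r X0 u).card.choose (t + κ) : ℕ) : ℝ) ≤
      τ ^ κ * B * (X0.card.choose (t + κ) : ℕ) := by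
  have hp : (0 : ℝ) < (X0.card.choose t : ℕ) := by exact_mod_cast Nat.choose_pos ht
  have h2 : ∑ u ∈ S, (((rd r X0 u).card.choose t : ℕ) : ℝ) ≤ (X0.card.choose t : ℕ) * B := by
    refine (sum_le_sum_of_subset_of_nonneg hS fun _ _ _ => Nat.cast_nonneg _).trans ?_
    rw [dc_one, ← card_powersetCard, ← nsmul_eq_mul]
    exact sum_le_card_nsmul _ _ _ fun T hT =>
      hB T (mem_powersetCard.1 hT).1 (mem_powersetCard.1 hT).2
  refine le_of_mul_le_mul_right ?_ hp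
  rw [sum_mul]
  calc _ ≤ ∑ u ∈ S, τ ^ κ * ((((rd r X0 u).card.choose t : ℕ) : ℝ) *
        (X0.card.choose (t + κ) : ℕ)) :=
        sum_le_sum fun u hu => ratio_le (card_le_card (filter_subset _ _)) h0 h1 (hd u hu) κ
    _ = τ ^ κ * ((∑ u ∈ S, (((rd r X0 u).card.choose t : ℕ) : ℝ)) *
        (X0.card.choose (t + κ) : ℕ)) := by rw [← mul_sum, ← sum_mul]
    _ ≤ τ ^ κ * (((X0.card.choose t : ℕ) * B) * (X0.card.choose (t + κ) : ℕ)) := by
        gcongr
    _ = _ := by ring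

/-- The exchange step, summed over all sets of rows of size `n + z e`. -/
theorem exch_sum {X : Finset α} {Y : Finset β} {n L h z e m : ℕ} (hf : Free r X Y n L)
    (hL : h + z = L) {U : Finset β} (hU : U ⊆ Y) (hUc : U.card = h) (hm : m + e = n + z * e) :
    ∑ u ∈ Y \ U, (nb r X U \ rd r (nb r X U) u).card.choose e *
      (rd r (nb r X U) u).card.choose m ≤ z * (nb r X U).card.choose (m + e) := by
  calc _ ≤ ∑ u ∈ Y \ U, ((powersetCard (m + e) (nb r X U)).filter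
        fun W => (W \ rd r W u).card ≤ e).card := sum_le_sum fun u _ => count_W _ u e m
    _ = ∑ W ∈ powersetCard (m + e) (nb r X U),
        ((Y \ U).filter fun u => (W \ rd r W u).card ≤ e).card := by
        simp only [card_filter]
        exact sum_comm
    _ ≤ (powersetCard (m + e) (nb r X U)).card • z := sum_le_card_nsmul _ _ _ fun W hW =>
        (drop_lt hf hL hU hUc (mem_powersetCard.1 hW).1
          (by rw [(mem_powersetCard.1 hW).2]; omega)).le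
    _ = _ := by rw [card_powersetCard, smul_eq_mul, mul_comm]

/-- The gain for one column in the middle range. -/
theorem mid_one {n g b d t e z : ℕ} {σ : ℝ} (ht : t + e = n) (hz : 0 < z) (he : 0 < e)
    (hσ : 0 ≤ σ) (hg : 2 * z * e ≤ g) (hb : g < b * z)
    (hs : σ * (((n + g : ℕ) : ℝ) - t) ≤ (d : ℝ) - t - (z * e : ℕ)) :
    ((n : ℝ) / (2 * z * e)) ^ e * σ ^ (z * e) *
        ((d.choose t : ℕ) * ((n + g).choose (t + z * e + e) : ℕ)) ≤
      ((b.choose e : ℕ) * (d.choose (t + z * e) : ℕ)) * ((n + g).choose t : ℕ) := by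
  have hz' : (0 : ℝ) < z := by exact_mod_cast hz
  have he' : (0 : ℝ) < e := by exact_mod_cast he
  have hze : e ≤ z * e := Nat.le_mul_of_pos_left e hz
  have hg0 : (0 : ℝ) < g := by
    have : 0 < g := by nlinarith
    exact_mod_cast this
  have h1 := ratio_ge hσ hs (z * e) le_rfl
  have h2 := grow_le (D := n + g) (s := t + z * e) (A := n) (B := g) (Nat.cast_nonneg _) hg0.le
    (by exact_mod_cast (by omega : n ≤ t + z * e + 1))
    (by
      have : ((n + g : ℕ) : ℝ) ≤ g + (t + z * e : ℕ) := by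
        exact_mod_cast (by omega : n + g ≤ g + (t + z * e))
      linarith) e
  have h3 := grow_ge (D := b) (K := e) (A := g / (2 * z)) (by positivity) (by
    have k1 : (g : ℝ) ≤ b * z := by exact_mod_cast hb.le
    have k2 : 2 * (z : ℝ) * e ≤ g := by exact_mod_cast hg
    rw [div_le_iff₀ (by positivity)]
    nlinarith) e le_rfl
  have hp : (0 : ℝ) < (g : ℝ) ^ e * (e : ℝ) ^ e := by positivity
  refine le_of_mul_le_mul_right ?_ hp
  have e1 : ((n : ℝ) / (2 * z * e)) ^ e * ((g : ℝ) ^ e * (e : ℝ) ^ e) =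
      (g / (2 * z)) ^ e * (n : ℝ) ^ e := by
    rw [← mul_pow, ← mul_pow, ← mul_pow]
    congr 1
    field_simp
  calc _ = (((n : ℝ) / (2 * z * e)) ^ e * ((g : ℝ) ^ e * (e : ℝ) ^ e)) * σ ^ (z * e) *
        ((d.choose t : ℕ) * ((n + g).choose (t + z * e + e) : ℕ)) := by ring
    _ = (g / (2 * z)) ^ e * (σ ^ (z * e) * ((d.choose t : ℕ) *
        (((n + g).choose (t + z * e + e) : ℕ) * (n : ℝ) ^ e))) := by rw [e1]; ring
    _ ≤ ((b.choose e : ℕ) * (e : ℝ) ^ e) * (σ ^ (z * e) * ((d.choose t : ℕ) *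
        (((n + g).choose (t + z * e) : ℕ) * (g : ℝ) ^ e))) := by gcongr
    _ = ((b.choose e : ℕ) * (e : ℝ) ^ e * (g : ℝ) ^ e) * (σ ^ (z * e) * ((d.choose t : ℕ) *
        ((n + g).choose (t + z * e) : ℕ))) := by ring
    _ ≤ ((b.choose e : ℕ) * (e : ℝ) ^ e * (g : ℝ) ^ e) *
        ((d.choose (t + z * e) : ℕ) * ((n + g).choose t : ℕ)) := by gcongr
    _ = _ := by ring

/-- Columns in the middle range. -/
theorem loc_mid {X : Finset α} {Y : Finset β} {n L h z g t e : ℕ} {σ : ℝ} (hf : Free r X Y n L)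
    (hL : h + z = L) (hz : 0 < z) (he : 0 < e) {U : Finset β} (hU : U ⊆ Y) (hUc : U.card = h)
    (hD : (nb r X U).card = n + g) (ht : t + e = n) (hσ : 0 ≤ σ) (hg : 2 * z * e ≤ g)
    {S : Finset β} (hS : S ⊆ Y \ U)
    (hb : ∀ u ∈ S, g < (nb r X U \ rd r (nb r X U) u).card * z)
    (hs : ∀ u ∈ S, σ * (((n + g : ℕ) : ℝ) - t) ≤
      ((rd r (nb r X U) u).card : ℝ) - t - (z * e : ℕ)) :
    ((n : ℝ) / (2 * z * e)) ^ e * σ ^ (z * e) *
      ∑ u ∈ S, (((rd r (nb r X U) u).card.choose t : ℕ) : ℝ) ≤ z * ((n + g).choose t : ℕ) := by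
  have hp : (0 : ℝ) < ((n + g).choose (t + z * e + e) : ℕ) := by
    exact_mod_cast Nat.choose_pos (by nlinarith)
  have h1 := exch_sum (e := e) (m := t + z * e) hf hL hU hUc (by omega)
  rw [hD] at h1
  have h2 : ∑ u ∈ S, (((nb r X U \ rd r (nb r X U) u).card.choose e : ℕ) : ℝ) *
      ((rd r (nb r X U) u).card.choose (t + z * e) : ℕ) ≤
      z * ((n + g).choose (t + z * e + e) : ℕ) := by
    exact_mod_cast (sum_le_sum_of_subset hS).trans h1
  refine le_of_mul_le_mul_right ?_ hp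
  calc _ = ∑ u ∈ S, ((n : ℝ) / (2 * z * e)) ^ e * σ ^ (z * e) *
        ((((rd r (nb r X U) u).card.choose t : ℕ) : ℝ) *
          ((n + g).choose (t + z * e + e) : ℕ)) := by
        rw [← mul_sum, ← sum_mul, mul_assoc]
    _ ≤ ∑ u ∈ S, ((((nb r X U \ rd r (nb r X U) u).card.choose e : ℕ) : ℝ) *
        ((rd r (nb r X U) u).card.choose (t + z * e) : ℕ)) * ((n + g).choose t : ℕ) :=
        sum_le_sum fun u hu => mid_one ht hz he hσ hg (hb u hu) (hs u hu)
    _ ≤ (z * ((n + g).choose (t + z * e + e) : ℕ)) * ((n + g).choose t : ℕ) := by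
        rw [← sum_mul]
        gcongr
    _ = _ := by ring

/-- The local estimate. -/
theorem loc {X : Finset α} {Y : Finset β} {n L h z g t e κ : ℕ} {ρ θ c : ℝ}
    (hf : Free r X Y n L)
    (hld : ∀ s, ∀ T ⊆ X, T.card + s = n → ((ld r Y T).card : ℝ) ≤ L * ρ ^ s)
    (hL : h + z = L) (hz : 0 < z) (he : 0 < e) {U : Finset β} (hU : U ⊆ Y) (hUc : U.card = h)
    (hD : (nb r X U).card = n + g) (ht : t + e = n) (hκ : κ ≤ t) (hρ : 1 ≤ ρ) (hθ0 : 0 ≤ θ)
    (hθ : 2 * θ ≤ 1) (hc : 0 ≤ c) (hg : 2 * z * e ≤ g)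
    (hg' : ((κ : ℝ) + (z * e : ℕ)) * ρ ≤ θ * g)
    (c1 : 12 * (z : ℝ) ≤ c * ρ ^ e) (c2 : 12 * (L : ℝ) * (1 - θ) ^ κ ≤ c)
    (c3 : 12 * (z : ℝ) ≤ c * ρ ^ e *
      (((n : ℝ) / (2 * z * e)) ^ e * ((1 - 2 * θ) / ρ) ^ (z * e))) :
    ∑ u ∈ Y \ U, (((rd r (nb r X U) u).card.choose t : ℕ) : ℝ) ≤
      c * ρ ^ e / 4 * ((n + g).choose t : ℕ) := by
  classical
  have hρ0 : 0 < ρ := by linarith
  obtain ⟨t2, rfl⟩ : ∃ t2, t = t2 + κ := ⟨t - κ, by omega⟩
  obtain ⟨S1, S2, S3, hsum, u1, u2, u3, m1, m2, m3, m4⟩ : ∃ S1 S2 S3 : Finset β,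
      (∀ f : β → ℝ, ∑ u ∈ Y \ U, f u = ∑ u ∈ S1, f u + (∑ u ∈ S2, f u + ∑ u ∈ S3, f u)) ∧
      S1 ⊆ Y \ U ∧ S2 ⊆ Y \ U ∧ S3 ⊆ Y \ U ∧
      (∀ u ∈ S1, (nb r X U \ rd r (nb r X U) u).card * z ≤ g) ∧
      (∀ u ∈ S2, ((rd r (nb r X U) u).card : ℝ) - t2 ≤
        (1 - θ) / ρ * (((nb r X U).card : ℝ) - t2)) ∧
      (∀ u ∈ S3, g < (nb r X U \ rd r (nb r X U) u).card * z) ∧
      ∀ u ∈ S3, (1 - θ) / ρ * (((nb r X U).card : ℝ) - t2) <
        ((rd r (nb r X U) u).card : ℝ) - t2 := by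
    refine ⟨(Y \ U).filter fun u => (nb r X U \ rd r (nb r X U) u).card * z ≤ g,
      ((Y \ U).filter fun u => ¬ (nb r X U \ rd r (nb r X U) u).card * z ≤ g).filter fun u =>
        ((rd r (nb r X U) u).card : ℝ) - t2 ≤ (1 - θ) / ρ * (((nb r X U).card : ℝ) - t2),
      ((Y \ U).filter fun u => ¬ (nb r X U \ rd r (nb r X U) u).card * z ≤ g).filter fun u =>
        ¬ ((rd r (nb r X U) u).card : ℝ) - t2 ≤ (1 - θ) / ρ * (((nb r X U).card : ℝ) - t2),
      fun f => ?_, filter_subset _ _, (filter_subset _ _).trans (filter_subset _ _),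
      (filter_subset _ _).trans (filter_subset _ _), fun u hu => (mem_filter.1 hu).2,
      fun u hu => (mem_filter.1 hu).2, fun u hu => not_le.1 (mem_filter.1 (mem_filter.1 hu).1).2,
      fun u hu => not_le.1 (mem_filter.1 hu).2⟩
    rw [sum_filter_add_sum_filter_not, sum_filter_add_sum_filter_not]
  have hC : (0 : ℝ) ≤ ((n + g).choose (t2 + κ) : ℕ) := Nat.cast_nonneg _
  have s1 := loc_small (t := t2 + κ) hf hL hz hU hUc hD u1 m1
  have s2 := loc_large (r := r) (X0 := nb r X U) (t := t2) (τ := (1 - θ) / ρ) (κ := κ)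
    (B := L * ρ ^ (e + κ)) (u2.trans sdiff_subset) (by omega)
    (div_nonneg (by linarith) hρ0.le) ((div_le_one hρ0).2 (by linarith))
    (fun T hT hTc => hld _ T (hT.trans (filter_subset _ _)) (by omega)) m2
  have s3 := loc_mid (t := t2 + κ) (σ := (1 - 2 * θ) / ρ) hf hL hz he hU hUc hD ht
    (div_nonneg (by linarith) hρ0.le) hg u3 m3 fun u hu => by
      have k := m4 u hu
      rw [hD, div_mul_eq_mul_div, div_lt_iff₀ hρ0] at k
      rw [div_mul_eq_mul_div, div_le_iff₀ hρ0]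
      have k1 : (t2 : ℝ) + κ + e = n := by exact_mod_cast ht
      have k2 : (0 : ℝ) ≤ κ := Nat.cast_nonneg _
      have k3 : (0 : ℝ) ≤ e := Nat.cast_nonneg _
      push_cast at k hg' ⊢
      rw [← k1] at k ⊢
      nlinarith [mul_nonneg hθ0 k3, mul_nonneg (sub_nonneg.2 hθ) k2, mul_nonneg hθ0 k2]
  rw [hD] at s2
  have e2 : ((1 - θ) / ρ) ^ κ * (L * ρ ^ (e + κ)) = L * (1 - θ) ^ κ * ρ ^ e := by
    rw [div_pow, pow_add]
    field_simp
  rw [e2] at s2
  rw [hsum]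
  have hz' : (0 : ℝ) < z := by exact_mod_cast hz
  have hρe : 0 < ρ ^ e := by positivity
  have hm0 : 0 ≤ ∑ u ∈ S3, (((rd r (nb r X U) u).card.choose (t2 + κ) : ℕ) : ℝ) :=
    sum_nonneg fun _ _ => Nat.cast_nonneg _
  generalize ((n : ℝ) / (2 * z * e)) ^ e * ((1 - 2 * θ) / ρ) ^ (z * e) = Γ at *
  generalize (((n + g).choose (t2 + κ) : ℕ) : ℝ) = C at *
  generalize ∑ u ∈ S3, (((rd r (nb r X U) u).card.choose (t2 + κ) : ℕ) : ℝ) = m at *
  have a1 : (z : ℝ) * C ≤ c * ρ ^ e / 12 * C := mul_le_mul_of_nonneg_right (by linarith) hC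
  have a2 : L * (1 - θ) ^ κ * ρ ^ e * C ≤ c * ρ ^ e / 12 * C :=
    mul_le_mul_of_nonneg_right (by nlinarith) hC
  have a3 : m ≤ c * ρ ^ e / 12 * C := by
    refine le_of_mul_le_mul_left ?_ hz'
    have b1 := mul_le_mul_of_nonneg_right c3 hm0
    have b2 := mul_le_mul_of_nonneg_left s3 (mul_nonneg hc hρe.le)
    nlinarith
  linarith

end Pool.Agent.Lib.MP_1d35f7_co.Ex
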