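import Pool.Agent.Lib.MP_1d35f7_co.ExC

/-! The global count. -/

namespace Pool.Agent.Lib.MP_1d35f7_co.Ex

open Finset

variable {α β : Type} [DecidableEq α] [DecidableEq β] {r : α → β → Prop} [DecidableRel r]

omit [DecidableEq α] in
theorem ld_sdiff {X : Finset α} {Y U : Finset β} (hU : U ⊆ Y) {T : Finset α}
    (hT : T ⊆ nb r X U) : (ld r (Y \ U) T).card + U.card = (ld r Y T).card := by
  have h1 : U ⊆ ld r Y T := fun u hu =>
    mem_filter.2 ⟨hU hu, fun i hi => (mem_filter.1 (hT hi)).2 u hu⟩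
  have h2 : ld r (Y \ U) T = ld r Y T \ U := by
    ext u
    simp only [ld, mem_filter, mem_sdiff]
    tauto
  rw [h2, card_sdiff_add_card_eq_card h1]

theorem choose_fac_le {l h : ℕ} {B : ℝ} (hl : (l : ℝ) ≤ B) :
    ((l.choose h : ℕ) : ℝ) * (h.factorial : ℕ) ≤ B ^ h := by
  have h1 : l.choose h * h.factorial ≤ l ^ h := by
    rw [mul_comm, ← Nat.descFactorial_eq_factorial_mul_choose]
    exact Nat.descFactorial_le_pow l h
  have h2 : ((l.choose h : ℕ) : ℝ) * (h.factorial : ℕ) ≤ (l : ℝ) ^ h := by exact_mod_cast h1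
  exact h2.trans (pow_le_pow_left₀ (Nat.cast_nonneg _) hl h)

omit [DecidableEq α] in
/-- The contribution of one set of columns. -/
theorem one_U {X : Finset α} {Y : Finset β} {n L h g₀ t e M : ℕ} {ρ μ τ : ℝ}
    (hld : ∀ s, ∀ T ⊆ X, T.card + s = n → ((ld r Y T).card : ℝ) ≤ L * ρ ^ s)
    {U : Finset β} (hU : U ⊆ Y) (hUc : U.card = h) (ht : t + M + e = n) (hρ : 0 ≤ ρ) (hμ : 0 ≤ μ)
    (h0 : 0 ≤ τ) (h1 : τ ≤ 1)
    (hτ : (g₀ : ℝ) + e + M ≤ τ * ((X.card : ℝ) - n))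
    (hloc : n + g₀ ≤ (nb r X U).card →
      ∑ u ∈ Y \ U, (((rd r (nb r X U) u).card.choose (t + M) : ℕ) : ℝ) ≤
        μ / 4 * ((nb r X U).card.choose (t + M) : ℕ)) :
    (∑ T ∈ powersetCard (t + M) (nb r X U), (((ld r Y T).card : ℝ) - h)) *
        (X.card.choose t : ℕ) ≤
      μ / 4 * (X.card.choose t : ℕ) * ((nb r X U).card.choose (t + M) : ℕ) +
        L * ρ ^ e * τ ^ M * (X.card.choose (t + M) : ℕ) * ((nb r X U).card.choose t : ℕ) := by
  rcases le_or_gt (n + g₀) (nb r X U).card with hD | hD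
  · have e1 : ∑ T ∈ powersetCard (t + M) (nb r X U), (((ld r Y T).card : ℝ) - h) =
        ∑ T ∈ powersetCard (t + M) (nb r X U), ((ld r (Y \ U) T).card : ℝ) :=
      sum_congr rfl fun T hT => by
        rw [← ld_sdiff hU (mem_powersetCard.1 hT).1, hUc]
        push_cast
        ring
    rw [e1, ← dc_one]
    have k := mul_le_mul_of_nonneg_right (hloc hD) (Nat.cast_nonneg (α := ℝ) (X.card.choose t))
    have k2 : 0 ≤ L * ρ ^ e * τ ^ M * (X.card.choose (t + M) : ℕ) *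
        ((nb r X U).card.choose t : ℕ) := by positivity
    linarith
  · have e1 : ∑ T ∈ powersetCard (t + M) (nb r X U), (((ld r Y T).card : ℝ) - h) ≤
        ((nb r X U).card.choose (t + M) : ℕ) * (L * ρ ^ e) := by
      rw [← card_powersetCard, ← nsmul_eq_mul]
      refine sum_le_card_nsmul _ _ _ fun T hT => ?_
      have := hld e T ((mem_powersetCard.1 hT).1.trans (filter_subset _ _))
        (by rw [(mem_powersetCard.1 hT).2]; exact ht)
      have : (0 : ℝ) ≤ h := Nat.cast_nonneg _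
      linarith
    have e2 := ratio_le (d := (nb r X U).card) (D := X.card) (t := t)
      (card_le_card (filter_subset _ _)) h0 h1 (by
        have a1 : ((nb r X U).card : ℝ) ≤ n + g₀ := by exact_mod_cast hD.le
        have a2 : (t : ℝ) + M + e = n := by exact_mod_cast ht
        have a3 : (0 : ℝ) ≤ (M : ℝ) + e := by positivity
        nlinarith [mul_nonneg h0 a3]) M
    have k2 : 0 ≤ μ / 4 * (X.card.choose t : ℕ) * ((nb r X U).card.choose (t + M) : ℕ) := by
      positivity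
    have k3 := mul_le_mul_of_nonneg_right e1 (Nat.cast_nonneg (α := ℝ) (X.card.choose t))
    have k4 := mul_le_mul_of_nonneg_left e2 (show 0 ≤ (L : ℝ) * ρ ^ e by positivity)
    nlinarith

/-- A dense pair with suitable parameters contains a complete bipartite graph. -/
theorem glob {X : Finset α} {Y : Finset β} {n L h z g₀ e κ M : ℕ} {ρ θ c q τ : ℝ}
    (hq : ∀ u ∈ Y, q ≤ (rd r X u).card) (hn : (n : ℝ) < q) (hx : (X.card : ℝ) ≤ ρ * (q - n))
    (hY : c * ρ ^ n ≤ Y.card) (hnx : n ≤ X.card)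
    (hL : h + z = L) (hz : 0 < z) (he : 0 < e) (hκ : e + κ ≤ n) (hM : e + M ≤ n) (hρ : 1 ≤ ρ)
    (hθ0 : 0 ≤ θ) (hθ : 2 * θ ≤ 1) (hc : 0 < c) (hg : 2 * z * e ≤ g₀)
    (hg' : ((κ : ℝ) + (z * e : ℕ)) * ρ ≤ θ * g₀)
    (c0 : 2 * (h : ℝ) ≤ c * ρ ^ e)
    (c1 : 12 * (z : ℝ) ≤ c * ρ ^ e) (c2 : 12 * (L : ℝ) * (1 - θ) ^ κ ≤ c)
    (c3 : 12 * (z : ℝ) ≤ c * ρ ^ e *
      (((n : ℝ) / (2 * z * e)) ^ e * ((1 - 2 * θ) / ρ) ^ (z * e)))
    (h0 : 0 ≤ τ) (h1 : τ ≤ 1) (hτ : (g₀ : ℝ) + e + M ≤ τ * ((X.card : ℝ) - n))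
    (c4 : 8 * L * (τ * ρ ^ h) ^ M * (2 * L) ^ h ≤ c ^ (h + 1)) : ¬ Free r X Y n L := by
  intro hf
  have hρ0 : 0 < ρ := by linarith
  have hld := load_le hf hq hn hx
  obtain ⟨t, ht⟩ : ∃ t, t + M + e = n := ⟨n - e - M, by omega⟩
  have hμ : 0 < c * ρ ^ e := by positivity
  have mean : c * ρ ^ e * (powersetCard (t + M) X).card ≤
      ∑ T ∈ powersetCard (t + M) X, ((ld r Y T).card : ℝ) := by
    refine le_trans ?_ (mean_ge hρ0 hq hx (show t + M ≤ n by omega))
    rw [card_powersetCard]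
    refine mul_le_mul_of_nonneg_right ?_ (Nat.cast_nonneg _)
    rw [inv_pow, ← div_eq_mul_inv, le_div_iff₀ (by positivity), mul_assoc, ← pow_add,
      show e + (t + M) = n by omega]
    exact hY
  have a1 := cheb (fun T => (ld r Y T).card) mean h
  have a2 := cheb_pow (fun T => (ld r Y T).card) mean (h := h)
    (by linarith [Nat.cast_nonneg (α := ℝ) h]) h le_rfl
  rw [card_powersetCard] at a2
  rw [← dc_wt r X Y (t + M) h fun T => ((ld r Y T).card : ℝ) - h] at a1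
  have a3 := sum_le_sum (s := powersetCard h Y) fun U hU =>
    one_U (μ := c * ρ ^ e) hld (mem_powersetCard.1 hU).1 (mem_powersetCard.1 hU).2 ht hρ0.le hμ.le
      h0 h1 hτ fun hD => by
        obtain ⟨g, hg2⟩ := Nat.exists_eq_add_of_le ((Nat.le_add_right n g₀).trans hD)
        have k : (g₀ : ℝ) ≤ g := by exact_mod_cast (by omega : g₀ ≤ g)
        rw [hg2]
        exact loc hf hld hL hz he (mem_powersetCard.1 hU).1 (mem_powersetCard.1 hU).2 hg2 ht
          (by omega) hρ hθ0 hθ hc.le (by omega) (hg'.trans (mul_le_mul_of_nonneg_left k hθ0))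
          c1 c2 c3
  rw [← sum_mul, sum_add_distrib, ← mul_sum, ← mul_sum, dc_two, dc_two] at a3
  have a4 : (∑ T ∈ powersetCard t X, (((ld r Y T).card.choose h : ℕ) : ℝ)) * (h.factorial : ℕ) ≤
      (X.card.choose t : ℕ) * (L * ρ ^ (e + M)) ^ h := by
    rw [sum_mul, ← card_powersetCard, ← nsmul_eq_mul]
    exact sum_le_card_nsmul _ _ _ fun T hT => choose_fac_le
      (hld _ T (mem_powersetCard.1 hT).1 (by rw [(mem_powersetCard.1 hT).2]; omega))
  have p1 : (0 : ℝ) < (X.card.choose t : ℕ) := by exact_mod_cast Nat.choose_pos (by omega)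
  have p2 : (0 : ℝ) < (X.card.choose (t + M) : ℕ) := by exact_mod_cast Nat.choose_pos (by omega)
  have p3 : (0 : ℝ) < (h.factorial : ℕ) := by exact_mod_cast h.factorial_pos
  have a5 : (c * ρ ^ e / 2) ^ h ≤ (c * ρ ^ e - h) ^ h :=
    pow_le_pow_left₀ (by positivity) (by linarith) h
  have a6 : L * ρ ^ e * τ ^ M * (L * ρ ^ (e + M)) ^ h ≤ c * ρ ^ e / 8 * (c * ρ ^ e / 2) ^ h := by
    have k := mul_le_mul_of_nonneg_right c4
      (show 0 ≤ ρ ^ e * (ρ ^ e) ^ h / (8 * 2 ^ h) by positivity)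
    calc _ = 8 * L * (τ * ρ ^ h) ^ M * (2 * L) ^ h * (ρ ^ e * (ρ ^ e) ^ h / (8 * 2 ^ h)) := by
          rw [pow_add, mul_pow, mul_pow, mul_pow, mul_pow, ← pow_mul ρ M h, ← pow_mul ρ h M,
            mul_comm h M]
          field_simp
      _ ≤ _ := k
      _ = _ := by
          rw [div_pow, mul_pow, pow_succ]
          field_simp
  have p4 : 0 < (c * ρ ^ e / 2) ^ h := by positivity
  have p5 : 0 ≤ L * ρ ^ e * τ ^ M := by positivity
  generalize ∑ U ∈ powersetCard h Y, ∑ T ∈ powersetCard (t + M) (nb r X U),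
    (((ld r Y T).card : ℝ) - h) = Tr at *
  generalize ∑ T ∈ powersetCard (t + M) X, (((ld r Y T).card.choose h : ℕ) : ℝ) = P at *
  generalize ∑ T ∈ powersetCard t X, (((ld r Y T).card.choose h : ℕ) : ℝ) = P0 at *
  generalize ((X.card.choose t : ℕ) : ℝ) = C0 at *
  generalize ((X.card.choose (t + M) : ℕ) : ℝ) = C at *
  generalize ((h.factorial : ℕ) : ℝ) = F at *
  generalize (c * ρ ^ e / 2) ^ h = m at *
  generalize (c * ρ ^ e - h) ^ h = m' at *
  generalize (L * ρ ^ (e + M)) ^ h = B at *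
  generalize L * ρ ^ e * τ ^ M = K at *
  generalize c * ρ ^ e = μ at *
  have b1 : C * m ≤ P * F := (mul_le_mul_of_nonneg_left a5 p2.le).trans a2
  have b2 : 0 < P * F := lt_of_lt_of_le (mul_pos p2 p4) b1
  have b3 : 0 < P := (mul_pos_iff_of_pos_right p3).1 b2
  have b4 : K * C * (P0 * F) ≤ μ / 8 * (P * F) * C0 :=
    calc K * C * (P0 * F) ≤ K * C * (C0 * B) := mul_le_mul_of_nonneg_left a4 (by positivity)
      _ = K * B * (C * C0) := by ring
      _ ≤ μ / 8 * m * (C * C0) := mul_le_mul_of_nonneg_right a6 (by positivity)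
      _ = μ / 8 * (C * m) * C0 := by ring
      _ ≤ _ := by gcongr
  have b5 : μ / 2 * P ≤ Tr := (mul_le_mul_of_nonneg_right (by linarith) b3.le).trans a1
  have b6 := mul_le_mul_of_nonneg_right ((mul_le_mul_of_nonneg_right b5 p1.le).trans a3) p3.le
  have b7 : 0 < μ * (P * F) * C0 := by positivity
  nlinarith

end Pool.Agent.Lib.MP_1d35f7_co.Ex
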