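import Pool.Agent.Lib.MP_1d35f7_co.ExD

/-! The choice of the parameters. -/

namespace Pool.Agent.Lib.MP_1d35f7_co.Ex

open Finset

variable {α β : Type} [DecidableEq α] [DecidableEq β] {r : α → β → Prop} [DecidableRel r]

theorem pw_le {x : ℝ} (hx : 0 ≤ x) {k m : ℕ} (h : x * k ≤ m) : (1 + x) ^ k ≤ 3 ^ m := by
  have h1 : 1 + x ≤ Real.exp x := by linarith [Real.add_one_le_exp x]
  have h2 : Real.exp 1 ≤ 3 := Real.exp_one_lt_d9.le.trans (by norm_num)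
  calc (1 + x) ^ k ≤ Real.exp x ^ k := pow_le_pow_left₀ (by linarith) h1 k
    _ = Real.exp (k * x) := (Real.exp_nat_mul x k).symm
    _ ≤ Real.exp (m * 1) := Real.exp_le_exp.2 (by linarith)
    _ = Real.exp 1 ^ m := Real.exp_nat_mul 1 m
    _ ≤ 3 ^ m := pow_le_pow_left₀ (Real.exp_pos 1).le h2 m

theorem pw_neg {θ : ℝ} (h1 : θ ≤ 1) {k m : ℕ} (h : (m : ℝ) ≤ θ * k) :
    (1 - θ) ^ k ≤ (1 / 2) ^ m := by
  have h2 : 1 - θ ≤ Real.exp (-θ) := by linarith [Real.add_one_le_exp (-θ)]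
  have h3 : Real.exp (-1) ≤ 1 / 2 := by
    rw [Real.exp_neg, one_div]
    exact inv_anti₀ (by norm_num) (by linarith [Real.add_one_le_exp 1])
  calc (1 - θ) ^ k ≤ Real.exp (-θ) ^ k := pow_le_pow_left₀ (by linarith) h2 k
    _ = Real.exp (k * -θ) := (Real.exp_nat_mul _ k).symm
    _ ≤ Real.exp (m * -1) := Real.exp_le_exp.2 (by linarith)
    _ = Real.exp (-1) ^ m := Real.exp_nat_mul _ m
    _ ≤ _ := pow_le_pow_left₀ (Real.exp_pos _).le h3 m

theorem pw_half {δ : ℝ} (h1 : δ ≤ 1) {k : ℕ} (h : 2 * δ * k ≤ 1) : 1 / 2 ≤ (1 - δ) ^ k := by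
  have := one_add_mul_le_pow (a := -δ) (by linarith) k
  rw [← sub_eq_add_neg] at this
  linarith

theorem ex_z {n K : ℕ} (hK : 0 < K) (h : 2 * K ≤ n) :
    ∃ z, 0 < z ∧ K * 2 ^ z ≤ n ∧ n < 2 * K * 2 ^ z := by
  have h1 : 2 ≤ n / K := (Nat.le_div_iff_mul_le hK).2 h
  refine ⟨Nat.log 2 (n / K), Nat.log_pos (by norm_num) h1, ?_, ?_⟩
  · have := Nat.pow_log_le_self 2 (show n / K ≠ 0 by omega)
    rw [mul_comm]
    exact (Nat.le_div_iff_mul_le hK).1 this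
  · have := Nat.lt_pow_succ_log_self (show 1 < 2 by norm_num) (n / K)
    have := (Nat.div_lt_iff_lt_mul hK).1 this
    rw [Nat.succ_eq_add_one, pow_succ] at this
    linarith

/-- The global count with explicit parameters. -/
theorem glob2 {X : Finset α} {Y : Finset β} {n γ L : ℕ} (hγ : 11 ≤ γ) (hL : L = 3 * γ + 1)
    (h1 : 2 ^ 11 * γ ^ 3 ≤ n) (h2 : n ≤ 2 ^ γ)
    (hq : ∀ u ∈ Y, (1 / 2 - 2 / (n : ℝ)) * X.card ≤ (rd r X u).card)
    (hx : 2 ^ 31 * γ ^ 7 * 2 ^ L ≤ n * X.card) (hY : 2 ^ n * n ≤ 2 ^ L * Y.card) :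
    ¬ Free r X Y n L := by
  have g2 : γ * 11 ≤ γ ^ 2 := by nlinarith
  have g3 : γ ^ 2 * 11 ≤ γ ^ 3 := by nlinarith
  have l1 : L ≤ 4 * γ := by omega
  have l2 : L ^ 2 ≤ 16 * γ ^ 2 := by nlinarith
  have l3 : 2 ^ γ ≤ 2 ^ L := Nat.pow_le_pow_right (by norm_num) (by omega)
  have l4 : 2 * n ^ 3 ≤ 2 ^ L := by
    calc 2 * n ^ 3 ≤ 2 * (2 ^ γ) ^ 3 := Nat.mul_le_mul_left _ (Nat.pow_le_pow_left h2 3)
      _ = _ := by rw [hL]; ring
  have l7 : L ^ 7 ≤ 2 ^ 14 * γ ^ 7 := by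
    calc L ^ 7 ≤ (4 * γ) ^ 7 := Nat.pow_le_pow_left l1 7
      _ = _ := by ring
  have L2 : L ≤ L ^ 2 := by nlinarith
  obtain ⟨z, z0, z1, z2⟩ := ex_z (n := n) (K := 12 * L ^ 2) (by omega) (by omega)
  have z3 : z ≤ γ := by
    have : 2 ^ z ≤ 2 ^ γ := by
      have : 1 * 2 ^ z ≤ 12 * L ^ 2 * 2 ^ z := Nat.mul_le_mul_right _ (by omega)
      omega
    exact (Nat.pow_le_pow_iff_right (by norm_num)).1 this
  obtain ⟨h, hh⟩ : ∃ h, h + z = L := ⟨L - z, by omega⟩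
  have n0 : 0 < n := by omega
  have x1 : 2 * n ^ 2 ≤ X.card := by
    have k : 1 * 2 ^ L ≤ 2 ^ 31 * γ ^ 7 * 2 ^ L :=
      Nat.mul_le_mul_right _ (Nat.succ_le_of_lt (by positivity))
    refine Nat.le_of_mul_le_mul_left ?_ n0
    calc n * (2 * n ^ 2) = 2 * n ^ 3 := by ring
      _ ≤ _ := by omega
  have x2 : n ≤ n ^ 2 := by nlinarith
  have x3 : 2598 * L ^ 5 * 2 ^ h + n ≤ X.card := by
    refine Nat.le_of_mul_le_mul_left ?_ (show 0 < 2 * n by omega)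
    have k1 : n * 2 ^ h ≤ 24 * L ^ 2 * 2 ^ L := by
      calc n * 2 ^ h ≤ (2 * (12 * L ^ 2) * 2 ^ z) * 2 ^ h := Nat.mul_le_mul_right _ z2.le
        _ = _ := by rw [← hh, pow_add]; ring
    have k2 : 2 * n * n ≤ n * X.card := by nlinarith
    calc 2 * n * (2598 * L ^ 5 * 2 ^ h + n) = 5196 * L ^ 5 * (n * 2 ^ h) + 2 * n * n := by ring
      _ ≤ 5196 * L ^ 5 * (24 * L ^ 2 * 2 ^ L) + n * X.card := by gcongr
      _ = 124704 * L ^ 7 * 2 ^ L + n * X.card := by ring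
      _ ≤ 2 ^ 17 * (2 ^ 14 * γ ^ 7) * 2 ^ L + n * X.card := by gcongr; norm_num
      _ = 2 ^ 31 * γ ^ 7 * 2 ^ L + n * X.card := by ring
      _ ≤ n * X.card + n * X.card := by gcongr
      _ = _ := by ring
  have zL : z * L ≤ L ^ 2 := by nlinarith
  have L5 : 34 * L ^ 2 ≤ L ^ 5 := by
    calc 34 * L ^ 2 ≤ L ^ 3 * L ^ 2 := Nat.mul_le_mul_right _
          (le_trans (by omega) (Nat.le_self_pow (by norm_num) L))
      _ = _ := by ring
  have κ1 : 2 * L + 8 * L * (z * (2 * L)) ≤ n := by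
    have : 8 * L * (z * (2 * L)) ≤ 256 * γ ^ 3 := by
      calc 8 * L * (z * (2 * L)) = 16 * L ^ 2 * z := by ring
        _ ≤ 16 * (16 * γ ^ 2) * γ := by gcongr
        _ = _ := by ring
    omega
  have hn : (6561 : ℝ) ≤ n := by exact_mod_cast (by omega : 6561 ≤ n)
  have hn0 : (0 : ℝ) < n := by linarith
  have hx1 : 2 * (n : ℝ) ^ 2 ≤ X.card := by exact_mod_cast x1
  have hε0 : (0 : ℝ) ≤ 8 / n := by positivity
  have hε1 : (8 : ℝ) / n ≤ 1 / 2 := by rw [div_le_iff₀ hn0]; linarith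
  have hρ : ∀ k : ℕ, 8 * k ≤ n → (2 * (1 + 8 / (n : ℝ))) ^ k ≤ 3 * 2 ^ k := fun k hk => by
    have k1 : (8 : ℝ) * k ≤ n := by exact_mod_cast hk
    have := pw_le (k := k) (m := 1) hε0 (by
      rw [div_mul_eq_mul_div, div_le_iff₀ hn0]
      simpa using k1)
    rw [mul_pow, mul_comm]
    exact mul_le_mul_of_nonneg_right (by simpa using this) (by positivity)
  have hz0 : (0 : ℝ) < z := by exact_mod_cast z0
  have hL0 : (0 : ℝ) < L := by exact_mod_cast (by omega : 0 < L)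
  have hz1 : (1 : ℝ) ≤ z := by exact_mod_cast z0
  have hL1 : (1 : ℝ) ≤ L := by exact_mod_cast (by omega : 1 ≤ L)
  have hZ1 : (1 : ℝ) ≤ z * (2 * L) := by nlinarith
  have hθ : 2 * (1 / (4 * ((z : ℝ) * (2 * L)))) ≤ 1 := by
    rw [mul_one_div, div_le_one (by positivity)]
    linarith
  have hμ : (2 : ℝ) ^ L ≤ (1 / 2) ^ L * (2 * (1 + 8 / (n : ℝ))) ^ (2 * L) := by
    have : (2 : ℝ) ^ (2 * L) ≤ (2 * (1 + 8 / (n : ℝ))) ^ (2 * L) :=
      pow_le_pow_left₀ (by norm_num) (by linarith) _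
    refine le_trans (le_of_eq ?_) (mul_le_mul_of_nonneg_left this (by positivity))
    rw [two_mul L, pow_add, ← mul_assoc, ← mul_pow]
    norm_num
  have hL24 : 24 * (z : ℝ) ≤ 2 ^ L := by exact_mod_cast (by omega : 24 * z ≤ 2 ^ L)
  have hL12 : 12 * (L : ℝ) ≤ 2 ^ L := by exact_mod_cast (by omega : 12 * L ≤ 2 ^ L)
  have hhL : (h : ℝ) ≤ L := by exact_mod_cast (by omega : h ≤ L)
  have hρh : 0 < (2 * (1 + 8 / (n : ℝ))) ^ h := by positivity
  have hρ1 : (1 : ℝ) ≤ 2 * (1 + 8 / (n : ℝ)) := by linarith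
  refine glob (h := h) (z := z) (g₀ := 432 * L ^ 5) (e := 2 * L) (κ := 8 * L * (z * (2 * L)))
    (M := 2 * L ^ 2) (ρ := 2 * (1 + 8 / (n : ℝ))) (θ := 1 / (4 * ((z : ℝ) * (2 * L))))
    (c := (1 / 2) ^ L) (τ := 1 / (2 * (2 * (1 + 8 / (n : ℝ))) ^ h)) hq ?_ ?_ ?_ (by omega) hh z0
    (by omega) κ1 (by omega) hρ1 (by positivity) hθ (by positivity) (by nlinarith) ?_
    (by linarith) (by linarith) ?_ ?_ (by positivity) ?_ ?_ ?_
  · have k : (1 : ℝ) / 4 ≤ 1 / 2 - 2 / n := by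
      have : (2 : ℝ) / n = 8 / n / 4 := by ring
      linarith
    have := mul_le_mul_of_nonneg_right k (Nat.cast_nonneg (α := ℝ) X.card)
    nlinarith
  · have e : 2 * (1 + 8 / (n : ℝ)) * ((1 / 2 - 2 / n) * X.card - n) =
        X.card + ((4 * n - 32) * X.card - 2 * n ^ 3 - 16 * n ^ 2) / n ^ 2 := by
      field_simp
      ring
    rw [e, le_add_iff_nonneg_right]
    refine div_nonneg ?_ (by positivity)
    have := mul_le_mul_of_nonneg_left hx1 (show (0 : ℝ) ≤ 4 * n - 32 by linarith)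
    nlinarith [mul_nonneg (sq_nonneg (n : ℝ)) (show (0 : ℝ) ≤ 6 * n - 80 by linarith)]
  · have k := pw_le (k := n) (m := 8) hε0 (by rw [div_mul_cancel₀ _ hn0.ne']; norm_num)
    have k1 : (2 : ℝ) ^ n * n ≤ 2 ^ L * Y.card := by exact_mod_cast hY
    rw [mul_pow, one_div, inv_pow, inv_mul_le_iff₀ (by positivity)]
    refine le_trans (mul_le_mul_of_nonneg_left (k.trans ?_) (by positivity)) k1
    linarith
  · have hzL : (z : ℝ) ≤ L := by exact_mod_cast (by omega : z ≤ L)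
    push_cast
    rw [one_div_mul_eq_div, le_div_iff₀ (by positivity)]
    have a1 : (z : ℝ) * (2 * L) ≤ L * (2 * L) := by gcongr
    have a2 : (L : ℝ) * (2 * L) ≤ L * (L * (2 * L)) := le_mul_of_one_le_left (by positivity) hL1
    have a3 : 8 * (L : ℝ) * (z * (2 * L)) ≤ 8 * L * (L * (2 * L)) := by gcongr
    calc _ ≤ (8 * L * (L * (2 * L)) + L * (L * (2 * L))) * 3 * (4 * ((L : ℝ) * (2 * L))) :=
          mul_le_mul (mul_le_mul (by linarith) (by linarith) (by positivity) (by positivity))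
            (by linarith) (by positivity) (by positivity)
      _ = _ := by ring
  · have k := pw_neg (θ := 1 / (4 * ((z : ℝ) * (2 * L)))) (by linarith)
      (k := 8 * L * (z * (2 * L))) (m := 2 * L) (le_of_eq (by
        push_cast
        field_simp
        ring))
    calc _ ≤ (2 : ℝ) ^ L * (1 / 2) ^ (2 * L) := by
          refine mul_le_mul hL12 k (pow_nonneg (by linarith) _) (by positivity)
      _ = _ := by
          rw [two_mul L, pow_add, ← mul_assoc, ← mul_pow]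
          norm_num
  · have k1 := pw_half (δ := 2 * (1 / (4 * ((z : ℝ) * (2 * L))))) hθ (k := z * (2 * L))
      (le_of_eq (by
        push_cast
        field_simp
        ring))
    have k2 : (2 * (1 + 8 / (n : ℝ))) ^ z ≤ n / (2 * z * ((2 * L : ℕ) : ℝ)) := by
      rw [le_div_iff₀ (by push_cast; positivity)]
      have a1 : 12 * (z * L) * 2 ^ z ≤ n := le_trans (by gcongr) z1
      have a2 : 12 * ((z : ℝ) * L) * 2 ^ z ≤ n := by exact_mod_cast a1
      have a3 := mul_le_mul_of_nonneg_right (hρ z (by omega))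
        (show (0 : ℝ) ≤ 2 * z * ((2 * L : ℕ) : ℝ) by positivity)
      push_cast at a3 ⊢
      linarith
    have k3 := pow_le_pow_left₀ (by positivity) k2 (2 * L)
    rw [← pow_mul] at k3
    have k4 : 1 / 2 ≤ ((n : ℝ) / (2 * z * ((2 * L : ℕ) : ℝ))) ^ (2 * L) *
        ((1 - 2 * (1 / (4 * ((z : ℝ) * (2 * L))))) / (2 * (1 + 8 / (n : ℝ)))) ^ (z * (2 * L)) := by
      rw [div_pow _ (2 * (1 + 8 / (n : ℝ))), ← mul_div_assoc, le_div_iff₀ (by positivity), mul_comm]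
      exact mul_le_mul k3 k1 (by norm_num) (by positivity)
    have k5 := mul_le_mul hμ k4 (by norm_num) (by positivity)
    linarith
  · rw [div_le_one (by positivity)]
    linarith [one_le_pow₀ (n := h) hρ1]
  · have a1 : 432 * L ^ 5 + 2 * L + 2 * L ^ 2 ≤ 433 * L ^ 5 := by omega
    have a2 : ((432 * L ^ 5 : ℕ) : ℝ) + (2 * L : ℕ) + (2 * L ^ 2 : ℕ) ≤ 433 * (L : ℝ) ^ 5 := by
      exact_mod_cast a1
    have a3 : 2598 * (L : ℝ) ^ 5 * 2 ^ h + n ≤ X.card := by exact_mod_cast x3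
    rw [one_div_mul_eq_div, le_div_iff₀ (by positivity)]
    have a4 := mul_le_mul a2 (hρ h (by omega)) hρh.le (by positivity)
    linarith
  · have e1 : 1 / (2 * (2 * (1 + 8 / (n : ℝ))) ^ h) * (2 * (1 + 8 / (n : ℝ))) ^ h = 1 / 2 := by
      field_simp
    rw [e1, ← pow_mul]
    have a1 : L * (h + 1) + (L + L * h) ≤ 2 * L ^ 2 := by
      have : L * (h + 1) ≤ L * L := Nat.mul_le_mul_left _ (by omega)
      nlinarith
    calc 8 * (L : ℝ) * (1 / 2) ^ (2 * L ^ 2) * (2 * L) ^ h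
        ≤ 2 ^ L * (1 / 2) ^ (L * (h + 1) + (L + L * h)) * (2 ^ L) ^ h :=
          mul_le_mul (mul_le_mul (by linarith)
            (pow_le_pow_of_le_one (by norm_num) (by norm_num) a1) (by positivity) (by positivity))
            (pow_le_pow_left₀ (by positivity) (by linarith) h) (by positivity) (by positivity)
      _ = _ := by
          rw [← pow_mul, pow_add, pow_add (1 / 2 : ℝ) L]
          have b1 : (2 : ℝ) ^ L * (1 / 2) ^ L = 1 := by rw [← mul_pow]; norm_num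
          have b2 : (2 : ℝ) ^ (L * h) * (1 / 2) ^ (L * h) = 1 := by rw [← mul_pow]; norm_num
          calc _ = (1 / 2 : ℝ) ^ (L * (h + 1)) * ((2 : ℝ) ^ L * (1 / 2) ^ L) *
              ((2 : ℝ) ^ (L * h) * (1 / 2) ^ (L * h)) := by ring
            _ = _ := by rw [b1, b2, mul_one, mul_one]

end Pool.Agent.Lib.MP_1d35f7_co.Ex
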