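import Pool.Agent.Lib.MP_1d35f7_co.ExE

/-! The first `n - L` columns, and the theorem for bipartite graphs of density one half. -/

namespace Pool.Agent.Lib.MP_1d35f7_co.Ex

open Finset

variable {α β : Type} [DecidableEq α] [DecidableEq β] {r : α → β → Prop} [DecidableRel r]

omit [DecidableEq α] [DecidableEq β] in
theorem sum_deg (X : Finset α) (B : Finset β) :
    ∑ u ∈ B, (rd r X u).card = ∑ i ∈ X, (B.filter fun u => r i u).card := by
  simp only [rd, card_filter]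
  exact sum_comm

omit [DecidableEq α] [DecidableEq β] in
/-- A set of `j + 1` columns with many common neighbours, all of large degree. -/
theorem stage0 (A : Finset α) (B : Finset β) {j d₀ : ℕ} (hj : j + 1 ≤ B.card)
    (hd : A.card * d₀ ≤ ∑ i ∈ A, (B.filter fun u => r i u).card) :
    ∃ U ⊆ B, ∃ X ⊆ A, U.card = j + 1 ∧ (∀ i ∈ X, ∀ u ∈ U, r i u) ∧
      (∀ i ∈ X, d₀ * j ≤ (B.filter fun u => r i u).card * (j + 1)) ∧
      (A.card : ℝ) * (d₀.choose (j + 1) : ℕ) ≤ X.card * (B.card.choose (j + 1) : ℕ) := by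
  obtain ⟨A', hA, m1, m2⟩ : ∃ A' ⊆ A,
      (∀ i ∈ A', d₀ * j ≤ (B.filter fun u => r i u).card * (j + 1)) ∧
      ∀ f : α → ℝ, (∀ i, (B.filter fun u => r i u).card * (j + 1) < d₀ * j → f i ≤ 0) →
        ∑ i ∈ A, f i ≤ ∑ i ∈ A', f i := by
    refine ⟨A.filter fun i => d₀ * j ≤ (B.filter fun u => r i u).card * (j + 1), filter_subset _ _,
      fun i hi => (mem_filter.1 hi).2, fun f hf => ?_⟩
    rw [← sum_filter_add_sum_filter_not A
      fun i => d₀ * j ≤ (B.filter fun u => r i u).card * (j + 1), add_le_iff_nonpos_right]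
    exact sum_nonpos fun i hi => hf i (not_le.1 (mem_filter.1 hi).2)
  have h1 := m2 (fun i => ((d₀.choose (j + 1) : ℕ) : ℝ) +
      (((B.filter fun u => r i u).card : ℝ) - d₀) * (d₀.choose j : ℕ)) fun i hi => by
    have k1 : (((B.filter fun u => r i u).card : ℝ)) * (j + 1) ≤ d₀ * j := by exact_mod_cast hi.le
    have k2 := ch_succ d₀ j
    have k3 : (0 : ℝ) ≤ (d₀.choose j : ℕ) := Nat.cast_nonneg _
    have k4 : (0 : ℝ) ≤ j := Nat.cast_nonneg _
    refine le_of_mul_le_mul_right ?_ (show (0 : ℝ) < j + 1 by positivity)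
    nlinarith [mul_le_mul_of_nonneg_left k1 k3, mul_nonneg k3 k4]
  have h2 : ∑ i ∈ A', (((d₀.choose (j + 1) : ℕ) : ℝ) +
      (((B.filter fun u => r i u).card : ℝ) - d₀) * (d₀.choose j : ℕ)) ≤
      ∑ T ∈ powersetCard (j + 1) B, ((nb r A' T).card : ℝ) :=
    (sum_le_sum fun i _ => tangent _ d₀ j).trans
      (le_of_eq (dc_one (fun u i => r i u) B A' (j + 1)))
  have h3 : (A.card : ℝ) * (d₀.choose (j + 1) : ℕ) ≤ ∑ i ∈ A, (((d₀.choose (j + 1) : ℕ) : ℝ) +
      (((B.filter fun u => r i u).card : ℝ) - d₀) * (d₀.choose j : ℕ)) := by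
    have k : (A.card : ℝ) * d₀ ≤ ∑ i ∈ A, ((B.filter fun u => r i u).card : ℝ) := by
      exact_mod_cast hd
    rw [sum_add_distrib, ← sum_mul, sum_sub_distrib, sum_const, sum_const, nsmul_eq_mul,
      nsmul_eq_mul, le_add_iff_nonneg_right]
    exact mul_nonneg (sub_nonneg.2 k) (Nat.cast_nonneg _)
  have hp : (0 : ℝ) < (B.card.choose (j + 1) : ℕ) := by exact_mod_cast Nat.choose_pos hj
  obtain ⟨U, hU, k⟩ := exists_le_of_sum_le (s := powersetCard (j + 1) B)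
    (f := fun _ => (A.card : ℝ) * (d₀.choose (j + 1) : ℕ))
    (g := fun T => ((nb r A' T).card : ℝ) * (B.card.choose (j + 1) : ℕ))
    (powersetCard_nonempty.2 hj) (by
      rw [sum_const, card_powersetCard, nsmul_eq_mul, ← sum_mul, mul_comm]
      exact mul_le_mul_of_nonneg_right (h3.trans (h1.trans h2)) hp.le)
  exact ⟨U, (mem_powersetCard.1 hU).1, nb r A' U, (filter_subset _ _).trans hA,
    (mem_powersetCard.1 hU).2, fun i hi => (mem_filter.1 hi).2,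
    fun i hi => m1 i (mem_filter.1 hi).1, k⟩

omit [DecidableEq α] in
/-- The columns of large degree. -/
theorem stage1 {X : Finset α} {B U : Finset β} (hX : 0 < X.card) {d q : ℝ} (hq : 0 ≤ q)
    (hd : ∀ i ∈ X, d ≤ (B.filter fun u => r i u).card) :
    ∃ Y ⊆ B \ U, (∀ u ∈ Y, q * X.card ≤ (rd r X u).card) ∧
      d ≤ Y.card + U.card + B.card * q := by
  classical
  refine ⟨(B \ U).filter fun u => q * X.card ≤ (rd r X u).card, filter_subset _ _,
    fun u hu => (mem_filter.1 hu).2, ?_⟩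
  have hX' : (0 : ℝ) < X.card := by exact_mod_cast hX
  have h1 : (X.card : ℝ) * d ≤ ∑ u ∈ B, ((rd r X u).card : ℝ) := by
    have k : ∑ u ∈ B, ((rd r X u).card : ℝ) = ∑ i ∈ X, ((B.filter fun u => r i u).card : ℝ) := by
      exact_mod_cast sum_deg X B
    rw [k, ← nsmul_eq_mul]
    exact card_nsmul_le_sum _ _ _ hd
  obtain ⟨Y, hY⟩ : ∃ Y, Y = (B \ U).filter fun u => q * X.card ≤ (rd r X u).card := ⟨_, rfl⟩
  rw [← hY]
  have h2 : ∑ u ∈ B, ((rd r X u).card : ℝ) ≤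
      ∑ u ∈ B, ((if u ∈ Y ∪ U then (X.card : ℝ) else 0) + q * X.card) := by
    refine sum_le_sum fun u hu => ?_
    split_ifs with k
    · have : ((rd r X u).card : ℝ) ≤ X.card := by
        exact_mod_cast card_le_card (filter_subset _ _)
      linarith [mul_nonneg hq hX'.le]
    · rw [mem_union, not_or, hY, mem_filter, mem_sdiff] at k
      rw [zero_add]
      exact le_of_not_ge fun k' => k.1 ⟨⟨hu, k.2⟩, k'⟩
  rw [sum_add_distrib, ← sum_filter, sum_const, sum_const, nsmul_eq_mul, nsmul_eq_mul] at h2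
  have h3 : ((B.filter fun u => u ∈ Y ∪ U).card : ℝ) ≤ Y.card + U.card := by
    exact_mod_cast (card_le_card fun u hu => (mem_filter.1 hu).2).trans (card_union_le Y U)
  refine le_of_mul_le_mul_left ?_ hX'
  nlinarith [mul_le_mul_of_nonneg_right h3 hX'.le]

theorem half_ratio {b d₀ j : ℕ} (hj : 0 < j) (hb : 4 * (j + 1) ^ 2 ≤ b) (hd : b ≤ 2 * d₀ + 1) :
    ((b.choose j : ℕ) : ℝ) ≤ 2 ^ (j + 1) * (d₀.choose j : ℕ) := by
  have hj' : (1 : ℝ) ≤ j := by exact_mod_cast hj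
  have hb' : 4 * ((j : ℝ) + 1) ^ 2 ≤ b := by exact_mod_cast hb
  have hd' : (b : ℝ) ≤ 2 * d₀ + 1 := by exact_mod_cast hd
  have h0 : 1 / (2 * (j : ℝ)) ≤ 1 := by
    rw [div_le_one (by positivity)]
    linarith
  have h1 := pw_half h0 (k := j) (le_of_eq (by field_simp))
  have h2 := ratio_ge (d := d₀) (D := b) (t := 0) (K := j) (σ := (1 - 1 / (2 * (j : ℝ))) / 2)
    (by linarith) (by
      have : 2 * (j : ℝ) + 1 ≤ b / (2 * j) := by
        rw [le_div_iff₀ (by positivity)]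
        nlinarith
      have e : (1 - 1 / (2 * (j : ℝ))) / 2 * b = (b - b / (2 * j)) / 2 := by ring
      rw [Nat.cast_zero, sub_zero, sub_zero, e]
      linarith) j le_rfl
  simp only [Nat.choose_zero_right, Nat.cast_one, one_mul, mul_one, zero_add] at h2
  rw [div_pow, div_mul_eq_mul_div, div_le_iff₀ (by positivity)] at h2
  have h3 := mul_le_mul_of_nonneg_right h1 (Nat.cast_nonneg (α := ℝ) (b.choose j))
  rw [pow_succ]
  linarith

/-- A bipartite graph of density at least one half contains `K_{n,n}`. -/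
theorem main (A : Finset α) (B : Finset β) {n γ : ℕ} (hγ : 0 < γ) (h1 : 2 ^ 11 * γ ^ 3 ≤ n)
    (h2 : n ≤ 2 ^ γ) (ha : 2 ^ 32 * γ ^ 7 * 2 ^ n ≤ n * A.card) (hb : 2 ^ n ≤ 2 ^ γ * B.card)
    (hd : A.card * B.card ≤ 2 * ∑ i ∈ A, (B.filter fun u => r i u).card) :
    ∃ S ⊆ A, ∃ T ⊆ B, S.card = n ∧ T.card = n ∧ ∀ i ∈ S, ∀ u ∈ T, r i u := by
  have g0 : γ ≤ γ ^ 3 := Nat.le_self_pow (by norm_num) γ
  have g1 : 11 ≤ γ := (Nat.pow_le_pow_iff_right (show 1 < 2 by norm_num)).1 (by omega)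
  obtain ⟨L, hL⟩ : ∃ L, L = 3 * γ + 1 := ⟨_, rfl⟩
  obtain ⟨j, hj⟩ : ∃ j, j + 1 + L = n := ⟨n - L - 1, by omega⟩
  have b1 : 4 * n ^ 2 ≤ B.card := by
    refine Nat.le_of_mul_le_mul_left ?_ (show 0 < 2 ^ γ by positivity)
    calc 2 ^ γ * (4 * n ^ 2) ≤ 2 ^ γ * (4 * (2 ^ γ) ^ 2) := by gcongr
      _ = 2 ^ (3 * γ + 2) := by ring
      _ ≤ 2 ^ n := Nat.pow_le_pow_right (by norm_num) (by omega)
      _ ≤ _ := hb
  have b2 : n ≤ n ^ 2 := Nat.le_self_pow (by norm_num) n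
  obtain ⟨d₀, d1, d2⟩ : ∃ d₀, 2 * d₀ ≤ B.card ∧ B.card ≤ 2 * d₀ + 1 := ⟨B.card / 2, by omega⟩
  obtain ⟨U, hU, X, hX, hUc, hc, hdeg, hx⟩ := stage0 (r := r) A B (j := j) (d₀ := d₀) (by omega)
    (by nlinarith [Nat.mul_le_mul_left A.card d1])
  have x1 : A.card ≤ X.card * 2 ^ (j + 1 + 1) := by
    have k := half_ratio (b := B.card) (d₀ := d₀) (j := j + 1) (by omega)
      (le_trans (Nat.mul_le_mul_left 4 (Nat.pow_le_pow_left (by omega) 2)) b1) d2
    have hp : (0 : ℝ) < (B.card.choose (j + 1) : ℕ) := by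
      exact_mod_cast Nat.choose_pos (by omega)
    have k2 : (A.card : ℝ) ≤ X.card * 2 ^ (j + 1 + 1) := by
      refine le_of_mul_le_mul_right ?_ hp
      have k3 := mul_le_mul_of_nonneg_left k (Nat.cast_nonneg (α := ℝ) A.card)
      have k4 := mul_le_mul_of_nonneg_left hx (show (0 : ℝ) ≤ 2 ^ (j + 1 + 1) by positivity)
      linarith
    exact_mod_cast k2
  have x2 : 2 ^ 31 * γ ^ 7 * 2 ^ L ≤ n * X.card := by
    refine Nat.le_of_mul_le_mul_right ?_ (show 0 < 2 ^ (j + 1 + 1) by positivity)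
    calc 2 ^ 31 * γ ^ 7 * 2 ^ L * 2 ^ (j + 1 + 1) = 2 ^ 32 * γ ^ 7 * 2 ^ (j + 1 + L) := by ring
      _ ≤ n * A.card := hj ▸ ha
      _ ≤ n * (X.card * 2 ^ (j + 1 + 1)) := Nat.mul_le_mul_left _ x1
      _ = _ := by ring
  have x3 : 0 < X.card := by
    refine Nat.pos_of_ne_zero fun e => ?_
    rw [e, mul_zero] at x2
    exact absurd x2 (not_le.2 (by positivity))
  have hn : (16 : ℝ) ≤ n := by exact_mod_cast (by omega : 16 ≤ n)
  have hn0 : (0 : ℝ) < n := by linarith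
  have hd1 : 2 * (d₀ : ℝ) ≤ B.card := by exact_mod_cast d1
  have hd2 : (B.card : ℝ) ≤ 2 * d₀ + 1 := by exact_mod_cast d2
  have hjn : (n : ℝ) ≤ 2 * (j + 1) := by exact_mod_cast (by omega : n ≤ 2 * (j + 1))
  have hB0 : (0 : ℝ) ≤ B.card := Nat.cast_nonneg _
  obtain ⟨Y, hY, hq, hy⟩ := stage1 (r := r) (B := B) (U := U) x3 (d := d₀ - B.card / n)
    (q := 1 / 2 - 2 / n) (by
      rw [sub_nonneg, div_le_iff₀ hn0]
      linarith) fun i hi => by
      have k : (d₀ : ℝ) * j ≤ (B.filter fun u => r i u).card * (j + 1) := by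
        exact_mod_cast hdeg i hi
      have k2 : (d₀ : ℝ) ≤ B.card / n * (j + 1) := by
        rw [div_mul_eq_mul_div, le_div_iff₀ hn0]
        nlinarith [mul_le_mul hd1 hjn hn0.le hB0]
      refine le_of_mul_le_mul_right ?_ (show (0 : ℝ) < j + 1 by positivity)
      linarith
  have y1 : B.card ≤ 2 * n * Y.card := by
    have k1 : (U.card : ℝ) + 1 ≤ n := by exact_mod_cast (by omega : U.card + 1 ≤ n)
    have k2 : 4 * (n : ℝ) ^ 2 ≤ B.card := by exact_mod_cast b1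
    have k3 : (B.card : ℝ) / n ≤ Y.card + n := by
      have e : (B.card : ℝ) * (1 / 2 - 2 / n) = B.card / 2 - 2 * (B.card / n) := by ring
      rw [e] at hy
      linarith
    rw [div_le_iff₀ hn0] at k3
    have k4 : (B.card : ℝ) ≤ 2 * n * Y.card := by nlinarith
    exact_mod_cast k4
  have y2 : 2 ^ n * n ≤ 2 ^ L * Y.card :=
    calc 2 ^ n * n ≤ 2 ^ γ * (2 * n * Y.card) * n :=
          Nat.mul_le_mul_right _ (hb.trans (Nat.mul_le_mul_left _ y1))
      _ ≤ 2 ^ γ * (2 * 2 ^ γ * Y.card) * 2 ^ γ := by gcongr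
      _ = _ := by rw [hL]; ring
  have key := glob2 (r := r) g1 hL h1 h2 hq x2 y2
  obtain ⟨S, hS, V, hV, c1, c2, hr⟩ : ∃ S ⊆ X, ∃ V ⊆ Y, S.card = n ∧ V.card = L ∧
      ∀ i ∈ S, ∀ u ∈ V, r i u := by
    by_contra k
    exact key fun S hS V hV c1 c2 hr => k ⟨S, hS, V, hV, c1, c2, hr⟩
  have hV' : ∀ u ∈ V, u ∈ B ∧ u ∉ U := fun u hu => mem_sdiff.1 (hY (hV hu))
  refine ⟨S, hS.trans hX, U ∪ V, union_subset hU fun u hu => (hV' u hu).1, c1, ?_,
    fun i hi u hu => ?_⟩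
  · rw [card_union_of_disjoint (disjoint_right.2 fun u hu => (hV' u hu).2)]
    omega
  · rcases mem_union.1 hu with hu | hu
    exacts [hc i (hS hi) u hu, hr i hi u hu]

end Pool.Agent.Lib.MP_1d35f7_co.Ex
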