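import Mathlib
import Pool.Agent.Lib.MP_1d35f7_co.Defs

-- part Pool.Agent.Lib.MP_1d35f7_co.Moment
section

set_option autoImplicit false

namespace Pool.Agent.Lib.MP_1d35f7_co

open Finset

/-- Hypergeometric gain: a half-size set contains a given `n`-set with probability at most
`2^{-n} exp(-n(n-3)/(2a))`. -/
theorem desc_le {a k : ℕ} (ha : 0 < a) (hk : 2 * k ≤ a + 1) (n : ℕ) (hn : n ≤ a) :
    (k.descFactorial n : ℝ) ≤
      a.descFactorial n * ((1 / 2) ^ n * Real.exp (-((n : ℝ) * (n - 3) / (2 * a)))) := by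
  induction n with
  | zero => simp
  | succ n ih =>
    have ih := ih (by omega)
    have ha' : (0 : ℝ) < a := by exact_mod_cast ha
    have hna : n < a := hn
    have h1 : ((k - n : ℕ) : ℝ) ≤ ((a - n : ℕ) : ℝ) * (1 / 2 * Real.exp (-(((n : ℝ) - 1) / a))) := by
      have e1 : ((a - n : ℕ) : ℝ) = a - n := by rw [Nat.cast_sub hna.le]
      have hna' : (n : ℝ) < a := by exact_mod_cast hna
      have e2 : 1 - ((n : ℝ) - 1) / a ≤ Real.exp (-(((n : ℝ) - 1) / a)) := by
        have := Real.add_one_le_exp (-(((n : ℝ) - 1) / a))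
        linarith
      rcases le_or_gt k n with h | h
      · rw [Nat.sub_eq_zero_of_le h]
        simp only [Nat.cast_zero]
        positivity
      · rw [Nat.cast_sub h.le, e1]
        have hk' : 2 * (k : ℝ) ≤ a + 1 := by exact_mod_cast hk
        have e3 : (k : ℝ) - n ≤ (a - n) * (1 / 2 * (1 - ((n : ℝ) - 1) / a)) := by
          have e4 : (a - n) * (1 / 2 * (1 - ((n : ℝ) - 1) / a)) =
              ((a - n) * (a - n + 1)) / (2 * a) := by
            field_simp
            ring
          rw [e4, le_div_iff₀ (by positivity)]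
          have e5 : (0 : ℝ) ≤ (n : ℝ) * (n - 1) := by
            rcases Nat.eq_zero_or_pos n with h0 | h0
            · simp [h0]
            · have : (1 : ℝ) ≤ n := by exact_mod_cast h0
              nlinarith
          nlinarith
        refine e3.trans ?_
        have : (0 : ℝ) ≤ a - n := by linarith
        gcongr
    rw [Nat.descFactorial_succ, Nat.descFactorial_succ]
    push_cast
    have e6 : -(((n : ℝ) + 1) * (n + 1 - 3) / (2 * a)) =
        -(((n : ℝ) - 1) / a) + -((n : ℝ) * (n - 3) / (2 * a)) := by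
      field_simp
      ring
    rw [e6, Real.exp_add, pow_succ]
    calc ((k - n : ℕ) : ℝ) * (k.descFactorial n : ℝ)
        ≤ (((a - n : ℕ) : ℝ) * (1 / 2 * Real.exp (-(((n : ℝ) - 1) / a)))) *
          (a.descFactorial n * ((1 / 2) ^ n * Real.exp (-((n : ℝ) * (n - 3) / (2 * a))))) := by
          gcongr
      _ = _ := by ring

/-- The number of `k`-sets containing a given `n`-set. -/
theorem card_sup_le {a k : ℕ} (ha : 0 < a) (hk : 2 * k ≤ a + 1) (S : Finset (Fin a)) :
    (#{R ∈ powersetCard k (univ : Finset (Fin a)) | S ⊆ R} : ℝ) ≤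
      a.choose k * ((1 / 2) ^ #S * Real.exp (-((#S : ℝ) * (#S - 3) / (2 * a)))) := by
  set n := #S with hn
  have hna : n ≤ a := by simpa using card_le_univ S
  rcases lt_or_ge k n with h | h
  · have : {R ∈ powersetCard k (univ : Finset (Fin a)) | S ⊆ R} = ∅ := by
      apply filter_eq_empty_iff.2
      intro R hR hS
      have := card_le_card hS
      rw [(mem_powersetCard.1 hR).2] at this
      omega
    rw [this]
    simp only [card_empty, Nat.cast_zero]
    positivity
  · rw [card_filter_powersetCard_subset S univ k (subset_univ _) h]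
    simp only [card_univ, Fintype.card_fin]
    have h1 : a.choose k * k.choose n = a.choose n * (a - n).choose (k - n) := Nat.choose_mul h
    have h2 := desc_le ha hk n hna
    rw [Nat.descFactorial_eq_factorial_mul_choose, Nat.descFactorial_eq_factorial_mul_choose] at h2
    push_cast at h2
    have hf : (0 : ℝ) < n.factorial := by exact_mod_cast n.factorial_pos
    have hc : (0 : ℝ) < a.choose n := by exact_mod_cast Nat.choose_pos hna
    have h3 : (k.choose n : ℝ) ≤
        a.choose n * ((1 / 2) ^ n * Real.exp (-((n : ℝ) * (n - 3) / (2 * a)))) := by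
      refine le_of_mul_le_mul_left ?_ hf
      linarith
    have h1' : (a.choose k : ℝ) * k.choose n = a.choose n * (a - n).choose (k - n) := by
      exact_mod_cast h1
    refine le_of_mul_le_mul_left ?_ hc
    rw [← h1']
    calc (a.choose k : ℝ) * k.choose n ≤ a.choose k *
          (a.choose n * ((1 / 2) ^ n * Real.exp (-((n : ℝ) * (n - 3) / (2 * a))))) := by gcongr
      _ = _ := by ring

/-- The sets of size `a/2` that give colour `col` to all of `S`. -/
theorem card_col_le {a : ℕ} (ha : 0 < a) (S : Finset (Fin a)) (col : Bool) :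
    (#{R ∈ powersetCard (a / 2) (univ : Finset (Fin a)) | ∀ i ∈ S, decide (i ∈ R) = col} : ℝ) ≤
      a.choose (a / 2) * ((1 / 2) ^ #S * Real.exp (-((#S : ℝ) * (#S - 3) / (2 * a)))) := by
  cases col with
  | true =>
    refine le_trans (le_of_eq ?_) (card_sup_le ha (by omega) S)
    congr 2
    ext R
    simp [subset_iff]
  | false =>
    have h := card_sup_le (k := a - a / 2) ha (by omega) S
    rw [Nat.choose_symm (Nat.div_le_self a 2)] at h
    refine le_trans ?_ h
    norm_cast
    apply card_le_card_of_injOn (fun R => Rᶜ)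
    · intro R hR
      simp only [coe_filter, mem_powersetCard, subset_univ, true_and, Set.mem_ofPred_eq] at hR ⊢
      refine ⟨by rw [card_compl, hR.1]; simp, fun i hi => ?_⟩
      simpa using hR.2 i hi
    · intro R _ R' _ h
      exact compl_injective h

/-- First moment inequality for the colouring in which every vertex of the second side is joined
in the first colour to a random half of the first side. -/
theorem moment {n a b : ℕ} (ha : 0 < a)
    (h : ∀ c : Fin a → Fin b → Bool, ∃ S : Finset (Fin a), ∃ T : Finset (Fin b), ∃ col : Bool,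
      S.card = n ∧ T.card = n ∧ ∀ i ∈ S, ∀ j ∈ T, c i j = col) :
    (1 : ℝ) ≤ 2 * a.choose n * b.choose n *
      ((1 / 2) ^ n * Real.exp (-((n : ℝ) * (n - 3) / (2 * a)))) ^ n := by
  classical
  set q : ℝ := (1 / 2) ^ n * Real.exp (-((n : ℝ) * (n - 3) / (2 * a))) with hq
  have hq0 : 0 ≤ q := by positivity
  set Ω := powersetCard (a / 2) (univ : Finset (Fin a)) with hΩ
  have hΩc : #Ω = a.choose (a / 2) := by simp [hΩ]
  have hΩp : (0 : ℝ) < a.choose (a / 2) := by
    exact_mod_cast Nat.choose_pos (Nat.div_le_self a 2)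
  let G : Finset (Fin a) → Bool → Finset (Finset (Fin a)) := fun S col =>
    {R ∈ Ω | ∀ i ∈ S, decide (i ∈ R) = col}
  let I := powersetCard n (univ : Finset (Fin a)) ×ˢ powersetCard n (univ : Finset (Fin b)) ×ˢ
    (univ : Finset Bool)
  let E : Finset (Fin a) × Finset (Fin b) × Bool → Finset (Fin b → Finset (Fin a)) := fun x =>
    Fintype.piFinset fun j => if j ∈ x.2.1 then G x.1 x.2.2 else Ω
  have hcov : Fintype.piFinset (fun _ : Fin b => Ω) ⊆ I.biUnion E := by
    intro f hf
    obtain ⟨S, T, col, hS, hT, hc⟩ := h fun i j => decide (i ∈ f j)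
    rw [mem_biUnion]
    refine ⟨(S, T, col), by simp [I, hS, hT], ?_⟩
    simp only [E, Fintype.mem_piFinset] at hf ⊢
    intro j
    split_ifs with hj
    · exact mem_filter.2 ⟨hf j, fun i hi => hc i hi j hj⟩
    · exact hf j
  have hE : ∀ x ∈ I, (#(E x) : ℝ) ≤ q ^ n * (a.choose (a / 2) : ℝ) ^ b := by
    rintro ⟨S, T, col⟩ hx
    simp only [I, mem_product, mem_powersetCard, subset_univ, true_and, mem_univ, and_true] at hx
    simp only [E, Fintype.card_piFinset]
    push_cast
    have hG : (#(G S col) : ℝ) ≤ a.choose (a / 2) * q := by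
      have := card_col_le ha S col
      rwa [hx.1] at this
    calc ∏ j : Fin b, (#(if j ∈ T then G S col else Ω) : ℝ)
        ≤ ∏ j : Fin b, ((if j ∈ T then q else 1) * (a.choose (a / 2) : ℝ)) := by
          apply prod_le_prod (fun _ _ => Nat.cast_nonneg _)
          intro j _
          split_ifs
          · linarith
          · rw [hΩc, one_mul]
      _ = q ^ n * (a.choose (a / 2) : ℝ) ^ b := by
          rw [prod_mul_distrib, prod_ite_mem, univ_inter, prod_const, prod_const, hx.2]
          simp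
  have h1 : ((a.choose (a / 2) : ℝ)) ^ b ≤ #I * (q ^ n * (a.choose (a / 2) : ℝ) ^ b) := by
    have h2 := (card_le_card hcov).trans card_biUnion_le
    rw [Fintype.card_piFinset] at h2
    simp only [hΩc, prod_const, card_univ, Fintype.card_fin] at h2
    have h3 : ((a.choose (a / 2) : ℝ)) ^ b ≤ ∑ x ∈ I, (#(E x) : ℝ) := by exact_mod_cast h2
    refine h3.trans ?_
    simpa [nsmul_eq_mul] using sum_le_card_nsmul I _ _ hE
  have hI : (#I : ℝ) = 2 * a.choose n * b.choose n := by
    simp only [I, card_product, card_powersetCard, card_univ, Fintype.card_fin, Fintype.card_bool]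
    push_cast
    ring
  rw [hI] at h1
  have hp : (0 : ℝ) < (a.choose (a / 2) : ℝ) ^ b := by positivity
  refine le_of_mul_le_mul_right ?_ hp
  linarith

theorem choose_le_stirling (a n : ℕ) (hn : 1 ≤ n) :
    (a.choose n : ℝ) ≤ (Real.exp 1 * a / n) ^ n / 2 := by
  have h1 : (a.choose n : ℝ) ≤ (a : ℝ) ^ n / n.factorial := by
    exact_mod_cast Nat.choose_le_pow_div (α := ℝ) n a
  have h2 := Stirling.le_factorial_stirling n
  have hn' : (1 : ℝ) ≤ n := by exact_mod_cast hn
  have h3 : (2 : ℝ) ≤ √(2 * Real.pi * n) := by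
    apply Real.le_sqrt_of_sq_le
    nlinarith [Real.pi_gt_three]
  have h4 : 2 * ((n : ℝ) / Real.exp 1) ^ n ≤ n.factorial := by
    refine le_trans ?_ h2
    gcongr
  refine h1.trans ?_
  have h5 : (0 : ℝ) < 2 * ((n : ℝ) / Real.exp 1) ^ n := by positivity
  calc (a : ℝ) ^ n / n.factorial ≤ (a : ℝ) ^ n / (2 * ((n : ℝ) / Real.exp 1) ^ n) := by gcongr
    _ = _ := by
      rw [div_pow, div_pow, mul_pow]
      field_simp

theorem lower_left {n a b : ℕ} (hn : 1 ≤ n)
    (h : ∀ c : Fin a → Fin b → Bool, ∃ S : Finset (Fin a), ∃ T : Finset (Fin b), ∃ col : Bool,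
      S.card = n ∧ T.card = n ∧ ∀ i ∈ S, ∀ j ∈ T, c i j = col) :
    Real.exp (-2) * (n : ℝ) ^ 2 * 2 ^ n * Real.exp ((n : ℝ) * (n - 3) / (2 * a)) < a * b := by
  have ha : 0 < a := by
    obtain ⟨S, -, -, hS, -⟩ := h fun _ _ => true
    have := card_le_univ S
    simp at this
    omega
  have h1 := moment ha h
  have hn' : (0 : ℝ) < n := by exact_mod_cast hn
  set E := (n : ℝ) * (n - 3) / (2 * a)
  have h2 := choose_le_stirling a n hn
  have h3 := choose_le_stirling b n hn
  set x : ℝ := (Real.exp 1 * a / n) * (Real.exp 1 * b / n) * ((1 / 2) ^ n * Real.exp (-E)) with hx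
  have hx0 : 0 ≤ x := by positivity
  have h4 : 2 ≤ x ^ n := by
    have : (1 : ℝ) ≤ 2 * ((Real.exp 1 * a / n) ^ n / 2) * ((Real.exp 1 * b / n) ^ n / 2) *
        ((1 / 2) ^ n * Real.exp (-E)) ^ n := by
      refine h1.trans ?_
      gcongr
    rw [hx, mul_pow, mul_pow]
    linarith
  have h5 : 1 < x := by
    by_contra hc
    have := pow_le_one₀ (n := n) hx0 (not_lt.1 hc)
    linarith
  have e2 : Real.exp (-2) * (Real.exp 1 * Real.exp 1) = 1 := by
    rw [← Real.exp_add, ← Real.exp_add]
    norm_num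
  have e3 : Real.exp E * Real.exp (-E) = 1 := by rw [← Real.exp_add]; simp
  have e4 : (2 : ℝ) ^ n * (1 / 2) ^ n = 1 := by rw [← mul_pow]; norm_num
  have h6 : (Real.exp (-2) * (n : ℝ) ^ 2 * 2 ^ n * Real.exp E) * x = a * b := by
    calc _ = (Real.exp (-2) * (Real.exp 1 * Real.exp 1)) * (Real.exp E * Real.exp (-E)) *
          ((2 : ℝ) ^ n * (1 / 2) ^ n) * (a * b) := by
          rw [hx]
          field_simp
      _ = _ := by rw [e2, e3, e4]; ring
  rw [← h6]
  have : 0 < Real.exp (-2) * (n : ℝ) ^ 2 * 2 ^ n * Real.exp E := by positivity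
  nlinarith

end Pool.Agent.Lib.MP_1d35f7_co
end

-- part Pool.Agent.Lib.MP_1d35f7_co.Main
section

set_option autoImplicit false

namespace Pool.Agent.Lib.MP_1d35f7_co

open Finset Filter

theorem Arrows.symm {a b n : ℕ} (h : Arrows a b n) : Arrows b a n := by
  intro c
  obtain ⟨S, T, col, hS, hT, hc⟩ := h fun i j => c j i
  exact ⟨T, S, col, hT, hS, fun i hi j hj => hc j hj i hi⟩

theorem Arrows.mono {a b a' b' n : ℕ} (h : Arrows a b n) (ha : a ≤ a') (hb : b ≤ b') :
    Arrows a' b' n := by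
  intro c
  obtain ⟨S, T, col, hS, hT, hc⟩ := h fun i j => c (Fin.castLE ha i) (Fin.castLE hb j)
  refine ⟨S.map (Fin.castLEEmb ha), T.map (Fin.castLEEmb hb), col, by simpa, by simpa, ?_⟩
  intro i hi j hj
  obtain ⟨i', hi', rfl⟩ := mem_map.1 hi
  obtain ⟨j', hj', rfl⟩ := mem_map.1 hj
  exact hc i' hi' j' hj'

theorem lower_min {n a b : ℕ} (hn : 1 ≤ n) (h : Arrows a b n) :
    Real.exp (-2) * (n : ℝ) ^ 2 * 2 ^ n *
      Real.exp ((n : ℝ) * (n - 3) / (2 * (min a b : ℕ))) < a * b := by
  rcases le_total a b with hab | hab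
  · rw [min_eq_left hab]
    exact lower_left hn h
  · rw [min_eq_right hab, mul_comm (a : ℝ)]
    exact lower_left hn h.symm

theorem min_pos {n a b : ℕ} (hn : 1 ≤ n) (h : Arrows a b n) : 0 < min a b := by
  obtain ⟨S, T, -, hS, hT, -⟩ := h fun _ _ => true
  have h1 := card_le_univ S
  have h2 := card_le_univ T
  simp only [Fintype.card_fin] at h1 h2
  omega

theorem min_ge {n a b : ℕ} {C : ℝ} (hn : 6 ≤ n) (h : Arrows a b n)
    (hab : (a : ℝ) * b ≤ C * n ^ 2 * 2 ^ n) : (n : ℝ) ^ 2 ≤ 4 * (C + 2) * (min a b : ℕ) := by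
  have h1 := lower_min (by omega) h
  have hm : (0 : ℝ) < (min a b : ℕ) := by exact_mod_cast min_pos (by omega) h
  set m : ℝ := ((min a b : ℕ) : ℝ)
  have hn' : (6 : ℝ) ≤ n := by exact_mod_cast hn
  by_contra hc
  push Not at hc
  have h2 : C + 2 ≤ (n : ℝ) * (n - 3) / (2 * m) := by
    rw [le_div_iff₀ (by positivity)]
    nlinarith
  have h3 : C ≤ Real.exp (-2) * Real.exp ((n : ℝ) * (n - 3) / (2 * m)) := by
    rw [← Real.exp_add]
    have := Real.add_one_le_exp (-2 + (n : ℝ) * (n - 3) / (2 * m))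
    linarith
  have h4 : C * ((n : ℝ) ^ 2 * 2 ^ n) ≤
      Real.exp (-2) * Real.exp ((n : ℝ) * (n - 3) / (2 * m)) * ((n : ℝ) ^ 2 * 2 ^ n) := by gcongr
  nlinarith

theorem small_side (a b : ℕ → ℕ) (h : ∀ᶠ n in atTop, Arrows (a n) (b n) n)
    (hs : Tendsto (fun n : ℕ => ((min (a n) (b n) : ℕ) : ℝ) / (n : ℝ) ^ 2) atTop (nhds 0)) :
    Tendsto (fun n : ℕ => (a n : ℝ) * b n / ((n : ℝ) ^ 2 * 2 ^ n)) atTop atTop := by
  rw [tendsto_atTop]
  intro C
  have hC : 0 < 4 * (|C| + 2) := by positivity
  have h1 := hs.eventually (gt_mem_nhds (show (0 : ℝ) < 1 / (4 * (|C| + 2)) by positivity))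
  filter_upwards [h, h1, eventually_ge_atTop 6] with n hA hm hn
  have hn' : (0 : ℝ) < n := by exact_mod_cast (by omega : 0 < n)
  refine (le_abs_self C).trans ?_
  rw [le_div_iff₀ (by positivity)]
  by_contra hc
  push Not at hc
  have h2 := min_ge (C := |C|) hn hA (by linarith)
  rw [div_lt_div_iff₀ (by positivity) hC] at hm
  linarith

theorem diag_of_main (C N : ℕ) (a b : ℕ → ℕ)
    (h : ∀ n, N ≤ n → a n * b n ≤ C * n ^ 2 * 2 ^ n ∧ Arrows (a n) (b n) n) :
    ∃ D : ℕ, ∀ᶠ n in atTop, Arrows (D * 2 ^ n) (D * 2 ^ n) n := by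
  refine ⟨4 * (C + 2) * C, ?_⟩
  filter_upwards [eventually_ge_atTop N, eventually_ge_atTop 6] with n hN hn
  obtain ⟨h1, h2⟩ := h n hN
  have h3 := min_ge (C := C) hn h2 (by exact_mod_cast h1)
  have h4 : n ^ 2 ≤ 4 * (C + 2) * min (a n) (b n) := by exact_mod_cast h3
  have hm := min_pos (by omega) h2
  have key : max (a n) (b n) ≤ 4 * (C + 2) * C * 2 ^ n := by
    refine Nat.le_of_mul_le_mul_left ?_ hm
    rw [min_mul_max]
    calc a n * b n ≤ C * n ^ 2 * 2 ^ n := h1
      _ ≤ C * (4 * (C + 2) * min (a n) (b n)) * 2 ^ n := by gcongr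
      _ = _ := by ring
  exact h2.mono ((le_max_left _ _).trans key) ((le_max_right _ _).trans key)

end Pool.Agent.Lib.MP_1d35f7_co
end
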