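import Mathlib

/-! A linear potential argument for complete bipartite subgraphs of dense bipartite graphs. -/

namespace Pool.Agent.Lib.MP_1d35f7_co.Potential

open Finset

variable {α β : Type*}

/-- Number of edges between `A` and `B`. -/
noncomputable def edges (r : α → β → Prop) (A : Finset α) (B : Finset β) : ℝ := by
  classical exact ∑ x ∈ A, ∑ y ∈ B, if r x y then (1 : ℝ) else 0

/-- The potential `ab + m (2e - ab)`. -/
noncomputable def pot (r : α → β → Prop) (m : ℕ) (A : Finset α) (B : Finset β) : ℝ :=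
  (A.card : ℝ) * B.card + m * (2 * edges r A B - (A.card : ℝ) * B.card)

lemma edges_flip (r : α → β → Prop) (A : Finset α) (B : Finset β) :
    edges (fun y x => r x y) B A = edges r A B := by
  unfold edges
  rw [Finset.sum_comm]

lemma pot_flip (r : α → β → Prop) (m : ℕ) (A : Finset α) (B : Finset β) :
    pot (fun y x => r x y) m B A = pot r m A B := by
  unfold pot
  rw [edges_flip]; ring

lemma edges_le (r : α → β → Prop) (A : Finset α) (B : Finset β) :
    edges r A B ≤ (A.card : ℝ) * B.card := by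
  classical
  unfold edges
  calc _ ≤ ∑ _x ∈ A, ∑ _y ∈ B, (1 : ℝ) := by
        refine Finset.sum_le_sum fun x _ => Finset.sum_le_sum fun y _ => ?_
        split_ifs <;> norm_num
    _ = _ := by simp

lemma edges_nonneg (r : α → β → Prop) (A : Finset α) (B : Finset β) : 0 ≤ edges r A B := by
  classical
  unfold edges
  refine Finset.sum_nonneg fun x _ => Finset.sum_nonneg fun y _ => ?_
  split_ifs <;> norm_num

lemma pot_le (r : α → β → Prop) (m : ℕ) (A : Finset α) (B : Finset β) :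
    pot r m A B ≤ (A.card : ℝ) * B.card * (m + 1) := by
  unfold pot
  have h := edges_le r A B
  have hm : (0 : ℝ) ≤ m := Nat.cast_nonneg m
  nlinarith

open Classical in
/-- Degree of a column. -/
noncomputable def deg (r : α → β → Prop) (A : Finset α) (y : β) : ℝ :=
  ∑ x ∈ A, if r x y then (1 : ℝ) else 0

lemma edges_eq_sum_deg (r : α → β → Prop) (A : Finset α) (B : Finset β) :
    edges r A B = ∑ y ∈ B, deg r A y := by
  unfold edges deg
  rw [Finset.sum_comm]

open Classical in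
lemma pot_step (r : α → β → Prop) (k : ℕ) (A : Finset α) (B : Finset β) {x : α} (hx : x ∈ A) :
    pot r k (A.erase x) (B.filter (r x)) =
      ∑ y ∈ B, (if r x y then (1 : ℝ) else 0) *
        (((A.card : ℝ) - 1) * (1 - k) + 2 * k * (deg r A y - 1)) := by
  have h1 : ((A.erase x).card : ℝ) = (A.card : ℝ) - 1 := by
    rw [Finset.card_erase_of_mem hx, Nat.cast_sub (Finset.card_pos.2 ⟨x, hx⟩)]; simp
  have h2 : ∀ y ∈ B.filter (r x), deg r (A.erase x) y = deg r A y - 1 := by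
    intro y hy
    have hy' := (Finset.mem_filter.1 hy).2
    unfold deg
    rw [← Finset.add_sum_erase A _ hx]
    simp [hy']
  unfold pot
  rw [edges_eq_sum_deg, Finset.sum_congr rfl h2, h1]
  have h3 : ∑ y ∈ B, (if r x y then (1 : ℝ) else 0) *
        (((A.card : ℝ) - 1) * (1 - k) + 2 * k * (deg r A y - 1))
      = ∑ y ∈ B.filter (r x), (((A.card : ℝ) - 1) * (1 - k) + 2 * k * (deg r A y - 1)) := by
    rw [Finset.sum_filter]
    refine Finset.sum_congr rfl fun y _ => ?_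
    split_ifs <;> simp
  rw [h3, Finset.sum_add_distrib, Finset.sum_const, nsmul_eq_mul, ← Finset.mul_sum]
  ring

open Classical in
lemma sum_pot_step (r : α → β → Prop) (k : ℕ) (A : Finset α) (B : Finset β) :
    ∑ x ∈ A, pot r k (A.erase x) (B.filter (r x)) =
      (((A.card : ℝ) - 1) * (1 - k) - 2 * k) * edges r A B + 2 * k * ∑ y ∈ B, deg r A y ^ 2 := by
  rw [Finset.sum_congr rfl fun x hx => pot_step r k A B hx, Finset.sum_comm, edges_eq_sum_deg,
    Finset.mul_sum, Finset.mul_sum, ← Finset.sum_add_distrib]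
  refine Finset.sum_congr rfl fun y _ => ?_
  rw [← Finset.sum_mul]
  change deg r A y * _ = _
  ring

open Classical in
/-- One step: a row whose neighbourhood is large and keeps the potential. -/
lemma row_step (r : α → β → Prop) (k : ℕ) (hk : 1 ≤ k) (A : Finset α) (B : Finset β)
    (ha : 16 * ((k : ℝ) + 1) ^ 4 ≤ A.card) (hb : 256 * ((k : ℝ) + 1) ^ 8 ≤ B.card)
    (hP : 0 < pot r (k + 1) A B) :
    ∃ x ∈ A, 16 * ((k : ℝ) + 1) ^ 4 ≤ (B.filter (r x)).card ∧
      (1 - 1 / (2 * ((k : ℝ) + 1) ^ 2)) * pot r (k + 1) A B ≤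
        2 * pot r k (A.erase x) (B.filter (r x)) := by
  set m : ℝ := (k : ℝ) + 1 with hm
  have hk' : (1 : ℝ) ≤ k := by exact_mod_cast hk
  have hm2 : 2 ≤ m := by linarith
  set a : ℝ := (A.card : ℝ) with hadef
  set b : ℝ := (B.card : ℝ) with hbdef
  set E := edges r A B with hE
  have hm4 : 0 < m ^ 4 := by positivity
  have ha0 : 0 < a := by linarith
  have hb0 : 0 < b := by have : 0 < m ^ 8 := by positivity
                         linarith
  have hab : 0 < a * b := mul_pos ha0 hb0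
  -- the normalised density
  obtain ⟨u, hu⟩ : ∃ u : ℝ, E = a * b * (1 + u) / 2 := ⟨2 * E / (a * b) - 1, by field_simp; ring⟩
  have hEle : E ≤ a * b := edges_le r A B
  have hpot : pot r (k + 1) A B = a * b * (1 + m * u) := by
    unfold pot
    rw [← hadef, ← hbdef, ← hE, hu]; push_cast; ring
  have hl : 0 < 1 + m * u := by
    rw [hpot] at hP
    exact (mul_pos_iff_of_pos_left hab).1 hP
  set l : ℝ := (1 + u) * (1 + k * u) with hldef
  have hl1 : 1 + m * u ≤ l := by
    have : l = 1 + m * u + k * u ^ 2 := by rw [hldef, hm]; ring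
    nlinarith [sq_nonneg u]
  have hl2 : 1 ≤ 2 * m * l := by
    have h1 : 1 / 2 ≤ 1 + u := by nlinarith
    have h2 : 1 ≤ m * (1 + k * u) := by
      have : m * (1 + k * u) = 1 + k * (1 + m * u) := by rw [hm]; ring
      nlinarith
    have : 2 * m * l = (2 * (1 + u)) * (m * (1 + k * u)) := by rw [hldef]; ring
    rw [this]; nlinarith
  have hlpos : 0 < l := by linarith
  -- Cauchy-Schwarz
  have hCS : E ^ 2 ≤ b * ∑ y ∈ B, deg r A y ^ 2 := by
    rw [hE, edges_eq_sum_deg]
    exact sq_sum_le_card_mul_sum_sq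
  have hCS' : E * (a * (1 + u) / 2) ≤ ∑ y ∈ B, deg r A y ^ 2 := by
    have : b * (E * (a * (1 + u) / 2)) = E ^ 2 := by rw [sq]; nth_rewrite 3 [hu]; ring
    rw [← this] at hCS
    exact le_of_mul_le_mul_left hCS hb0
  have hsum : a * (a * b * l) - 2 * (a * b) * m ≤
      ∑ x ∈ A, 2 * pot r k (A.erase x) (B.filter (r x)) := by
    rw [← Finset.mul_sum, sum_pot_step, ← hadef, ← hE]
    have h1 : 2 * (((a - 1) * (1 - k) - 2 * k) * E + 2 * k * (E * (a * (1 + u) / 2)))
        = a * (a * b * l) - 2 * E * m := by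
      rw [hldef, hm, hu]; ring
    have hk0 : (0 : ℝ) ≤ k := by linarith
    have h2 := mul_le_mul_of_nonneg_left hCS' hk0
    nlinarith
  set R : ℝ := (1 - 1 / (2 * m ^ 2)) * (a * b * l) with hR
  have hm2' : 0 < m ^ 2 := by positivity
  have hfac : 0 < 1 - 1 / (2 * m ^ 2) := by
    have : 1 / (2 * m ^ 2) < 1 := by rw [div_lt_one (by positivity)]; nlinarith
    linarith
  have hR0 : 0 < R := mul_pos hfac (mul_pos hab hlpos)
  -- error terms
  have herr : 2 * b * m + 2 * a * (16 * m ^ 4) * m ≤ a * b * l / (2 * m ^ 2) := by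
    rw [le_div_iff₀ (by positivity)]
    have h1 : 16 * m ^ 4 * b ≤ a * b := mul_le_mul_of_nonneg_right ha hb0.le
    have h2 : 256 * m ^ 8 * a ≤ b * a := mul_le_mul_of_nonneg_right hb ha0.le
    have h3 : a * b ≤ a * b * (2 * m * l) := le_mul_of_one_le_right hab.le hl2
    have h4 : 2 * m * ((2 * b * m + 2 * a * (16 * m ^ 4) * m) * (2 * m ^ 2)) ≤ 2 * m * (a * b * l) := by
      have : 2 * m * ((2 * b * m + 2 * a * (16 * m ^ 4) * m) * (2 * m ^ 2))
          = (16 * m ^ 4 * b) / 2 + (256 * m ^ 8 * a) / 2 := by ring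
      rw [this]; nlinarith
    exact le_of_mul_le_mul_left h4 (by linarith)
  by_contra hcon
  push Not at hcon
  have hbound : ∀ x ∈ A, 2 * pot r k (A.erase x) (B.filter (r x)) < R + 2 * a * (16 * m ^ 4) * m := by
    intro x hx
    have hpos : 0 < 2 * a * (16 * m ^ 4) * m := by positivity
    by_cases hc : 16 * m ^ 4 ≤ ((B.filter (r x)).card : ℝ)
    · have h1 := hcon x hx hc
      have h2 : (1 - 1 / (2 * m ^ 2)) * pot r (k + 1) A B ≤ R := by
        rw [hR, hpot]
        exact mul_le_mul_of_nonneg_left (mul_le_mul_of_nonneg_left hl1 hab.le) hfac.le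
      linarith
    · push Not at hc
      have h1 := pot_le r k (A.erase x) (B.filter (r x))
      have h2 : ((A.erase x).card : ℝ) ≤ a := by
        rw [hadef]; exact_mod_cast Finset.card_erase_le
      have h3 : ((A.erase x).card : ℝ) * (B.filter (r x)).card ≤ a * (16 * m ^ 4) :=
        mul_le_mul h2 hc.le (Nat.cast_nonneg _) ha0.le
      have h4 := mul_le_mul_of_nonneg_right h3 (show (0 : ℝ) ≤ m by linarith)
      rw [← hm] at h1
      linarith
  have hne : A.Nonempty := Finset.card_pos.1 (by rw [hadef] at ha0; exact_mod_cast ha0)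
  have hlt := Finset.sum_lt_sum_of_nonempty hne hbound
  rw [Finset.sum_const, nsmul_eq_mul, ← hadef] at hlt
  have h5 : R = a * b * l - a * b * l / (2 * m ^ 2) := by rw [hR]; ring
  have h6 := mul_le_mul_of_nonneg_left herr ha0.le
  nlinarith

lemma poly_le (m : ℕ) : (256 * (m : ℝ) ^ 8) ^ 2 * (m + 1) ≤ 2 ^ 71 * 2 ^ m := by
  have key : ∀ m : ℕ, m ^ 16 * (m + 1) ≤ 2 ^ 55 * 2 ^ m := by
    intro m
    by_cases h : m < 40
    · interval_cases m <;> norm_num
    · push Not at h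
      have : ∀ j : ℕ, 40 ≤ j → (j + 1) ^ 17 ≤ 2 ^ 55 * 2 ^ j := by
        intro j hj
        induction j, hj using Nat.le_induction with
        | base => norm_num
        | succ j hj ih =>
          have h1 : 41 * (j + 1 + 1) ≤ 42 * (j + 1) := by omega
          have h2 := Nat.pow_le_pow_left h1 17
          rw [mul_pow, mul_pow] at h2
          have h3 : 42 ^ 17 ≤ 41 ^ 17 * 2 := by norm_num
          have h4 : 41 ^ 17 * (j + 1 + 1) ^ 17 ≤ 41 ^ 17 * (2 * (j + 1) ^ 17) :=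
            calc _ ≤ _ := h2
              _ ≤ 41 ^ 17 * 2 * (j + 1) ^ 17 := Nat.mul_le_mul_right _ h3
              _ = _ := by ring
          have h5 := Nat.le_of_mul_le_mul_left h4 (by norm_num)
          rw [pow_succ 2 j]
          omega
      calc m ^ 16 * (m + 1) ≤ (m + 1) ^ 16 * (m + 1) :=
            Nat.mul_le_mul_right _ (Nat.pow_le_pow_left (Nat.le_succ m) 16)
        _ = (m + 1) ^ 17 := by ring
        _ ≤ _ := this m h
  have h : (m : ℝ) ^ 16 * (m + 1) ≤ 2 ^ 55 * 2 ^ m := by exact_mod_cast key m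
  calc _ = 2 ^ 16 * ((m : ℝ) ^ 16 * (m + 1)) := by ring
    _ ≤ 2 ^ 16 * (2 ^ 55 * 2 ^ m) := by gcongr
    _ = _ := by ring

lemma const_step (k : ℕ) (hk : 1 ≤ k) {P P' : ℝ}
    (h : 2 ^ 71 * (2 - 1 / ((k : ℝ) + 1)) * 2 ^ (k + 1) ≤ P)
    (h' : (1 - 1 / (2 * ((k : ℝ) + 1) ^ 2)) * P ≤ 2 * P') :
    2 ^ 71 * (2 - 1 / (k : ℝ)) * 2 ^ k ≤ P' := by
  have hk' : (1 : ℝ) ≤ k := by exact_mod_cast hk
  have hfac : 0 ≤ 1 - 1 / (2 * ((k : ℝ) + 1) ^ 2) := by
    have : 1 / (2 * ((k : ℝ) + 1) ^ 2) ≤ 1 := by rw [div_le_one (by positivity)]; nlinarith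
    linarith
  have h1 : 2 - 1 / (k : ℝ) ≤ (1 - 1 / (2 * ((k : ℝ) + 1) ^ 2)) * (2 - 1 / ((k : ℝ) + 1)) := by
    have : (1 - 1 / (2 * ((k : ℝ) + 1) ^ 2)) * (2 - 1 / ((k : ℝ) + 1)) - (2 - 1 / (k : ℝ))
        = (3 * k + 2) / (2 * k * ((k : ℝ) + 1) ^ 3) := by field_simp; ring
    have h2 : 0 ≤ (3 * k + 2) / (2 * k * ((k : ℝ) + 1) ^ 3) := by positivity
    linarith
  have h2 := mul_le_mul_of_nonneg_left h hfac
  have h3 : (2 : ℝ) ^ 71 * (2 - 1 / (k : ℝ)) * 2 ^ (k + 1) ≤
      2 ^ 71 * ((1 - 1 / (2 * ((k : ℝ) + 1) ^ 2)) * (2 - 1 / ((k : ℝ) + 1))) * 2 ^ (k + 1) := by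
    gcongr
  rw [pow_succ (2 : ℝ) k] at h3 h2
  nlinarith

lemma size_step (k : ℕ) {a : ℝ} (h : 16 * ((k : ℝ) + 1) ^ 4 ≤ a) : 16 * (k : ℝ) ^ 4 ≤ a - 1 := by
  have hk : (0 : ℝ) ≤ k := Nat.cast_nonneg k
  have : (k : ℝ) ^ 4 + 1 ≤ ((k : ℝ) + 1) ^ 4 := by
    have h1 : ((k : ℝ) + 1) ^ 4 = k ^ 4 + 1 + (4 * k ^ 3 + 6 * k ^ 2 + 4 * k) := by ring
    have h2 : (0 : ℝ) ≤ 4 * k ^ 3 + 6 * k ^ 2 + 4 * k := by positivity
    linarith
  linarith

/-- The main induction. -/
theorem exists_biclique (r : α → β → Prop) (m : ℕ) : ∀ (p q : ℕ), p + q = m →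
    ∀ (A : Finset α) (B : Finset β), 16 * (m : ℝ) ^ 4 ≤ A.card → 16 * (m : ℝ) ^ 4 ≤ B.card →
      2 ^ 71 * (2 - 1 / (m : ℝ)) * 2 ^ m ≤ pot r m A B →
      ∃ S ⊆ A, ∃ T ⊆ B, S.card = p ∧ T.card = q ∧ ∀ x ∈ S, ∀ y ∈ T, r x y := by
  classical
  induction m with
  | zero =>
    intro p q hpq A B _ _ _
    exact ⟨∅, by simp, ∅, by simp, by simp; omega, by simp; omega, by simp⟩
  | succ k ih =>
    intro p q hpq A B ha hb hP
    have hsmall : ∀ n : ℕ, 16 * ((k + 1 : ℕ) : ℝ) ^ 4 ≤ n → k + 1 ≤ n := by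
      intro n hn
      have h1 : 16 * (k + 1) ^ 4 ≤ n := by exact_mod_cast hn
      have h2 : k + 1 ≤ (k + 1) ^ 4 := Nat.le_self_pow (by norm_num) _
      omega
    rcases Nat.eq_zero_or_pos p with rfl | hp
    · obtain ⟨T, hT, hTc⟩ := Finset.exists_subset_card_eq (show q ≤ B.card by
        have := hsmall _ hb; omega)
      exact ⟨∅, by simp, T, hT, by simp, hTc, by simp⟩
    rcases Nat.eq_zero_or_pos q with rfl | hq
    · obtain ⟨S, hS, hSc⟩ := Finset.exists_subset_card_eq (show p ≤ A.card by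
        have := hsmall _ ha; omega)
      exact ⟨S, hS, ∅, by simp, hSc, by simp, by simp⟩
    have hk : 1 ≤ k := by omega
    have hk' : (1 : ℝ) ≤ k := by exact_mod_cast hk
    push_cast at ha hb hP
    have hc : (1 : ℝ) ≤ 2 - 1 / ((k : ℝ) + 1) := by
      have : 1 / ((k : ℝ) + 1) ≤ 1 := by rw [div_le_one (by positivity)]; linarith
      linarith
    have hP1 : (2 : ℝ) ^ 71 * 2 ^ (k + 1) ≤ pot r (k + 1) A B := by
      refine le_trans ?_ hP
      have : (2 : ℝ) ^ 71 * 1 * 2 ^ (k + 1) ≤ 2 ^ 71 * (2 - 1 / ((k : ℝ) + 1)) * 2 ^ (k + 1) := by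
        gcongr
      linarith
    have hP0 : 0 < pot r (k + 1) A B := lt_of_lt_of_le (by positivity) hP1
    have hmono : 16 * (k : ℝ) ^ 4 ≤ 16 * ((k : ℝ) + 1) ^ 4 := by gcongr; linarith
    by_cases hB : 256 * ((k : ℝ) + 1) ^ 8 ≤ B.card
    · obtain ⟨x, hx, h1, h2⟩ := row_step r k hk A B ha hB hP0
      have h3 : ((A.erase x).card : ℝ) = (A.card : ℝ) - 1 := by
        rw [Finset.card_erase_of_mem hx, Nat.cast_sub (Finset.card_pos.2 ⟨x, hx⟩)]; simp
      obtain ⟨S, hS, T, hT, hSc, hTc, hST⟩ := ih (p - 1) q (by omega) (A.erase x) (B.filter (r x))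
        (by rw [h3]; exact size_step k ha) (hmono.trans (by convert h1)) (const_step k hk hP (by convert h2))
      have hxS : x ∉ S := fun h => Finset.notMem_erase x A (hS h)
      refine ⟨insert x S, Finset.insert_subset hx (hS.trans (Finset.erase_subset _ _)), T,
        hT.trans (Finset.filter_subset _ _), by rw [Finset.card_insert_of_notMem hxS]; omega,
        hTc, fun x' hx' y hy => ?_⟩
      rcases Finset.mem_insert.1 hx' with rfl | hx'
      · exact (Finset.mem_filter.1 (hT hy)).2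
      · exact hST x' hx' y hy
    by_cases hA : 256 * ((k : ℝ) + 1) ^ 8 ≤ A.card
    · obtain ⟨y, hy, h1, h2⟩ := row_step (fun y x => r x y) k hk B A hb hA
        (by rw [pot_flip]; exact hP0)
      rw [pot_flip r, pot_flip r] at h2
      have h3 : ((B.erase y).card : ℝ) = (B.card : ℝ) - 1 := by
        rw [Finset.card_erase_of_mem hy, Nat.cast_sub (Finset.card_pos.2 ⟨y, hy⟩)]; simp
      obtain ⟨S, hS, T, hT, hSc, hTc, hST⟩ := ih p (q - 1) (by omega)
        (A.filter (fun x => r x y)) (B.erase y) (hmono.trans (by convert h1))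
        (by rw [h3]; exact size_step k hb) (const_step k hk hP (by convert h2))
      have hyT : y ∉ T := fun h => Finset.notMem_erase y B (hT h)
      refine ⟨S, hS.trans (Finset.filter_subset _ _), insert y T,
        Finset.insert_subset hy (hT.trans (Finset.erase_subset _ _)), hSc,
        by rw [Finset.card_insert_of_notMem hyT]; omega, fun x hx y' hy' => ?_⟩
      rcases Finset.mem_insert.1 hy' with rfl | hy'
      · exact (Finset.mem_filter.1 (hS hx)).2
      · exact hST x hx y' hy'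
    exfalso
    push Not at hA hB
    have h1 := pot_le r (k + 1) A B
    have h2 := poly_le (k + 1)
    push_cast at h1 h2
    have h3 : (A.card : ℝ) * B.card < (256 * ((k : ℝ) + 1) ^ 8) ^ 2 := by
      rw [sq]
      exact mul_lt_mul'' hA hB (Nat.cast_nonneg _) (Nat.cast_nonneg _)
    have h4 := mul_lt_mul_of_pos_right h3 (show (0 : ℝ) < (k : ℝ) + 1 + 1 by positivity)
    linarith

/-- Density version: a bipartite graph of density at least one half. -/
theorem exists_biclique_of_dense (r : α → β → Prop) (p q : ℕ) (A : Finset α) (B : Finset β)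
    (ha : 16 * (p + q) ^ 4 ≤ A.card) (hb : 16 * (p + q) ^ 4 ≤ B.card)
    (hab : 2 ^ 72 * 2 ^ (p + q) ≤ A.card * B.card)
    (hd : (A.card : ℝ) * B.card ≤ 2 * edges r A B) :
    ∃ S ⊆ A, ∃ T ⊆ B, S.card = p ∧ T.card = q ∧ ∀ x ∈ S, ∀ y ∈ T, r x y := by
  refine exists_biclique r (p + q) p q rfl A B (by exact_mod_cast ha) (by exact_mod_cast hb) ?_
  have h1 : (2 : ℝ) ^ 72 * 2 ^ (p + q) ≤ (A.card : ℝ) * B.card := by exact_mod_cast hab
  have h2 : (0 : ℝ) ≤ 1 / ((p + q : ℕ) : ℝ) := by positivity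
  have h3 : (0 : ℝ) ≤ ((p + q : ℕ) : ℝ) * (2 * edges r A B - (A.card : ℝ) * B.card) :=
    mul_nonneg (Nat.cast_nonneg _) (by linarith)
  have h4 : (2 : ℝ) ^ 71 * (2 - 1 / ((p + q : ℕ) : ℝ)) * 2 ^ (p + q) ≤ 2 ^ 71 * 2 * 2 ^ (p + q) := by
    gcongr; linarith
  unfold pot
  linarith

end Pool.Agent.Lib.MP_1d35f7_co.Potential
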