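import Pool.Agent.Lib.MP_1d35f7_co.Main

set_option autoImplicit false

namespace Pool.Agent.Lib.MP_1d35f7_co.SmallSideJoined

open Filter Pool.Agent.Lib.MP_1d35f7_co

/-- (1) If `K_{a,b} → K_{n,n}` then `ab > e⁻² n² 2ⁿ exp(n(n-3) / (2 min(a,b)))`.
(2) Hence hosts whose smaller side is `o(n²)` have `ab / (n² 2ⁿ) → ∞`.
(3) Hence a positive answer to the problem gives `K_{N,N} → K_{n,n}` with `N = O(2ⁿ)`. -/
theorem joined :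
    (∀ n a b : ℕ, 1 ≤ n → Arrows a b n →
      Real.exp (-2) * (n : ℝ) ^ 2 * 2 ^ n *
        Real.exp ((n : ℝ) * (n - 3) / (2 * (min a b : ℕ))) < a * b) ∧
    (∀ a b : ℕ → ℕ, (∀ᶠ n in atTop, Arrows (a n) (b n) n) →
      Tendsto (fun n : ℕ => ((min (a n) (b n) : ℕ) : ℝ) / (n : ℝ) ^ 2) atTop (nhds 0) →
      Tendsto (fun n : ℕ => (a n : ℝ) * b n / ((n : ℝ) ^ 2 * 2 ^ n)) atTop atTop) ∧
    (∀ (C N : ℕ) (a b : ℕ → ℕ),
      (∀ n, N ≤ n → a n * b n ≤ C * n ^ 2 * 2 ^ n ∧ Arrows (a n) (b n) n) →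
      ∃ D : ℕ, ∀ᶠ n in atTop, Arrows (D * 2 ^ n) (D * 2 ^ n) n) :=
  ⟨fun _ _ _ hn h => lower_min hn h, small_side, diag_of_main⟩

end Pool.Agent.Lib.MP_1d35f7_co.SmallSideJoined
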